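import Pool.Agent.T2H31.HV.Stm

set_option autoImplicit false

/-!
# Package ANO: the components of the pair sum
-/

open Finset

namespace Pool.Agent.T2H31.HV

theorem al_nonneg (z : ℕ → ℕ) (Q h n p : ℕ) : 0 ≤ al z Q h n p := by
  unfold al
  split_ifs <;> norm_num

theorem al_le_one (z : ℕ → ℕ) (Q h n p : ℕ) : al z Q h n p ≤ 1 := by
  unfold al
  split_ifs <;> norm_num

theorem be_nonneg (z : ℕ → ℕ) (Q h n p : ℕ) : 0 ≤ be z Q h n p := by
  unfold be
  split_ifs <;> norm_num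

theorem be_le_one (z : ℕ → ℕ) (Q h n p : ℕ) : be z Q h n p ≤ 1 := by
  unfold be
  split_ifs <;> norm_num

theorem al_mono {z : ℕ → ℕ} (hz : Monotone z) (Q h p : ℕ) : Monotone fun n => al z Q h n p := by
  intro n n' hn
  have h1 := hz hn
  simp only [al]
  split_ifs with h2 h3 h3
  · exact le_rfl
  · exact absurd ⟨h2.1.imp_left fun h => h.trans h1, h2.2⟩ h3
  · exact zero_le_one
  · exact le_rfl

theorem be_mono {z : ℕ → ℕ} (hz : Monotone z) (Q h p : ℕ) : Monotone fun n => be z Q h n p := by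
  intro n n' hn
  have h1 : z (n + h) ≤ z (n' + h) := hz (by omega)
  simp only [be]
  split_ifs with h2 h3 h3
  · exact le_rfl
  · exact absurd (h2.imp_left fun h => h.trans h1) h3
  · exact zero_le_one
  · exact le_rfl

theorem al_add_be_le (z : ℕ → ℕ) (Q h n : ℕ) {p : ℕ} (hp : p.Prime) :
    al z Q h n p + be z Q h n p ≤ p := by
  have h2 : (2 : ℝ) ≤ p := by exact_mod_cast hp.two_le
  have h3 := al_le_one z Q h n p
  have h4 := be_le_one z Q h n p
  linarith

theorem mf_nonneg (z : ℕ → ℕ) (Q h n : ℕ) {p : ℕ} (hp : p.Prime) : 0 ≤ mf z Q h n p := by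
  unfold mf
  have h1 := al_add_be_le z Q h n hp
  have h2 : (0 : ℝ) < p := by exact_mod_cast hp.pos
  rw [sub_nonneg, div_le_one h2]
  exact h1

theorem mf_le_one (z : ℕ → ℕ) (Q h n p : ℕ) : mf z Q h n p ≤ 1 := by
  unfold mf
  have h1 := al_nonneg z Q h n p
  have h2 := be_nonneg z Q h n p
  have h3 : 0 ≤ (al z Q h n p + be z Q h n p) / (p : ℝ) := by positivity
  linarith

theorem mf_anti {z : ℕ → ℕ} (hz : Monotone z) (Q h p : ℕ) : Antitone fun n => mf z Q h n p := by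
  intro n n' hn
  have h1 : al z Q h n p ≤ al z Q h n' p := al_mono hz Q h p hn
  have h2 : be z Q h n p ≤ be z Q h n' p := be_mono hz Q h p hn
  simp only [mf]
  have h3 : (al z Q h n p + be z Q h n p) / (p : ℝ) ≤ (al z Q h n' p + be z Q h n' p) / (p : ℝ) := by
    gcongr
  linarith

theorem sum_uu {p : ℕ} (hp : 0 < p) (n : ℕ) : ∑ r ∈ range p, uu p n r = 0 := by
  unfold uu
  rw [sum_sub_distrib, sum_ite_eq, if_pos (mem_range.2 (Nat.mod_lt n hp)), sum_const, card_range,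
    nsmul_eq_mul]
  have : (p : ℝ) ≠ 0 := by positivity
  field_simp
  ring

/-- the centred part of the factor of `p` -/
noncomputable def ww (z : ℕ → ℕ) (Q h n p r : ℕ) : ℝ :=
  -(al z Q h n p * uu p n r + be z Q h n p * uu p (n + h) r)

theorem sum_ww (z : ℕ → ℕ) (Q h n : ℕ) {p : ℕ} (hp : 0 < p) : ∑ r ∈ range p, ww z Q h n p r = 0 := by
  unfold ww
  rw [sum_neg_distrib, sum_add_distrib, ← mul_sum, ← mul_sum, sum_uu hp, sum_uu hp]
  ring

open Classical in
theorem factor {z : ℕ → ℕ} (hz : Monotone z) (Q h n p r : ℕ) :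
    (if (p ≤ z n ∨ p ∣ Q) → n % p ≠ r then (1 : ℝ) else 0) *
      (if (p ≤ z (n + h) ∨ p ∣ Q) → (n + h) % p ≠ r then (1 : ℝ) else 0) =
      ww z Q h n p r + mf z Q h n p := by
  have hmon : p ≤ z n ∨ p ∣ Q → p ≤ z (n + h) ∨ p ∣ Q := fun h1 =>
    h1.imp_left fun h2 => h2.trans (hz (by omega))
  have e : ww z Q h n p r + mf z Q h n p = 1 - al z Q h n p * (if n % p = r then 1 else 0) -
      be z Q h n p * (if (n + h) % p = r then 1 else 0) := by
    unfold ww mf uu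
    ring
  rw [e]
  unfold al be
  by_cases hph : p ∣ h
  · have h1 : (n + h) % p = n % p := by
      obtain ⟨k, rfl⟩ := hph
      rw [Nat.add_mul_mod_self_left]
    rw [h1]
    by_cases hA : p ≤ z n ∨ p ∣ Q
    · have hB := hmon hA
      by_cases hI : n % p = r
      · simp [hA, hB, hph, hI]
      · simp [hA, hB, hph, hI]
    · by_cases hB : p ≤ z (n + h) ∨ p ∣ Q
      · by_cases hI : n % p = r
        · simp [hA, hB, hph, hI]
        · simp [hA, hB, hph, hI]
      · simp [hA, hB]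
  · have h1 : ¬ (n % p = r ∧ (n + h) % p = r) := by
      rintro ⟨h2, h3⟩
      apply hph
      have h4 : n ≡ n + h [MOD p] := by
        show n % p = (n + h) % p
        rw [h2, h3]
      have h5 := (Nat.modEq_iff_dvd' (by omega)).1 h4
      simpa using h5
    by_cases hA : p ≤ z n ∨ p ∣ Q
    · have hB := hmon hA
      by_cases hI : n % p = r
      · have hI' : ¬ (n + h) % p = r := fun h2 => h1 ⟨hI, h2⟩
        simp [hA, hB, hph, hI, hI']
      · by_cases hI' : (n + h) % p = r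
        · simp [hA, hB, hph, hI, hI']
        · simp [hA, hB, hph, hI, hI']
    · by_cases hB : p ≤ z (n + h) ∨ p ∣ Q
      · by_cases hI' : (n + h) % p = r
        · simp [hA, hB, hph, hI']
        · simp [hA, hB, hph, hI']
      · simp [hA, hB]

theorem sv_mul {z : ℕ → ℕ} (hz : Monotone z) (Q h N : ℕ) (b : ℕ → ℕ) (n : ℕ) :
    sv z Q N b n * sv z Q N b (n + h) = ∏ p ∈ PN N, (ww z Q h n p (b p) + mf z Q h n p) := by
  classical
  have e : ∀ n, sv z Q N b n = ∏ p ∈ PN N, (if (p ≤ z n ∨ p ∣ Q) → n % p ≠ b p then (1 : ℝ) else 0) := by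
    intro n
    rw [prod_boole]
    rfl
  rw [e, e, ← prod_mul_distrib]
  exact prod_congr rfl fun p _ => factor hz Q h n p (b p)

/-- the component of the set `s` -/
noncomputable def Fc (z : ℕ → ℕ) (Q h N : ℕ) (c : ℕ → ℝ) (s : Finset ℕ) (b : ℕ → ℕ) : ℝ :=
  ∑ n ∈ Ico 3 (N + 1 - h), c n * ((∏ p ∈ s, ww z Q h n p (b p)) * ∏ p ∈ PN N \ s, mf z Q h n p)

theorem Fc_sum {z : ℕ → ℕ} (hz : Monotone z) (Q h N : ℕ) (c : ℕ → ℝ) (b : ℕ → ℕ) :
    PF z Q h N c b = ∑ s ∈ (PN N).powerset, Fc z Q h N c s b := by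
  unfold PF Fc
  rw [sum_comm]
  refine sum_congr rfl fun n _ => ?_
  rw [sv_mul hz, prod_add, mul_sum]

theorem Fc_empty (z : ℕ → ℕ) (Q h N : ℕ) (c : ℕ → ℝ) (b : ℕ → ℕ) :
    Fc z Q h N c ∅ b = EF z Q h N c := by
  unfold EF Fc
  simp

theorem Fc_dep (z : ℕ → ℕ) (Q h N : ℕ) (c : ℕ → ℝ) (s : Finset ℕ) : Dep s (Fc z Q h N c s) := by
  intro b b' hb
  unfold Fc
  refine sum_congr rfl fun n _ => ?_
  congr 2
  exact prod_congr rfl fun p hp => by rw [hb p hp]

theorem Fc_zero (z : ℕ → ℕ) (Q h N : ℕ) (c : ℕ → ℝ) (s : Finset ℕ) (p : ℕ) (hp : p ∈ s) (hp0 : 0 < p)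
    (b : ℕ → ℕ) : ∑ r ∈ range p, Fc z Q h N c s (Function.update b p r) = 0 := by
  unfold Fc
  rw [sum_comm]
  apply sum_eq_zero
  intro n _
  have e : ∀ r, ∏ q ∈ s, ww z Q h n q (Function.update b p r q) =
      ww z Q h n p r * ∏ q ∈ s.erase p, ww z Q h n q (b q) := by
    intro r
    rw [← mul_prod_erase s _ hp, Function.update_self]
    congr 1
    refine prod_congr rfl fun q hq => ?_
    rw [Function.update_of_ne (ne_of_mem_erase hq)]
  simp only [e]
  have e2 : ∀ r, c n * ((ww z Q h n p r * ∏ q ∈ s.erase p, ww z Q h n q (b q)) *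
      ∏ p ∈ PN N \ s, mf z Q h n p) = ww z Q h n p r * (c n * ((∏ q ∈ s.erase p, ww z Q h n q (b q)) *
      ∏ p ∈ PN N \ s, mf z Q h n p)) := fun r => by ring
  simp only [e2]
  rw [← sum_mul, sum_ww z Q h n hp0, zero_mul]

/-- the weights of the part `t` of the component -/
noncomputable def fw (z : ℕ → ℕ) (Q h : ℕ) (c : ℕ → ℝ) (s t : Finset ℕ) (n : ℕ) : ℝ :=
  if 3 ≤ n then c n * ((∏ p ∈ t, al z Q h n p) * ∏ p ∈ s \ t, be z Q h n p) else 0

theorem prods_nonneg (z : ℕ → ℕ) (Q h n : ℕ) (s t : Finset ℕ) :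
    0 ≤ (∏ p ∈ t, al z Q h n p) * ∏ p ∈ s \ t, be z Q h n p :=
  mul_nonneg (prod_nonneg fun p _ => al_nonneg _ _ _ _ _) (prod_nonneg fun p _ => be_nonneg _ _ _ _ _)

theorem prods_le_one (z : ℕ → ℕ) (Q h n : ℕ) (s t : Finset ℕ) :
    (∏ p ∈ t, al z Q h n p) * ∏ p ∈ s \ t, be z Q h n p ≤ 1 :=
  mul_le_one₀ (prod_le_one (fun p _ => al_nonneg _ _ _ _ _) fun p _ => al_le_one _ _ _ _ _)
    (prod_nonneg fun p _ => be_nonneg _ _ _ _ _)
    (prod_le_one (fun p _ => be_nonneg _ _ _ _ _) fun p _ => be_le_one _ _ _ _ _)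

theorem prods_mono {z : ℕ → ℕ} (hz : Monotone z) (Q h : ℕ) (s t : Finset ℕ) {n n' : ℕ} (hn : n ≤ n') :
    (∏ p ∈ t, al z Q h n p) * ∏ p ∈ s \ t, be z Q h n p ≤
      (∏ p ∈ t, al z Q h n' p) * ∏ p ∈ s \ t, be z Q h n' p := by
  apply mul_le_mul
  · exact prod_le_prod (fun p _ => al_nonneg _ _ _ _ _) fun p _ => al_mono hz Q h p hn
  · exact prod_le_prod (fun p _ => be_nonneg _ _ _ _ _) fun p _ => be_mono hz Q h p hn
  · exact prod_nonneg fun p _ => be_nonneg _ _ _ _ _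
  · exact prod_nonneg fun p _ => al_nonneg _ _ _ _ _

theorem fw_nonneg (z : ℕ → ℕ) (Q h : ℕ) (c : ℕ → ℝ) (hc0 : ∀ n, 0 ≤ c n) (s t : Finset ℕ) (n : ℕ) :
    0 ≤ fw z Q h c s t n := by
  unfold fw
  split_ifs
  · exact mul_nonneg (hc0 n) (prods_nonneg _ _ _ _ _ _)
  · exact le_rfl

theorem fw_mono {z : ℕ → ℕ} (hz : Monotone z) (Q h : ℕ) (c : ℕ → ℝ) (hc : Monotone c)
    (hc0 : ∀ n, 0 ≤ c n) (s t : Finset ℕ) : Monotone (fw z Q h c s t) := by
  intro n n' hn
  by_cases h3 : 3 ≤ n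
  · unfold fw
    rw [if_pos h3, if_pos (h3.trans hn)]
    exact mul_le_mul (hc hn) (prods_mono hz Q h s t hn) (prods_nonneg _ _ _ _ _ _) (hc0 n')
  · have : fw z Q h c s t n = 0 := by
      unfold fw
      rw [if_neg h3]
    rw [this]
    exact fw_nonneg z Q h c hc0 s t n'

theorem prod_ww (z : ℕ → ℕ) (Q h n : ℕ) (s : Finset ℕ) (b : ℕ → ℕ) :
    ∏ p ∈ s, ww z Q h n p (b p) = (-1) ^ s.card * ∑ t ∈ s.powerset,
      ((∏ p ∈ t, al z Q h n p) * ∏ p ∈ s \ t, be z Q h n p) *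
        ∏ p ∈ s, uu p (n + if p ∈ t then 0 else h) (b p) := by
  classical
  have e1 : ∏ p ∈ s, ww z Q h n p (b p) = (-1) ^ s.card *
      ∏ p ∈ s, (al z Q h n p * uu p n (b p) + be z Q h n p * uu p (n + h) (b p)) := by
    have : ∀ p ∈ s, ww z Q h n p (b p) =
        (-1) * (al z Q h n p * uu p n (b p) + be z Q h n p * uu p (n + h) (b p)) := by
      intro p _
      unfold ww
      ring
    rw [prod_congr rfl this, prod_mul_distrib, prod_const]
  rw [e1, prod_add]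
  congr 1
  refine sum_congr rfl fun t ht => ?_
  have hts := mem_powerset.1 ht
  have e2 : ∏ p ∈ s, uu p (n + if p ∈ t then 0 else h) (b p) =
      (∏ p ∈ t, uu p n (b p)) * ∏ p ∈ s \ t, uu p (n + h) (b p) := by
    rw [← prod_sdiff hts, mul_comm]
    congr 1
    · refine prod_congr rfl fun p hp => ?_
      rw [if_pos hp, add_zero]
    · refine prod_congr rfl fun p hp => ?_
      rw [if_neg (mem_sdiff.1 hp).2]
  rw [e2, prod_mul_distrib, prod_mul_distrib]
  ring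

theorem Fc_expand (z : ℕ → ℕ) (Q h N : ℕ) (c : ℕ → ℝ) (s : Finset ℕ) (b : ℕ → ℕ) :
    Fc z Q h N c s b = (-1) ^ s.card * ∑ t ∈ s.powerset, ∑ n ∈ range (N + 1 - h),
      fw z Q h c s t n * (∏ p ∈ PN N \ s, mf z Q h n p) *
        ∏ p ∈ s, uu p (n + if p ∈ t then 0 else h) (b p) := by
  unfold Fc
  rw [sum_comm, mul_sum]
  have e : ∀ G : ℕ → ℝ, (∀ n < 3, G n = 0) → ∑ n ∈ range (N + 1 - h), G n =
      ∑ n ∈ Ico 3 (N + 1 - h), G n := by
    intro G hG
    symm
    apply sum_subset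
    · intro n hn
      rw [mem_range]
      exact (mem_Ico.1 hn).2
    · intro n hn hn'
      apply hG
      rw [mem_range] at hn
      rw [mem_Ico] at hn'
      omega
  rw [e]
  · refine sum_congr rfl fun n hn => ?_
    rw [prod_ww, mul_sum, sum_mul, mul_sum, mul_sum]
    refine sum_congr rfl fun t _ => ?_
    unfold fw
    rw [if_pos (mem_Ico.1 hn).1]
    ring
  · intro n hn
    have : ∀ t, fw z Q h c s t n = 0 := fun t => by
      unfold fw
      rw [if_neg (by omega)]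
    simp [this]

theorem T_ANO (hBV : P_BV) : P_ANO := by
  classical
  intro z hz Q h N B c hc hc0 hcB
  have hPN : ∀ s ⊆ PN N, ∀ p ∈ s, p.Prime := fun s hs p hp => ((mem_PN N p).1 (hs hp)).2
  refine ⟨Fc z Q h N c, fun s _ => Fc_dep z Q h N c s, fun s hs p hp b =>
    Fc_zero z Q h N c s p hp (hPN s hs p hp).pos b, fun s hs hs0 => ?_, Fc_sum hz Q h N c,
    Fc_empty z Q h N c⟩
  have hB : 0 ≤ B := (hc0 0).trans (hcB 0 (Nat.zero_le _))
  set G : Finset ℕ → (ℕ → ℕ) → ℝ := fun t b => ∑ n ∈ range (N + 1 - h),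
      fw z Q h c s t n * (∏ p ∈ PN N \ s, mf z Q h n p) *
        ∏ p ∈ s, uu p (n + if p ∈ t then 0 else h) (b p) with hG
  have h1 : ∀ b, Fc z Q h N c s b ^ 2 ≤ 2 ^ s.card * ∑ t ∈ s.powerset, G t b ^ 2 := by
    intro b
    rw [Fc_expand, mul_pow, ← pow_mul, mul_comm s.card 2, pow_mul, neg_one_sq, one_pow, one_mul]
    have := sq_sum_le_card_mul_sum_sq (s := s.powerset) (f := fun t => G t b)
    rw [card_powerset] at this
    push_cast at this
    exact this
  have h2 : ∀ t, ∑ b ∈ Pt s, G t b ^ 2 ≤ 9 * B ^ 2 * (N + 1) * (3 / 2 : ℝ) ^ s.card := by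
    intro t
    have h3 := hBV s (hPN s hs) hs0 (N + 1 - h) B (fw z Q h c s t)
      (fun n => ∏ p ∈ PN N \ s, mf z Q h n p) (fun p => if p ∈ t then 0 else h)
      (fw_mono hz Q h c hc hc0 s t) (fw_nonneg z Q h c hc0 s t)
      (fun n hn => by
        unfold fw
        split_ifs
        · calc c n * ((∏ p ∈ t, al z Q h n p) * ∏ p ∈ s \ t, be z Q h n p) ≤ c n * 1 :=
              mul_le_mul_of_nonneg_left (prods_le_one _ _ _ _ _ _) (hc0 n)
            _ ≤ B := by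
              rw [mul_one]
              exact hcB n (by omega)
        · exact hB)
      (fun n n' hn => prod_le_prod
        (fun p hp => mf_nonneg z Q h n' ((mem_PN N p).1 (sdiff_subset hp)).2)
        (fun p _ => mf_anti hz Q h p hn))
      (fun n => prod_nonneg fun p hp => mf_nonneg z Q h n ((mem_PN N p).1 (sdiff_subset hp)).2)
      (fun n => prod_le_one (fun p hp => mf_nonneg z Q h n ((mem_PN N p).1 (sdiff_subset hp)).2)
        (fun p _ => mf_le_one z Q h n p))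
    refine h3.trans ?_
    have h4 : ((N + 1 - h : ℕ) : ℝ) ≤ N + 1 := by
      have : N + 1 - h ≤ N + 1 := Nat.sub_le _ _
      exact_mod_cast this
    gcongr
  calc ∑ b ∈ Pt s, Fc z Q h N c s b ^ 2
      ≤ ∑ b ∈ Pt s, 2 ^ s.card * ∑ t ∈ s.powerset, G t b ^ 2 := sum_le_sum fun b _ => h1 b
    _ = 2 ^ s.card * ∑ t ∈ s.powerset, ∑ b ∈ Pt s, G t b ^ 2 := by
        rw [← mul_sum, sum_comm]
    _ ≤ 2 ^ s.card * ∑ t ∈ s.powerset, 9 * B ^ 2 * (N + 1) * (3 / 2 : ℝ) ^ s.card := by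
        apply mul_le_mul_of_nonneg_left _ (by positivity)
        exact sum_le_sum fun t _ => h2 t
    _ = 9 * B ^ 2 * (N + 1) * 6 ^ s.card := by
        rw [sum_const, card_powerset, nsmul_eq_mul]
        push_cast
        have : (6 : ℝ) ^ s.card = 2 ^ s.card * (2 ^ s.card * (3 / 2) ^ s.card) := by
          rw [← mul_pow, ← mul_pow]
          norm_num
        rw [this]
        ring

end Pool.Agent.T2H31.HV
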