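import Pool.Agent.T2H31.HV.T_L2

set_option autoImplicit false

/-!
# Package BV: weights and shifts
-/

open Finset

namespace Pool.Agent.T2H31.HV

namespace BV

/-- weighted Cauchy-Schwarz -/
theorem wcs (T : Finset ℕ) (w S : ℕ → ℝ) :
    (∑ j ∈ T, w j * S j) ^ 2 ≤ (∑ j ∈ T, |w j|) * ∑ j ∈ T, |w j| * S j ^ 2 := by
  have h1 : (∑ j ∈ T, w j * S j) ^ 2 ≤ (∑ j ∈ T, √|w j| * (√|w j| * |S j|)) ^ 2 := by
    rw [← sq_abs]
    refine pow_le_pow_left₀ (abs_nonneg _) ?_ 2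
    refine (abs_sum_le_sum_abs _ _).trans (sum_le_sum fun j _ => ?_)
    rw [abs_mul, ← mul_assoc, Real.mul_self_sqrt (abs_nonneg _)]
  refine h1.trans ((sum_mul_sq_le_sq_mul_sq T (fun j => √|w j|) fun j => √|w j| * |S j|).trans (le_of_eq ?_))
  congr 1
  · exact sum_congr rfl fun j _ => Real.sq_sqrt (abs_nonneg _)
  · refine sum_congr rfl fun j _ => ?_
    rw [mul_pow, Real.sq_sqrt (abs_nonneg _), sq_abs]

theorem parts (m : ℕ) (c W : ℕ → ℝ) :
    ∑ n ∈ range (m + 1), c n * W n =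
      ∑ j ∈ range (m + 1), (if j = m then c m else -(c (j + 1) - c j)) * ∑ n ∈ range (j + 1), W n := by
  have h := sum_range_by_parts c W (m + 1)
  simp only [smul_eq_mul, Nat.add_sub_cancel] at h
  rw [h, sum_range_succ (fun j => (if j = m then c m else -(c (j + 1) - c j)) * ∑ n ∈ range (j + 1), W n),
    if_pos rfl, add_comm, sub_eq_add_neg, ← sum_neg_distrib, add_comm]
  congr 1
  refine sum_congr rfl fun j hj => ?_
  rw [if_neg (mem_range.1 hj).ne]
  ring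

theorem weights (m : ℕ) (B : ℝ) (f g : ℕ → ℝ) (hf : Monotone f) (hf0 : ∀ n, 0 ≤ f n)
    (hfB : ∀ n < m + 1, f n ≤ B) (hg : Antitone g) (hg0 : ∀ n, 0 ≤ g n) (hg1 : ∀ n, g n ≤ 1) :
    ∑ j ∈ range (m + 1), |if j = m then f m * g m else -(f (j + 1) * g (j + 1) - f j * g j)| ≤ 3 * B := by
  have hB : 0 ≤ B := (hf0 m).trans (hfB m (Nat.lt_succ_self m))
  rw [sum_range_succ, if_pos rfl]
  have h1 : |f m * g m| ≤ B := by
    rw [abs_of_nonneg (mul_nonneg (hf0 _) (hg0 _))]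
    calc f m * g m ≤ B * 1 := mul_le_mul (hfB m (Nat.lt_succ_self m)) (hg1 m) (hg0 m) hB
      _ = B := mul_one B
  have h2 : ∀ j ∈ range m, |if j = m then f m * g m else -(f (j + 1) * g (j + 1) - f j * g j)| ≤
      (f (j + 1) - f j) + B * (g j - g (j + 1)) := by
    intro j hj
    rw [if_neg (mem_range.1 hj).ne, abs_neg]
    have e : f (j + 1) * g (j + 1) - f j * g j = (f (j + 1) - f j) * g (j + 1) + f j * (g (j + 1) - g j) := by ring
    rw [e]
    refine (abs_add_le _ _).trans (add_le_add ?_ ?_)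
    · have h3 : 0 ≤ f (j + 1) - f j := sub_nonneg.2 (hf (Nat.le_succ j))
      rw [abs_of_nonneg (mul_nonneg h3 (hg0 _))]
      exact mul_le_of_le_one_right h3 (hg1 _)
    · have h3 : g (j + 1) - g j ≤ 0 := sub_nonpos.2 (hg (Nat.le_succ j))
      rw [abs_mul, abs_of_nonneg (hf0 j), abs_of_nonpos h3, neg_sub]
      exact mul_le_mul_of_nonneg_right (hfB j (by have := mem_range.1 hj; omega)) (by linarith)
  have h4 : ∑ j ∈ range m, ((f (j + 1) - f j) + B * (g j - g (j + 1))) = (f m - f 0) + B * (g 0 - g m) := by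
    rw [sum_add_distrib, sum_range_sub f m, ← mul_sum, sum_range_sub' g m]
  have h5 := sum_le_sum h2
  rw [h4] at h5
  have h6 : f m - f 0 ≤ B := by
    have := hf0 0
    have := hfB m (Nat.lt_succ_self m)
    linarith
  have h7 : B * (g 0 - g m) ≤ B := by
    have : g 0 - g m ≤ 1 := by
      have := hg0 m
      have := hg1 0
      linarith
    calc B * (g 0 - g m) ≤ B * 1 := mul_le_mul_of_nonneg_left this hB
      _ = B := mul_one B
  linarith

end BV

/-- **BV** -/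
theorem T_BV : P_BV := by
  intro s hs hne M B f g τ hf hf0 hfB hg hg0 hg1
  rcases M with _ | m
  · simp
  have hB : 0 ≤ B := (hf0 m).trans (hfB m (Nat.lt_succ_self m))
  set w : ℕ → ℝ := fun j => if j = m then f m * g m else -(f (j + 1) * g (j + 1) - f j * g j) with hw
  set S : (ℕ → ℕ) → ℕ → ℝ := fun b j => ∑ n ∈ range (j + 1), ∏ p ∈ s, uu p (n + τ p) (b p) with hS
  have hwB : ∑ j ∈ range (m + 1), |w j| ≤ 3 * B := BV.weights m B f g hf hf0 hfB hg hg0 hg1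
  have hw0 : 0 ≤ ∑ j ∈ range (m + 1), |w j| := sum_nonneg fun _ _ => abs_nonneg _
  have h1 : ∀ b ∈ Pt s, (∑ n ∈ range (m + 1), f n * g n * ∏ p ∈ s, uu p (n + τ p) (b p)) ^ 2 ≤
      (3 * B) * ∑ j ∈ range (m + 1), |w j| * S b j ^ 2 := by
    intro b _
    have h2 := BV.parts m (fun n => f n * g n) fun n => ∏ p ∈ s, uu p (n + τ p) (b p)
    rw [h2]
    refine (BV.wcs (range (m + 1)) w (S b)).trans ?_
    exact mul_le_mul_of_nonneg_right hwB (sum_nonneg fun j _ => mul_nonneg (abs_nonneg _) (sq_nonneg _))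
  refine (sum_le_sum h1).trans ?_
  rw [← mul_sum, sum_comm]
  have h3 : ∑ j ∈ range (m + 1), ∑ b ∈ Pt s, |w j| * S b j ^ 2 ≤
      ∑ j ∈ range (m + 1), |w j| * (((m + 1 : ℕ) : ℝ) * (3 / 2 : ℝ) ^ s.card) := by
    refine sum_le_sum fun j hj => ?_
    rw [← mul_sum]
    refine mul_le_mul_of_nonneg_left ?_ (abs_nonneg _)
    refine (L2.general s hs hne τ (j + 1)).trans ?_
    refine mul_le_mul_of_nonneg_right ?_ (by positivity)
    have := mem_range.1 hj
    exact_mod_cast (by omega : j + 1 ≤ m + 1)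
  rw [← sum_mul] at h3
  have h4 : 0 ≤ ((m + 1 : ℕ) : ℝ) * (3 / 2 : ℝ) ^ s.card := by positivity
  calc (3 * B) * ∑ j ∈ range (m + 1), ∑ b ∈ Pt s, |w j| * S b j ^ 2
      ≤ (3 * B) * ((∑ j ∈ range (m + 1), |w j|) * (((m + 1 : ℕ) : ℝ) * (3 / 2 : ℝ) ^ s.card)) :=
        mul_le_mul_of_nonneg_left h3 (by linarith)
    _ ≤ (3 * B) * ((3 * B) * (((m + 1 : ℕ) : ℝ) * (3 / 2 : ℝ) ^ s.card)) :=
        mul_le_mul_of_nonneg_left (mul_le_mul_of_nonneg_right hwB h4) (by linarith)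
    _ = 9 * B ^ 2 * ((m + 1 : ℕ) : ℝ) * (3 / 2 : ℝ) ^ s.card := by ring

end Pool.Agent.T2H31.HV
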