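import Pool.Agent.T2H31.HV.T_D2

set_option autoImplicit false

/-!
# Package D1: the singular series as a divisor sum
-/

open Finset

namespace Pool.Agent.T2H31.HV

/-- `gd` at a product of primes, second form -/
theorem gd_prod' (N Q : ℕ) (t : Finset ℕ) (ht : t ⊆ PQ N Q) :
    gd N Q (∏ p ∈ t, p) =
      (∏ p ∈ t, (p : ℝ) / ((p : ℝ) - 1) ^ 2) * ∏ p ∈ PQ N Q \ t, (1 - 1 / ((p : ℝ) - 1) ^ 2) := by
  have hp := PQ_prime N Q t ht
  have h := gd_prod N Q t ht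
  have h1 : ((∏ p ∈ t, p : ℕ) : ℝ) ≠ 0 := by
    have : 0 < ∏ p ∈ t, p := Finset.prod_pos fun q hq => (hp q hq).pos
    exact_mod_cast this.ne'
  rw [div_eq_iff h1] at h
  rw [h]
  have h2 : (∏ p ∈ t, (p : ℝ) / ((p : ℝ) - 1) ^ 2) =
      (∏ p ∈ t, 1 / ((p : ℝ) - 1) ^ 2) * ((∏ p ∈ t, p : ℕ) : ℝ) := by
    rw [Nat.cast_prod, ← prod_mul_distrib]
    refine prod_congr rfl fun p _ => by ring
  rw [h2]
  ring

theorem T_D1 : P_D1 := by
  intro N Q j _ hj hjN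
  unfold Sg
  congr 1
  have hloc : ∀ p ∈ PQ N Q, (if p ∣ j then (p : ℝ) / (p - 1) else 1 - 1 / ((p : ℝ) - 1) ^ 2) =
      (if p ∣ j then (p : ℝ) / ((p : ℝ) - 1) ^ 2 else 0) + (1 - 1 / ((p : ℝ) - 1) ^ 2) := by
    intro p hp
    have hpp := ((mem_PQ N Q p).1 hp).1.2
    have h2 : (2 : ℝ) ≤ p := by exact_mod_cast hpp.two_le
    have h3 : (p : ℝ) - 1 ≠ 0 := by linarith
    split_ifs with h
    · field_simp
      ring
    · ring
  rw [prod_congr rfl hloc, prod_add]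
  have hfil : (SF Q N).filter (fun d => d ∣ j) = (DD N Q).filter (fun d => d ∣ j) := by
    ext d
    rw [mem_filter, mem_filter, mem_SF, mem_DD]
    constructor
    · rintro ⟨⟨⟨h1, h2⟩, h3, h4⟩, h5⟩
      refine ⟨⟨h3, fun p hp hpd => ⟨(Nat.le_of_dvd (by omega) hpd).trans h2, fun hpQ => ?_⟩⟩, h5⟩
      exact Nat.Prime.not_dvd_one hp (h4 ▸ Nat.dvd_gcd hpd hpQ)
    · rintro ⟨⟨h1, h2⟩, h3⟩
      exact ⟨⟨⟨Nat.pos_of_ne_zero h1.ne_zero, (Nat.le_of_dvd (by omega) h3).trans hjN⟩, h1,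
        Nat.coprime_of_dvd fun p hp hpd => (h2 p hp hpd).2⟩, h3⟩
  rw [hfil, sum_filter, DD_sum]
  refine sum_congr rfl fun t ht => ?_
  rw [mem_powerset] at ht
  have hp := PQ_prime N Q t ht
  by_cases h : ∏ p ∈ t, p ∣ j
  · rw [if_pos h, gd_prod' N Q t ht]
    congr 1
    refine prod_congr rfl fun p hpt => ?_
    rw [if_pos ((dvd_prod_of_mem (fun p : ℕ => p) hpt).trans h)]
  · rw [if_neg h]
    have h1 : ∃ p ∈ t, ¬ p ∣ j := by
      by_contra h2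
      push Not at h2
      apply h
      refine Finset.prod_primes_dvd _ (fun p hpt => (hp p hpt).prime) h2
    obtain ⟨p, hpt, hpj⟩ := h1
    rw [prod_eq_zero hpt (by rw [if_neg hpj]), zero_mul]

end Pool.Agent.T2H31.HV
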