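import Pool.Agent.T2H31.HV.T_D2

set_option autoImplicit false

/-!
# Package D3: comparison of the divisor coefficients with the Selberg sum
-/

open Finset ArithmeticFunction

namespace Pool.Agent.T2H31.HV

/-- `μ(m) / φ(m)²` -/
noncomputable def hm (m : ℕ) : ℝ := ((moebius m : ℤ) : ℝ) / (Nat.totient m : ℝ) ^ 2

/-- `d / φ(d)²` -/
noncomputable def gm (d : ℕ) : ℝ := (d : ℝ) / (Nat.totient d : ℝ) ^ 2

theorem hm_abs_le (m : ℕ) : |hm m| ≤ 1 / (Nat.totient m : ℝ) ^ 2 := by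
  unfold hm
  rw [abs_div, abs_of_nonneg (by positivity : (0 : ℝ) ≤ (Nat.totient m : ℝ) ^ 2)]
  gcongr
  rw [← Int.cast_abs]
  exact_mod_cast abs_moebius_le_one

theorem hm_prod (t : Finset ℕ) (ht : ∀ p ∈ t, p.Prime) :
    hm (∏ p ∈ t, p) = ∏ p ∈ t, (-(1 / ((p : ℝ) - 1) ^ 2)) := by
  unfold hm
  rw [IsMultiplicative.map_prod_of_prime isMultiplicative_moebius t ht, totient_prod_primes t ht]
  rw [prod_congr rfl fun p hp => moebius_apply_prime (ht p hp)]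
  rw [← prod_pow, Int.cast_prod, ← prod_div_distrib]
  refine prod_congr rfl fun p _ => ?_
  push_cast
  ring

/-- the product over the primes not dividing `Q` as a Möbius sum -/
theorem prod_eq_sum (N Q : ℕ) :
    ∏ p ∈ PQ N Q, (1 - 1 / ((p : ℝ) - 1) ^ 2) = ∑ m ∈ DD N Q, hm m := by
  rw [DD_sum]
  rw [sum_congr rfl fun t ht => hm_prod t (PQ_prime N Q t (mem_powerset.1 ht))]
  have h : ∀ p ∈ PQ N Q, (1 - 1 / ((p : ℝ) - 1) ^ 2) = -(1 / ((p : ℝ) - 1) ^ 2) + 1 := fun p _ => by ring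
  rw [prod_congr rfl h, prod_add]
  refine sum_congr rfl fun t _ => ?_
  rw [prod_const_one, mul_one]

theorem PQ_filter (N Q d : ℕ) : (PQ N Q).filter (fun p => ¬ p ∣ d) = PQ N (Q * d) := by
  ext p
  rw [mem_filter, mem_PQ, mem_PQ]
  constructor
  · rintro ⟨⟨⟨h1, h2⟩, h3⟩, h4⟩
    exact ⟨⟨h1, h2⟩, fun h => ((Nat.Prime.dvd_mul h2).1 h).elim h3 h4⟩
  · rintro ⟨⟨h1, h2⟩, h3⟩
    exact ⟨⟨⟨h1, h2⟩, fun h => h3 (h.mul_right d)⟩, fun h => h3 (h.mul_left Q)⟩

theorem gd_eq (N Q d : ℕ) : gd N Q d = gm d * ∑ m ∈ DD N (Q * d), hm m := by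
  unfold gd gm
  rw [PQ_filter, prod_eq_sum]

/-- the pairs -/
def PP (Q K : ℕ) : Finset (ℕ × ℕ) :=
  (SF Q K ×ˢ SF Q K).filter fun x => Nat.Coprime x.1 x.2 ∧ x.1 * x.2 ≤ K

theorem PP_fiber (Q K r : ℕ) (hr : r ∈ SF Q K) :
    (PP Q K).filter (fun x => x.1 * x.2 = r) = r.divisorsAntidiagonal := by
  rw [mem_SF] at hr
  obtain ⟨⟨h1, h2⟩, h3, h4⟩ := hr
  ext ⟨m, d⟩
  unfold PP
  rw [mem_filter, mem_filter, mem_product, mem_SF, mem_SF, Nat.mem_divisorsAntidiagonal]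
  constructor
  · rintro ⟨_, h⟩
    exact ⟨h, by omega⟩
  · rintro ⟨h, _⟩
    simp only at h
    subst h
    have hm0 : 0 < m := Nat.pos_of_ne_zero (by rintro rfl; simp at h1)
    have hd0 : 0 < d := Nat.pos_of_ne_zero (by rintro rfl; simp at h1)
    have h5 := Nat.squarefree_mul_iff.1 h3
    refine ⟨⟨⟨⟨⟨hm0, le_trans (Nat.le_mul_of_pos_right m hd0) h2⟩, h5.2.1,
      Nat.Coprime.coprime_mul_right h4⟩, ⟨⟨hd0, le_trans (Nat.le_mul_of_pos_left d hm0) h2⟩, h5.2.2,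
      Nat.Coprime.coprime_mul_left h4⟩⟩, h5.1, h2⟩, rfl⟩

theorem inv_totient_eq (r : ℕ) (hr : Squarefree r) :
    1 / (Nat.totient r : ℝ) = ∑ x ∈ r.divisorsAntidiagonal, gm x.2 * hm x.1 := by
  have hr0 : 0 < r := Nat.pos_of_ne_zero hr.ne_zero
  have h1 : ∀ n : ℕ, n > 0 → ∑ i ∈ n.divisors, ((Nat.totient i : ℕ) : ℝ) = (n : ℝ) := by
    intro n _
    exact_mod_cast Nat.sum_totient n
  have h2 := (sum_eq_iff_sum_mul_moebius_eq (R := ℝ) (f := fun i => (Nat.totient i : ℝ))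
    (g := fun n => (n : ℝ))).1 h1 r hr0
  have h3 : (0 : ℝ) < (Nat.totient r : ℝ) := by exact_mod_cast Nat.totient_pos.2 hr0
  have h4 : ∀ x ∈ r.divisorsAntidiagonal, gm x.2 * hm x.1 =
      ((moebius x.1 : ℤ) : ℝ) * (x.2 : ℝ) * (1 / (Nat.totient r : ℝ) ^ 2) := by
    intro x hx
    rw [Nat.mem_divisorsAntidiagonal] at hx
    have h5 := Nat.squarefree_mul_iff.1 (hx.1 ▸ hr)
    unfold gm hm
    rw [← hx.1, Nat.totient_mul h5.1]
    push_cast
    rw [mul_pow, div_mul_div_comm, mul_one_div]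
    congr 1
    · ring
    · ring
  rw [sum_congr rfl h4, ← sum_mul, h2]
  field_simp

theorem SQ_eq (Q K : ℕ) :
    SQ Q K = ∑ d ∈ SF Q K, gm d * ∑ m ∈ (SF Q K).filter (fun m => Nat.Coprime m d ∧ m * d ≤ K), hm m := by
  unfold SQ
  have h1 : ∀ r ∈ SF Q K, 1 / (Nat.totient r : ℝ) =
      ∑ x ∈ (PP Q K).filter (fun x => x.1 * x.2 = r), gm x.2 * hm x.1 := by
    intro r hr
    rw [PP_fiber Q K r hr, inv_totient_eq r ((mem_SF Q K r).1 hr).2.1]
  rw [sum_congr rfl h1, sum_fiberwise_of_maps_to]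
  · unfold PP
    rw [sum_filter, sum_product_right]
    refine sum_congr rfl fun d _ => ?_
    rw [mul_sum, sum_filter]
  · intro x hx
    unfold PP at hx
    rw [mem_filter, mem_product, mem_SF, mem_SF] at hx
    obtain ⟨⟨⟨⟨h2, _⟩, h3, h4⟩, ⟨h5, _⟩, h6, h7⟩, h8, h9⟩ := hx
    rw [mem_SF]
    exact ⟨⟨Nat.mul_pos h2 h5, h9⟩, (Nat.squarefree_mul h8).2 ⟨h3, h6⟩, Nat.Coprime.mul_left h4 h7⟩

theorem T_D3 : P_D3 := by
  obtain ⟨C1, hC1, hT⟩ := T_tail
  obtain ⟨C2, hC2, hM⟩ := ratio_sq_moment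
  refine ⟨2 * C1 * C2, by positivity, fun N Q K _ hK hKN => ?_⟩
  have hK0 : (0 : ℝ) < K := by exact_mod_cast hK
  rw [SQ_eq, ← sum_sub_distrib]
  calc |∑ d ∈ SF Q K, (gd N Q d - gm d *
        ∑ m ∈ (SF Q K).filter (fun m => Nat.Coprime m d ∧ m * d ≤ K), hm m)|
      ≤ ∑ d ∈ SF Q K, |gd N Q d - gm d *
        ∑ m ∈ (SF Q K).filter (fun m => Nat.Coprime m d ∧ m * d ≤ K), hm m| := abs_sum_le_sum_abs _ _
    _ ≤ ∑ d ∈ SF Q K, (2 * C1 / K) * ((d : ℝ) / (Nat.totient d : ℝ)) ^ 2 := by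
        refine sum_le_sum fun d hd => ?_
        have hd' := (mem_SF Q K d).1 hd
        obtain ⟨⟨hd1, hdK⟩, hd2, hd3⟩ := hd'
        have hd0 : (0 : ℝ) < d := by exact_mod_cast hd1
        have hphi : (0 : ℝ) < (Nat.totient d : ℝ) := by exact_mod_cast Nat.totient_pos.2 hd1
        have hsub : (SF Q K).filter (fun m => Nat.Coprime m d ∧ m * d ≤ K) ⊆ DD N (Q * d) := by
          intro m hm
          rw [mem_filter, mem_SF] at hm
          obtain ⟨⟨⟨h1, h2⟩, h3, h4⟩, h5, h6⟩ := hm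
          rw [mem_DD]
          refine ⟨h3, fun p hp hpm => ⟨(Nat.le_of_dvd (by omega) hpm).trans (h2.trans hKN), fun h => ?_⟩⟩
          rcases (Nat.Prime.dvd_mul hp).1 h with h | h
          · exact Nat.Prime.not_dvd_one hp (h4 ▸ Nat.dvd_gcd hpm h)
          · exact Nat.Prime.not_dvd_one hp (h5 ▸ Nat.dvd_gcd hpm h)
        have hgt : ∀ m ∈ DD N (Q * d) \ (SF Q K).filter (fun m => Nat.Coprime m d ∧ m * d ≤ K),
            K / d < m := by
          intro m hm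
          rw [mem_sdiff, mem_DD, mem_filter, mem_SF] at hm
          obtain ⟨⟨h1, h2⟩, h3⟩ := hm
          by_contra h4
          push Not at h4
          apply h3
          have h5 : m * d ≤ K := (Nat.le_div_iff_mul_le hd1).1 h4
          have h6 : m ≤ K := h4.trans (Nat.div_le_self K d)
          refine ⟨⟨⟨Nat.pos_of_ne_zero h1.ne_zero, h6⟩, h1, ?_⟩, ?_, h5⟩
          · exact Nat.coprime_of_dvd fun p hp hpd hpQ => (h2 p hp hpd).2 (hpQ.mul_right d)
          · exact Nat.coprime_of_dvd fun p hp hpd hpQ => (h2 p hp hpd).2 (hpQ.mul_left Q)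
        have hKd : 1 ≤ K / d := (Nat.one_le_div_iff hd1).2 hdK
        have h7 := hT _ (K / d) hKd hgt
        rw [gd_eq, ← mul_sub, ← sum_sdiff hsub, add_sub_cancel_right, abs_mul]
        have hg : |gm d| = (d : ℝ) / (Nat.totient d : ℝ) ^ 2 := by
          unfold gm
          exact abs_of_nonneg (by positivity)
        rw [hg]
        have h8 : |∑ m ∈ DD N (Q * d) \ (SF Q K).filter (fun m => Nat.Coprime m d ∧ m * d ≤ K), hm m| ≤
            C1 / ((K / d : ℕ) : ℝ) :=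
          (abs_sum_le_sum_abs _ _).trans ((sum_le_sum fun m _ => hm_abs_le m).trans h7)
        have h9 : C1 / ((K / d : ℕ) : ℝ) ≤ 2 * C1 * d / K := by
          have h10 : (0 : ℝ) < ((K / d : ℕ) : ℝ) := by exact_mod_cast hKd
          rw [div_le_div_iff₀ h10 hK0]
          have h11 : K < (K / d + 1) * d := by
            have := Nat.lt_div_mul_add (a := K) hd1
            linarith
          have h12 : (K / d + 1) * d ≤ 2 * (K / d) * d := Nat.mul_le_mul_right _ (by omega)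
          have h13 : (K : ℝ) ≤ 2 * ((K / d : ℕ) : ℝ) * d := by
            exact_mod_cast (h11.trans_le h12).le
          nlinarith
        calc (d : ℝ) / (Nat.totient d : ℝ) ^ 2 *
              |∑ m ∈ DD N (Q * d) \ (SF Q K).filter (fun m => Nat.Coprime m d ∧ m * d ≤ K), hm m|
            ≤ (d : ℝ) / (Nat.totient d : ℝ) ^ 2 * (2 * C1 * d / K) := by
              gcongr
              exact h8.trans h9
          _ = (2 * C1 / K) * ((d : ℝ) / (Nat.totient d : ℝ)) ^ 2 := by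
              field_simp
    _ ≤ ∑ d ∈ Icc 1 K, (2 * C1 / K) * ((d : ℝ) / (Nat.totient d : ℝ)) ^ 2 := by
        refine sum_le_sum_of_subset_of_nonneg ?_ fun _ _ _ => by positivity
        intro d hd
        exact mem_Icc.2 ((mem_SF Q K d).1 hd).1
    _ = (2 * C1 / K) * ∑ d ∈ Icc 1 K, ((d : ℝ) / (Nat.totient d : ℝ)) ^ 2 := by rw [mul_sum]
    _ ≤ (2 * C1 / K) * (C2 * K) := by
        gcongr
        exact hM K
    _ = 2 * C1 * C2 := by field_simp

end Pool.Agent.T2H31.HV
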