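import Pool.Agent.T2H31.HV.Stm
import Pool.Agent.H336R2.V.TotLog

set_option autoImplicit false

/-!
# Package D4: van Lint–Richert, both sides
-/

open Finset Filter Topology

namespace Pool.Agent.T2H31.HV

lemma D4_SQ_nonneg (Q K : ℕ) : 0 ≤ SQ Q K := by
  unfold SQ
  exact sum_nonneg fun d _ => by positivity

lemma D4_SQ_mono (Q : ℕ) {K K' : ℕ} (h : K ≤ K') : SQ Q K ≤ SQ Q K' := by
  unfold SQ
  apply sum_le_sum_of_subset_of_nonneg
  · intro d hd
    simp only [SF, mem_filter, mem_Icc] at hd ⊢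
    exact ⟨⟨hd.1.1, hd.1.2.trans h⟩, hd.2⟩
  · intros; positivity

lemma D4_SQ_le (Q K : ℕ) : SQ Q K ≤ H343.LL 0 K := by
  unfold SQ H343.LL
  apply sum_le_sum_of_subset_of_nonneg
  · intro d hd
    simp only [SF, mem_filter, mem_Icc] at hd
    simp only [H343.Mod, mem_filter, mem_Ioc]
    exact ⟨⟨hd.1.1, hd.1.2⟩, hd.2.1⟩
  · intros; positivity

/-- splitting off the part composed of the primes of `Q` -/
lemma D4_split (Q x : ℕ) (hQ : 1 ≤ Q) :
    H343.LL 0 x = ∑ l ∈ Q.divisors.filter Squarefree, 1 / (Nat.totient l : ℝ) * SQ Q (x / l) := by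
  classical
  unfold SQ H343.LL
  simp_rw [mul_sum]
  rw [sum_sigma']
  symm
  apply sum_nbij' (fun a => a.1 * a.2) (fun r => ⟨Nat.gcd r Q, r / Nat.gcd r Q⟩)
  · rintro ⟨l, m⟩ h
    simp only [mem_sigma, mem_filter, Nat.mem_divisors, SF, mem_Icc] at h
    obtain ⟨⟨⟨h1, h2⟩, h3⟩, ⟨h4, h5⟩, h6, h7⟩ := h
    simp only [H343.Mod, mem_filter, mem_Ioc]
    have hl : 0 < l := Nat.pos_of_dvd_of_pos h1 (by omega)
    refine ⟨⟨Nat.mul_pos hl h4, ?_⟩, ?_⟩
    · calc l * m ≤ l * (x / l) := Nat.mul_le_mul_left _ h5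
        _ ≤ x := Nat.mul_div_le x l
    · have hc : Nat.Coprime l m := (Nat.Coprime.coprime_dvd_right h1 h7).symm
      exact (Nat.squarefree_mul hc).2 ⟨h3, h6⟩
  · intro r hr
    simp only [H343.Mod, mem_filter, mem_Ioc] at hr
    obtain ⟨⟨h1, h2⟩, h3⟩ := hr
    simp only [mem_sigma, mem_filter, Nat.mem_divisors, SF, mem_Icc]
    have hg : 0 < Nat.gcd r Q := Nat.gcd_pos_of_pos_left _ h1
    have hd : Nat.gcd r Q ∣ r := Nat.gcd_dvd_left _ _
    refine ⟨⟨⟨Nat.gcd_dvd_right _ _, by omega⟩, h3.squarefree_of_dvd hd⟩,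
      ⟨Nat.div_pos (Nat.le_of_dvd h1 hd) hg, Nat.div_le_div_right h2⟩,
      h3.squarefree_of_dvd (Nat.div_dvd_of_dvd hd), ?_⟩
    -- coprimality
    rw [Nat.coprime_iff_gcd_eq_one] 
    by_contra hne
    obtain ⟨p, hp, hpd⟩ := Nat.exists_prime_and_dvd hne
    have hp1 : p ∣ r / Nat.gcd r Q := hpd.trans (Nat.gcd_dvd_left _ _)
    have hp2 : p ∣ Q := hpd.trans (Nat.gcd_dvd_right _ _)
    have hp3 : p ∣ Nat.gcd r Q :=
      Nat.dvd_gcd (hp1.trans (Nat.div_dvd_of_dvd hd)) hp2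
    have hp4 : p * p ∣ r := by
      have := Nat.mul_dvd_mul hp3 hp1
      rwa [Nat.mul_div_cancel' hd] at this
    have := h3 p hp4
    exact hp.one_lt.ne' (Nat.isUnit_iff.1 this)
  · rintro ⟨l, m⟩ h
    simp only [mem_sigma, mem_filter, Nat.mem_divisors, SF, mem_Icc] at h
    obtain ⟨⟨⟨h1, h2⟩, h3⟩, ⟨h4, h5⟩, h6, h7⟩ := h
    have hl : 0 < l := Nat.pos_of_dvd_of_pos h1 (by omega)
    have hg : Nat.gcd (l * m) Q = l := by
      rw [Nat.Coprime.gcd_mul_right_cancel _ h7]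
      exact Nat.gcd_eq_left h1
    simp only [hg]
    rw [Nat.mul_div_cancel_left m hl]
  · intro r hr
    simp only
    exact Nat.mul_div_cancel' (Nat.gcd_dvd_left _ _)
  · rintro ⟨l, m⟩ h
    simp only [mem_sigma, mem_filter, Nat.mem_divisors, SF, mem_Icc] at h
    obtain ⟨⟨⟨h1, h2⟩, h3⟩, ⟨h4, h5⟩, h6, h7⟩ := h
    have hc : Nat.Coprime l m := (Nat.Coprime.coprime_dvd_right h1 h7).symm
    simp only
    rw [Nat.totient_mul hc]
    push_cast
    rw [one_div_mul_one_div]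

lemma D4_lower (Q K : ℕ) (hQ : 1 ≤ Q) (hK : 1 ≤ K) :
    Real.log K ≤ (Q : ℝ) / Nat.totient Q * SQ Q K := by
  refine (H343.PhiSum.totient_lower K hK).trans ?_
  rw [D4_split Q K hQ, H336V.TotLog.div_totient Q hQ, sum_mul]
  apply sum_le_sum
  intro l _
  apply mul_le_mul_of_nonneg_left (D4_SQ_mono Q (Nat.div_le_self _ _)) (by positivity)

/-- the upper bound with a parameter -/
lemma D4_upper (Q K T : ℕ) (hQ : 1 ≤ Q) (E : ℝ)
    (hE : ∑ l ∈ (Q.divisors.filter Squarefree).filter (fun l => ¬ l ≤ T), (1 : ℝ) / Nat.totient l ≤ E) :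
    (Q : ℝ) / Nat.totient Q * SQ Q K ≤ H343.LL 0 (K * T) + E * SQ Q K := by
  have h1 : ∑ l ∈ (Q.divisors.filter Squarefree).filter (fun l => l ≤ T),
      1 / (Nat.totient l : ℝ) * SQ Q K ≤ H343.LL 0 (K * T) := by
    rw [D4_split Q (K * T) hQ]
    refine (sum_le_sum ?_).trans (sum_le_sum_of_subset_of_nonneg (filter_subset _ _) ?_)
    · intro l hl
      simp only [mem_filter, Nat.mem_divisors] at hl
      have hl0 : 0 < l := Nat.pos_of_dvd_of_pos hl.1.1.1 (by omega)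
      apply mul_le_mul_of_nonneg_left _ (by positivity)
      apply D4_SQ_mono
      rw [Nat.le_div_iff_mul_le hl0]
      exact Nat.mul_le_mul_left _ hl.2
    · intro l _ _
      exact mul_nonneg (by positivity) (D4_SQ_nonneg _ _)
  rw [H336V.TotLog.div_totient Q hQ,
    ← sum_filter_add_sum_filter_not (Q.divisors.filter Squarefree) (fun l => l ≤ T), add_mul, sum_mul]
  have h2 := mul_le_mul_of_nonneg_right hE (D4_SQ_nonneg Q K)
  linarith

theorem T_D4 : P_D4 := by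
  intro δ hδ
  obtain ⟨C, hC, hup⟩ := H343.PhiSum.totient_upper
  obtain ⟨C1, hC1, hdiv⟩ := H343.div_bound (δ / 16) (by positivity)
  obtain ⟨c2, hc2, hphi⟩ := H343.phi_bound (1 / 2) (by norm_num)
  -- limits
  have hlogtop : Tendsto (fun N : ℕ => Real.log (N : ℝ)) atTop atTop :=
    Real.tendsto_log_atTop.comp tendsto_natCast_atTop_atTop
  have hl1 : ∀ᶠ N : ℕ in atTop, C ≤ δ / 4 * Real.log N := by
    filter_upwards [hlogtop.eventually_ge_atTop (C / (δ / 4))] with N hN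
    rw [div_le_iff₀ (by positivity)] at hN
    linarith
  have hl2 : ∀ᶠ N : ℕ in atTop, C1 / c2 * (N : ℝ) ^ (-(δ / 16)) * (1 + C) ≤ δ / 4 := by
    have h1 : Tendsto (fun N : ℕ => C1 / c2 * (N : ℝ) ^ (-(δ / 16)) * (1 + C)) atTop (𝓝 0) := by
      have h2 := (tendsto_rpow_neg_atTop (show 0 < δ / 16 by positivity)).comp
        (tendsto_natCast_atTop_atTop (R := ℝ))
      have h3 := (h2.const_mul (C1 / c2)).mul_const (1 + C)
      simpa using h3
    exact (h1.eventually (gt_mem_nhds (show (0 : ℝ) < δ / 4 by positivity))).mono fun N h => h.le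
  filter_upwards [hl1, hl2, hlogtop.eventually_ge_atTop 1, eventually_ge_atTop 1] with N h1 h2 h3 h4 Q K hQ hQN hK hKN
  have hN0 : (0 : ℝ) < N := by exact_mod_cast h4
  have hN1 : (1 : ℝ) ≤ N := by exact_mod_cast h4
  have hlow := D4_lower Q K hQ hK
  set T : ℕ := ⌊(N : ℝ) ^ (δ / 4)⌋₊ with hT
  have hNδ : 1 ≤ (N : ℝ) ^ (δ / 4) := Real.one_le_rpow hN1 (by positivity)
  have hT1 : 1 ≤ T := by
    rw [hT]; exact Nat.le_floor (by exact_mod_cast hNδ)
  have hTle : (T : ℝ) ≤ (N : ℝ) ^ (δ / 4) := Nat.floor_le (by positivity)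
  have hTlt : (N : ℝ) ^ (δ / 4) < T + 1 := Nat.lt_floor_add_one _
  have hE : ∑ l ∈ (Q.divisors.filter Squarefree).filter (fun l => ¬ l ≤ T), (1 : ℝ) / Nat.totient l ≤
      C1 / c2 * (N : ℝ) ^ (-(δ / 16)) := by
    have hterm : ∀ l ∈ (Q.divisors.filter Squarefree).filter (fun l => ¬ l ≤ T),
        (1 : ℝ) / Nat.totient l ≤ 1 / (c2 * (N : ℝ) ^ (δ / 8)) := by
      intro l hl
      simp only [mem_filter, Nat.mem_divisors, not_le] at hl
      have hlT : (N : ℝ) ^ (δ / 4) ≤ l := by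
        refine hTlt.le.trans ?_
        exact_mod_cast hl.2
      have hl1 : 1 ≤ l := by omega
      have h5 := hphi l hl1
      apply one_div_le_one_div_of_le (by positivity)
      refine le_trans ?_ h5
      have h6 : (N : ℝ) ^ (δ / 8) ≤ (l : ℝ) ^ (1 - 1 / 2 : ℝ) := by
        calc (N : ℝ) ^ (δ / 8) = ((N : ℝ) ^ (δ / 4)) ^ (1 - 1 / 2 : ℝ) := by
              rw [← Real.rpow_mul hN0.le]; congr 1; ring
          _ ≤ (l : ℝ) ^ (1 - 1 / 2 : ℝ) := by
              apply Real.rpow_le_rpow (by positivity) hlT (by norm_num)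
      gcongr
    refine (sum_le_sum hterm).trans ?_
    rw [sum_const, nsmul_eq_mul]
    have hcard : ((((Q.divisors.filter Squarefree).filter (fun l => ¬ l ≤ T)).card : ℕ) : ℝ) ≤
        C1 * (N : ℝ) ^ (δ / 16) := by
      refine le_trans ?_ ((hdiv Q hQ).trans ?_)
      · exact_mod_cast (card_filter_le _ _).trans (card_filter_le _ _)
      · have : (Q : ℝ) ≤ N := by exact_mod_cast hQN
        gcongr
    calc _ ≤ C1 * (N : ℝ) ^ (δ / 16) * (1 / (c2 * (N : ℝ) ^ (δ / 8))) := by gcongr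
      _ = C1 / c2 * (N : ℝ) ^ (-(δ / 16)) := by
        have e1 : (N : ℝ) ^ (δ / 8) = (N : ℝ) ^ (δ / 16) * (N : ℝ) ^ (δ / 16) := by
          rw [← Real.rpow_add hN0]; congr 1; ring
        have e2 : (0 : ℝ) < (N : ℝ) ^ (δ / 16) := by positivity
        rw [Real.rpow_neg hN0.le, e1]
        field_simp
  have hupp := D4_upper Q K T hQ _ hE
  have h5 : H343.LL 0 (K * T) ≤ Real.log K + δ / 4 * Real.log N + C := by
    refine (hup (K * T) (Nat.mul_pos hK hT1)).trans ?_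
    have hK0 : (K : ℝ) ≠ 0 := by positivity
    have hT0 : (T : ℝ) ≠ 0 := by positivity
    push_cast
    rw [Real.log_mul hK0 hT0]
    have h6 : Real.log T ≤ δ / 4 * Real.log N := by
      rw [← Real.log_rpow hN0]
      exact Real.log_le_log (by exact_mod_cast hT1) hTle
    linarith
  have h6 : SQ Q K ≤ (1 + C) * Real.log N := by
    refine (D4_SQ_le Q K).trans ((hup K hK).trans ?_)
    have h7 : Real.log K ≤ Real.log N :=
      Real.log_le_log (by exact_mod_cast hK) (by exact_mod_cast hKN)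
    nlinarith
  have h7 : C1 / c2 * (N : ℝ) ^ (-(δ / 16)) * SQ Q K ≤ δ / 4 * Real.log N := by
    calc C1 / c2 * (N : ℝ) ^ (-(δ / 16)) * SQ Q K
        ≤ C1 / c2 * (N : ℝ) ^ (-(δ / 16)) * ((1 + C) * Real.log N) := by gcongr
      _ = (C1 / c2 * (N : ℝ) ^ (-(δ / 16)) * (1 + C)) * Real.log N := by ring
      _ ≤ δ / 4 * Real.log N := by gcongr
  rw [abs_le]
  constructor
  · have : 0 ≤ δ * Real.log N := by positivity
    linarith
  · have : 0 ≤ δ * Real.log N := by positivity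
    linarith

end Pool.Agent.T2H31.HV
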