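import Pool.Agent.T2H31.HV.T_D2
import Pool.Agent.H336R2.V.TotLog

set_option autoImplicit false

/-!
# Package D5: the average of the singular series
-/

open Finset Filter

namespace Pool.Agent.T2H31.HV

theorem sum_multiples (K d : ℕ) (hd : 0 < d) (F : ℕ → ℝ) :
    ∑ j ∈ (Icc 1 K).filter (fun j => d ∣ j), F j = ∑ i ∈ Icc 1 (K / d), F (d * i) := by
  symm
  apply sum_nbij' (fun i => d * i) (fun j => j / d)
  · intro i hi
    rw [mem_Icc] at hi
    rw [mem_filter, mem_Icc]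
    refine ⟨⟨Nat.mul_pos hd hi.1, ?_⟩, dvd_mul_right d i⟩
    calc d * i ≤ d * (K / d) := Nat.mul_le_mul_left d hi.2
      _ ≤ K := Nat.mul_div_le K d
  · intro j hj
    rw [mem_filter, mem_Icc] at hj
    rw [mem_Icc]
    obtain ⟨⟨h1, h2⟩, h3⟩ := hj
    exact ⟨(Nat.one_le_div_iff hd).2 (Nat.le_of_dvd h1 h3), Nat.div_le_div_right h2⟩
  · intro i _
    exact Nat.mul_div_cancel_left i hd
  · intro j hj
    rw [mem_filter] at hj
    exact Nat.mul_div_cancel' hj.2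
  · intro i _
    rfl

theorem sum_exchange (Q N K : ℕ) (hKN : K ≤ N) (F g : ℕ → ℝ) :
    ∑ j ∈ Icc 1 K, F j * ∑ d ∈ (SF Q N).filter (fun d => d ∣ j), g d =
      ∑ d ∈ SF Q K, g d * ∑ i ∈ Icc 1 (K / d), F (d * i) := by
  have h1 : ∀ d ∈ SF Q K, g d * ∑ i ∈ Icc 1 (K / d), F (d * i) =
      ∑ j ∈ (Icc 1 K).filter (fun j => d ∣ j), F j * g d := by
    intro d hd
    rw [← sum_multiples K d ((mem_SF Q K d).1 hd).1.1 F, mul_sum]
    exact sum_congr rfl fun _ _ => mul_comm _ _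
  rw [sum_congr rfl h1, sum_congr rfl fun j _ => mul_sum _ _ _]
  apply sum_comm'
  intro j d
  rw [mem_Icc, mem_filter, mem_filter, mem_Icc, mem_SF, mem_SF]
  constructor
  · rintro ⟨⟨h1, h2⟩, ⟨⟨h3, h4⟩, h5, h6⟩, h7⟩
    exact ⟨⟨⟨h1, h2⟩, h7⟩, ⟨h3, (Nat.le_of_dvd h1 h7).trans h2⟩, h5, h6⟩
  · rintro ⟨⟨⟨h1, h2⟩, h7⟩, ⟨h3, h4⟩, h5, h6⟩
    exact ⟨⟨h1, h2⟩, ⟨⟨h3, h4.trans hKN⟩, h5, h6⟩, h7⟩

theorem sum_arith (n : ℕ) (a b : ℝ) : 2 * ∑ i ∈ Icc 1 n, (a - b * (i : ℝ)) = 2 * n * a - b * n * (n + 1) := by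
  induction n with
  | zero => simp
  | succ n ih =>
    rw [Finset.sum_Icc_succ_top (by omega), mul_add, ih]
    push_cast
    ring

/-- the inner sum: `2 ∑ (N - d i Q) = Q (H²/d - H + d e)` with `0 ≤ e ≤ 1/4` -/
theorem inner_sum (N Q d : ℕ) (hQ : 1 ≤ Q) (hd : 1 ≤ d) :
    ∃ e : ℝ, 0 ≤ e ∧ e ≤ 1 / 4 ∧ 2 * ∑ i ∈ Icc 1 (N / Q / d), ((N : ℝ) - ((d * i : ℕ) : ℝ) * Q) =
      Q * (((N : ℝ) / Q) ^ 2 / d - (N : ℝ) / Q + d * e) := by
  have hQ0 : (0 : ℝ) < Q := by exact_mod_cast hQ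
  have hd0 : (0 : ℝ) < d := by exact_mod_cast hd
  set n : ℕ := N / Q / d with hn
  set f : ℝ := (N : ℝ) / Q / d - n with hf
  have h1 : (n : ℝ) ≤ (N : ℝ) / Q / d := by
    rw [hn, Nat.div_div_eq_div_mul]
    refine Nat.cast_div_le.trans (le_of_eq ?_)
    push_cast
    rw [div_div]
  have h2 : (N : ℝ) / Q / d < n + 1 := by
    rw [hn, Nat.div_div_eq_div_mul, div_div, div_lt_iff₀ (by positivity)]
    have := Nat.lt_div_mul_add (a := N) (b := Q * d) (by positivity)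
    have h3 : N < (N / (Q * d) + 1) * (Q * d) := by linarith
    exact_mod_cast h3
  have hf0 : 0 ≤ f := by rw [hf]; linarith
  have hf1 : f ≤ 1 := by rw [hf]; linarith
  refine ⟨f * (1 - f), mul_nonneg hf0 (by linarith), by nlinarith [sq_nonneg (f - 1 / 2)], ?_⟩
  have h3 : ∀ i ∈ Icc 1 n, ((N : ℝ) - ((d * i : ℕ) : ℝ) * Q) = (N : ℝ) - (d * Q) * (i : ℝ) := by
    intro i _
    push_cast
    ring
  rw [sum_congr rfl h3, sum_arith]
  have h4 : (N : ℝ) = Q * d * (n + f) := by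
    rw [hf]
    field_simp
    ring
  rw [h4]
  field_simp
  ring

theorem T_D5 (h1 : P_D1) (h2 : P_D2) (h3 : P_D3) (h4 : P_D4) : P_D5 := by
  intro δ hδ
  obtain ⟨C2, hC2, h2⟩ := h2
  obtain ⟨C3, hC3, h3⟩ := h3
  obtain ⟨C4, hC4, hM⟩ := ratio_sq_moment
  set C5 : ℝ := 2 * C2 + C3 + C4 with hC5
  have hC5p : 0 < C5 := by positivity
  obtain ⟨C6, hC6, h6⟩ := H336V.TotLog.div_totient_le (δ / (4 * C5)) (by positivity)
  have hlog : Tendsto (fun N : ℕ => Real.log N) atTop atTop :=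
    Real.tendsto_log_atTop.comp tendsto_natCast_atTop_atTop
  filter_upwards [h4 (δ / 4) (by positivity), eventually_ge_atTop 1,
    hlog.eventually_ge_atTop ((C5 * C6 + 1) / (δ / 2))] with N hN4 hN1 hNlog
  intro Q hQ hQN
  have hN0 : (0 : ℝ) < N := by exact_mod_cast hN1
  have hQ0 : (0 : ℝ) < Q := by exact_mod_cast hQ
  set K : ℕ := N / Q with hK
  have hK1 : 1 ≤ K := (Nat.one_le_div_iff hQ).2 hQN
  have hKN : K ≤ N := Nat.div_le_self N Q
  have hK0 : (0 : ℝ) < K := by exact_mod_cast hK1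
  have hphi : (0 : ℝ) < (Nat.totient Q : ℝ) := by exact_mod_cast Nat.totient_pos.2 hQ
  set κ : ℝ := (Q : ℝ) / Nat.totient Q with hκ
  have hκ0 : 0 < κ := by positivity
  set H : ℝ := (N : ℝ) / Q with hH
  have hKH : (K : ℝ) ≤ H := by
    rw [hK, hH]
    exact Nat.cast_div_le
  have hHK : H ≤ 2 * K := by
    have h5 := Nat.lt_div_mul_add (a := N) (b := Q) (by omega)
    have h7 : N < (K + 1) * Q := by rw [hK]; linarith
    have h8 : (N : ℝ) < (K + 1) * Q := by exact_mod_cast h7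
    rw [hH, div_le_iff₀ hQ0]
    have h9 : (1 : ℝ) ≤ K := by exact_mod_cast hK1
    nlinarith
  have hH0 : 0 < H := by positivity
  -- the exact formula
  choose! e he0 he1 he2 using fun (d : ℕ) (hd : 1 ≤ d) => inner_sum N Q d hQ hd
  have hsum : 2 * ∑ j ∈ Icc 1 K, ((N : ℝ) - j * Q) * Sg N Q j =
      κ * Q * H ^ 2 * (∑ d ∈ SF Q K, gd N Q d / d) - κ * N * (∑ d ∈ SF Q K, gd N Q d) +
        κ * Q * ∑ d ∈ SF Q K, gd N Q d * (d * e d) := by
    have h7 : ∀ j ∈ Icc 1 K, ((N : ℝ) - j * Q) * Sg N Q j =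
        κ * (((N : ℝ) - j * Q) * ∑ d ∈ (SF Q N).filter (fun d => d ∣ j), gd N Q d) := by
      intro j hj
      rw [mem_Icc] at hj
      rw [h1 N Q j hQ hj.1 (hj.2.trans hKN)]
      ring
    rw [sum_congr rfl h7, ← mul_sum, sum_exchange Q N K hKN (fun j : ℕ => (N : ℝ) - j * Q) (fun d => gd N Q d)]
    have h8 : ∀ d ∈ SF Q K, gd N Q d * ∑ i ∈ Icc 1 (K / d), ((N : ℝ) - ((d * i : ℕ) : ℝ) * Q) =
        (1 / 2) * (Q * H ^ 2 * (gd N Q d / d) - N * gd N Q d + Q * (gd N Q d * (d * e d))) := by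
      intro d hd
      have hd1 := ((mem_SF Q K d).1 hd).1.1
      have h9 := he2 d hd1
      have h10 : ∑ i ∈ Icc 1 (K / d), ((N : ℝ) - ((d * i : ℕ) : ℝ) * Q) =
          (1 / 2) * (Q * (H ^ 2 / d - H + d * e d)) := by
        rw [← h9]
        ring
      have h11 : (Q : ℝ) * H = N := by
        rw [hH]
        field_simp
      rw [h10]
      linear_combination (-(1 / 2) * gd N Q d) * h11
    rw [sum_congr rfl h8, ← mul_sum, sum_add_distrib, sum_sub_distrib, ← mul_sum, ← mul_sum, ← mul_sum]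
    ring
  have hmain : κ * Q * H ^ 2 = (N : ℝ) ^ 2 / Nat.totient Q := by
    rw [hκ, hH]
    field_simp
  rw [hsum]
  -- the four errors
  obtain ⟨e1, e2⟩ := h2 N Q K hQ hK1 hKN
  have e3 := h3 N Q K hQ hK1 hKN
  have e4 := hN4 Q K hQ hQN hK1 hKN
  set A := ∑ d ∈ SF Q K, gd N Q d / d with hA
  set B := ∑ d ∈ SF Q K, gd N Q d with hB
  set D := ∑ d ∈ SF Q K, gd N Q d * (d * e d) with hD
  have b1 : |κ * Q * H ^ 2 * (1 - A)| ≤ 2 * C2 * (κ * N) := by
    rw [abs_of_nonneg (by positivity)]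
    calc κ * Q * H ^ 2 * (1 - A) ≤ κ * Q * H ^ 2 * (C2 / K) := by gcongr
      _ = C2 * κ * N * (H / K) := by
          rw [hH]
          field_simp
      _ ≤ C2 * κ * N * 2 := by
          gcongr
          rw [div_le_iff₀ hK0]
          exact hHK
      _ = 2 * C2 * (κ * N) := by ring
  have b2 : |κ * N * (B - SQ Q K)| ≤ C3 * (κ * N) := by
    rw [abs_mul, abs_of_pos (by positivity : 0 < κ * N)]
    calc κ * N * |B - SQ Q K| ≤ κ * N * C3 := by gcongr
      _ = C3 * (κ * N) := by ring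
  have b3 : |N * (κ * SQ Q K - Real.log K)| ≤ δ / 4 * N * Real.log N := by
    rw [abs_mul, abs_of_pos hN0]
    calc (N : ℝ) * |κ * SQ Q K - Real.log K| ≤ N * (δ / 4 * Real.log N) := by gcongr
      _ = δ / 4 * N * Real.log N := by ring
  have b4 : |N * (Real.log H - Real.log K)| ≤ N := by
    rw [abs_mul, abs_of_pos hN0]
    have h7 : 0 ≤ Real.log H - Real.log K := by
      rw [sub_nonneg]
      exact Real.log_le_log hK0 hKH
    have h8 : Real.log H - Real.log K ≤ 1 := by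
      have h9 : Real.log H ≤ Real.log (2 * K) := Real.log_le_log hH0 hHK
      rw [Real.log_mul (by norm_num) hK0.ne'] at h9
      have h10 : Real.log 2 ≤ 1 := by
        have := Real.log_two_lt_d9
        linarith
      linarith
    rw [abs_of_nonneg h7]
    nlinarith
  have b5 : |κ * Q * D| ≤ C4 * (κ * N) := by
    have h7 : 0 ≤ D := by
      rw [hD]
      refine sum_nonneg fun d hd => ?_
      have := he0 d ((mem_SF Q K d).1 hd).1.1
      exact mul_nonneg (gd_nonneg N Q d) (by positivity)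
    have h8 : D ≤ C4 * K := by
      calc D ≤ ∑ d ∈ SF Q K, ((d : ℝ) / (Nat.totient d : ℝ)) ^ 2 := by
            rw [hD]
            refine sum_le_sum fun d hd => ?_
            have hd1 := ((mem_SF Q K d).1 hd).1.1
            have h9 := he0 d hd1
            have h10 := he1 d hd1
            have h11 := gd_le N Q d
            calc gd N Q d * (d * e d) ≤ (d : ℝ) / (Nat.totient d : ℝ) ^ 2 * (d * 1) := by
                  gcongr
                  linarith
              _ = ((d : ℝ) / (Nat.totient d : ℝ)) ^ 2 := by ring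
        _ ≤ ∑ d ∈ Icc 1 K, ((d : ℝ) / (Nat.totient d : ℝ)) ^ 2 := by
            refine sum_le_sum_of_subset_of_nonneg ?_ fun _ _ _ => by positivity
            intro d hd
            exact mem_Icc.2 ((mem_SF Q K d).1 hd).1
        _ ≤ C4 * K := hM K
    rw [abs_of_nonneg (by positivity)]
    calc κ * Q * D ≤ κ * Q * (C4 * K) := by gcongr
      _ = C4 * κ * (Q * K) := by ring
      _ ≤ C4 * κ * N := by
          gcongr
          have h12 : Q * K ≤ N := Nat.mul_div_le N Q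
          exact_mod_cast h12
      _ = C4 * (κ * N) := by ring
  have htot : κ * Q * H ^ 2 * A - κ * N * B + κ * Q * D - (N : ℝ) ^ 2 / Nat.totient Q + N * Real.log H =
      -(κ * Q * H ^ 2 * (1 - A)) - κ * N * (B - SQ Q K) - N * (κ * SQ Q K - Real.log K) +
        N * (Real.log H - Real.log K) + κ * Q * D := by
    rw [← hmain]
    ring
  rw [htot]
  have b6 : κ ≤ C6 + δ / (4 * C5) * Real.log N := by
    refine (h6 Q hQ).trans ?_
    gcongr
  have b7 : C5 * (κ * N) ≤ C5 * C6 * N + δ / 4 * N * Real.log N := by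
    calc C5 * (κ * N) ≤ C5 * ((C6 + δ / (4 * C5) * Real.log N) * N) := by gcongr
      _ = C5 * C6 * N + δ / 4 * N * Real.log N := by
          field_simp
  have b8 : (C5 * C6 + 1) * N ≤ δ / 2 * N * Real.log N := by
    rw [div_le_iff₀ (by positivity)] at hNlog
    calc (C5 * C6 + 1) * N ≤ (Real.log N * (δ / 2)) * N := by gcongr
      _ = δ / 2 * N * Real.log N := by ring
  rw [abs_le] at b1 b2 b3 b4 b5 ⊢
  have b9 : C5 * (κ * N) = 2 * C2 * (κ * N) + C3 * (κ * N) + C4 * (κ * N) := by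
    rw [hC5]
    ring
  constructor
  · linarith [b1.1, b1.2, b2.1, b2.2, b3.1, b3.2, b4.1, b4.2, b5.1, b5.2]
  · linarith [b1.1, b1.2, b2.1, b2.2, b3.1, b3.2, b4.1, b4.2, b5.1, b5.2]

end Pool.Agent.T2H31.HV
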