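import Pool.Agent.T2H31.HV.T_E3

set_option autoImplicit false

/-! # E1: expected values of the first moments -/

open Finset MeasureTheory ProbabilityTheory Filter Topology

namespace Pool.Agent.T2H31.HV

namespace E1

open Pool.Agent.T2H32.BF RAT E3

theorem mf0 {z : ℕ → ℕ} {Q n p : ℕ} : mf z Q 0 n p =
    (if p ≤ z n then 1 - 1 / (p : ℝ) else 1) *
      (if p ∣ Q ∧ ¬ p ≤ z n then 1 - 1 / (p : ℝ) else 1) := by
  unfold mf al be
  by_cases h1 : p ≤ z n <;> by_cases h2 : p ∣ Q <;> simp [h1, h2]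

theorem rest {w Q N : ℕ} (hw : 1 ≤ w) (hQ : 1 ≤ Q) (hQN : Q ≤ N) :
    1 - 2 * Real.log N / w ≤ ∏ p ∈ PN N, (if p ∣ Q ∧ ¬ p ≤ w then 1 - 1 / (p : ℝ) else 1) := by
  have hw' : (1 : ℝ) ≤ w := by exact_mod_cast hw
  have h1 : (0 : ℝ) ≤ 1 - 1 / w := by
    rw [sub_nonneg, div_le_one (by linarith)]
    exact hw'
  rw [← prod_filter]
  set D := (PN N).filter fun p => p ∣ Q ∧ ¬ p ≤ w with hD
  have hDc : (D.card : ℝ) ≤ 2 * Real.log N := by
    refine le_trans ?_ (log_card hQ hQN)
    have : D ⊆ Q.primeFactors := by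
      intro p hp
      rw [hD, mem_filter, mem_PN] at hp
      exact Nat.mem_primeFactors.2 ⟨hp.1.2, hp.2.1, by omega⟩
    exact_mod_cast card_le_card this
  have h2 : (1 - 1 / (w : ℝ)) ^ D.card ≤ ∏ p ∈ D, (1 - 1 / (p : ℝ)) := by
    rw [← prod_const]
    apply Finset.prod_le_prod
    · intro p _
      exact h1
    · intro p hp
      rw [hD, mem_filter] at hp
      have hpw : (w : ℝ) ≤ p := by exact_mod_cast (by omega : w ≤ p)
      have : 1 / (p : ℝ) ≤ 1 / w := one_div_le_one_div_of_le (by linarith) hpw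
      linarith
  refine le_trans ?_ h2
  have h3 := one_add_mul_le_pow (a := -(1 / (w : ℝ))) (by linarith) D.card
  have h4 : 1 + -(1 / (w : ℝ)) = 1 - 1 / w := by ring
  rw [h4] at h3
  refine le_trans ?_ h3
  have h6 : (D.card : ℝ) * (1 / w) ≤ 2 * Real.log N * (1 / w) :=
    mul_le_mul_of_nonneg_right hDc (by positivity)
  have h5 : 2 * Real.log N / w = 2 * Real.log N * (1 / w) := by ring
  rw [h5]
  linarith

theorem rest_le {w Q N : ℕ} :
    ∏ p ∈ PN N, (if p ∣ Q ∧ ¬ p ≤ w then 1 - 1 / (p : ℝ) else 1) ≤ 1 := by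
  apply prod_le_one
  · intro p hp
    have hp2 : (2 : ℝ) ≤ p := by exact_mod_cast ((mem_PN N p).1 hp).2.two_le
    split_ifs
    · rw [sub_nonneg, div_le_one (by linarith)]
      linarith
    · norm_num
  · intro p hp
    split_ifs
    · have : (0 : ℝ) ≤ 1 / p := by positivity
      linarith
    · exact le_rfl

theorem sum_log (N : ℕ) : ∑ n ∈ range (N + 1), Real.log n = Real.log (N.factorial : ℝ) := by
  induction N with
  | zero => simp
  | succ N ih =>
    rw [sum_range_succ, ih, Nat.factorial_succ, Nat.cast_mul, Real.log_mul (by positivity)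
      (by exact_mod_cast N.factorial_ne_zero), add_comm]

theorem sum_log_bound {N : ℕ} (hN : 3 ≤ N) :
    |∑ n ∈ Ico 3 (N + 1), Real.log n - N * Real.log N| ≤ 2 * N := by
  have hN' : (3 : ℝ) ≤ N := by exact_mod_cast hN
  have h1 : ∑ n ∈ range 3, Real.log (n : ℝ) + ∑ n ∈ Ico 3 (N + 1), Real.log (n : ℝ) =
      ∑ n ∈ range (N + 1), Real.log (n : ℝ) := by
    rw [range_eq_Ico, sum_Ico_consecutive _ (by omega) (by omega), range_eq_Ico]
  have h2 : ∑ n ∈ range 3, Real.log (n : ℝ) = Real.log 2 := by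
    simp [sum_range_succ]
  rw [h2, sum_log] at h1
  have h3 : (N : ℝ) * Real.log N - N ≤ Real.log (N.factorial : ℝ) := by
    have h4 := Real.pow_div_factorial_le_exp (N : ℝ) (by positivity) N
    have h5 := Real.log_le_log (by positivity) h4
    rw [Real.log_exp, Real.log_div (by positivity) (by positivity), Real.log_pow] at h5
    linarith
  have h4 : ∑ n ∈ Ico 3 (N + 1), Real.log (n : ℝ) ≤ N * Real.log N := by
    calc ∑ n ∈ Ico 3 (N + 1), Real.log (n : ℝ) ≤ ∑ n ∈ Ico 3 (N + 1), Real.log (N : ℝ) := by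
          apply sum_le_sum
          intro n hn
          rw [mem_Ico] at hn
          have : (0 : ℝ) < n := by exact_mod_cast (by omega : 0 < n)
          exact Real.log_le_log this (by exact_mod_cast (by omega : n ≤ N))
      _ = ((N + 1 - 3 : ℕ) : ℝ) * Real.log N := by rw [sum_const, Nat.card_Ico, nsmul_eq_mul]
      _ ≤ N * Real.log N := by
          apply mul_le_mul_of_nonneg_right _ (Real.log_natCast_nonneg N)
          exact_mod_cast (by omega : N + 1 - 3 ≤ N)
  have h5 := Real.log_two_lt_d9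
  rw [abs_le]
  constructor <;> linarith

end E1

open E1 E3 RAT Pool.Agent.T2H32.BF in
theorem T_E1 (h : P_Z) : P_E1 := by
  obtain ⟨hZa, hZb, hZc⟩ := h
  obtain ⟨n1, hn1⟩ := eventually_atTop.1 (hZb.and (eventually_ge_atTop 4))
  have hn14 : 4 ≤ n1 := (hn1 n1 le_rfl).2
  have hn14' : (4 : ℝ) ≤ n1 := by exact_mod_cast hn14
  refine ⟨2 * (2 * n1 + 5) + 2, by positivity, ?_⟩
  have hlog4 : ∀ᶠ N : ℕ in atTop, Real.log N ^ 4 ≤ N := by
    have h1 := (Real.isLittleO_pow_log_id_atTop (n := 4)).bound (c := 1) one_pos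
    filter_upwards [tendsto_natCast_atTop_atTop.eventually h1] with N hN
    simp only [id, one_mul] at hN
    rw [Real.norm_of_nonneg (by positivity), Real.norm_of_nonneg (by positivity)] at hN
    exact hN
  filter_upwards [hlog4, eventually_ge_atTop 3] with N hL hN Q hQ hQN
  have hN' : (3 : ℝ) ≤ N := by exact_mod_cast hN
  have hlog : 1 ≤ Real.log N := by
    rw [Real.le_log_iff_exp_le (by linarith)]
    have := Real.exp_one_lt_d9
    linarith
  have hs1 : 1 ≤ √(N : ℝ) := Real.one_le_sqrt.2 (by linarith)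
  set A : ℝ := 2 * n1 + 5 with hA
  have hA0 : 0 ≤ A := by positivity
  have hterm : ∀ n ∈ Ico 3 (N + 1 - 0),
      |Real.log n * (∏ p ∈ PN N, mf z0 Q 0 n p) - 1| ≤ A * Real.log N * (1 / √(n : ℝ)) := by
    intro n hn
    rw [mem_Ico] at hn
    have hnN : n ≤ N := by omega
    have hn3 : (3 : ℝ) ≤ n := by exact_mod_cast hn.1
    have hsn : 0 < √(n : ℝ) := Real.sqrt_pos.2 (by linarith)
    have hl0 : 0 ≤ Real.log n := Real.log_natCast_nonneg n
    have hl1 : Real.log n ≤ Real.log N :=
      Real.log_le_log (by linarith) (by exact_mod_cast hnN)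
    have hP := prod_mem (z := z0) (Q := Q) (h := 0) (n := n) (N := N)
    by_cases hc : n < n1
    · have h3 : Real.log n * (∏ p ∈ PN N, mf z0 Q 0 n p) ≤ Real.log N := by
        calc Real.log n * (∏ p ∈ PN N, mf z0 Q 0 n p) ≤ Real.log N * 1 := by
              gcongr
              · exact hP.1
              · exact hP.2
          _ = Real.log N := by ring
      have h4 : 0 ≤ Real.log n * (∏ p ∈ PN N, mf z0 Q 0 n p) := mul_nonneg hl0 hP.1
      have h5 : |Real.log n * (∏ p ∈ PN N, mf z0 Q 0 n p) - 1| ≤ 2 * Real.log N := by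
        rw [abs_le]
        constructor <;> linarith
      refine h5.trans ?_
      have h6 : √(n : ℝ) ≤ n1 := by
        have h7 : √(n : ℝ) ≤ n := by
          rw [Real.sqrt_le_left (by linarith)]
          nlinarith
        exact h7.trans (by exact_mod_cast hc.le)
      have h8 : 2 ≤ A * (1 / √(n : ℝ)) := by
        rw [mul_one_div, le_div_iff₀ hsn]
        linarith
      calc 2 * Real.log N ≤ (A * (1 / √(n : ℝ))) * Real.log N := by gcongr
        _ = A * Real.log N * (1 / √(n : ℝ)) := by ring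
    · push Not at hc
      obtain ⟨hz1, hz4⟩ := hn1 n hc
      obtain ⟨ha0, ha1, ha2⟩ := hZc n hn.1
      have hz1' : (1 : ℝ) ≤ z0 n := by exact_mod_cast ha0
      have hzN : z0 n ≤ N := (z0_mono hnN).trans (hZa N)
      have hprod : ∏ p ∈ PN N, mf z0 Q 0 n p = V (z0 n) *
          ∏ p ∈ PN N, (if p ∣ Q ∧ ¬ p ≤ z0 n then 1 - 1 / (p : ℝ) else 1) := by
        rw [V_eq hzN, ← prod_mul_distrib]
        exact prod_congr rfl fun p _ => mf0
      have hr1 := rest (w := z0 n) ha0 hQ hQN
      have hr2 := rest_le (w := z0 n) (Q := Q) (N := N)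
      set r := ∏ p ∈ PN N, (if p ∣ Q ∧ ¬ p ≤ z0 n then 1 - 1 / (p : ℝ) else 1) with hr
      rw [hprod]
      set v := V (z0 n) * Real.log n with hv
      have hu : 1 / (z0 n : ℝ) ≤ 1 / √(n : ℝ) := one_div_le_one_div_of_le hsn hz1
      have hu1 : 1 / (z0 n : ℝ) ≤ 1 := by
        rw [div_le_one (by linarith)]
        exact hz1'
      have hu0 : 0 < 1 / (z0 n : ℝ) := by positivity
      have e0 : 2 * Real.log N / (z0 n : ℝ) = 2 * Real.log N * (1 / z0 n) := by ring
      rw [e0] at hr1
      set u := 1 / (z0 n : ℝ) with hud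
      have e1 : Real.log n * (V (z0 n) * r) = v * r := by
        rw [hv]
        ring
      rw [e1]
      have hv2 : v ≤ 2 := by linarith
      have hv0 : 0 ≤ v := by linarith
      have e2 : v * r ≤ 1 + u := by
        calc v * r ≤ v * 1 := by gcongr
          _ ≤ 1 + u := by linarith
      have e3 : 1 - 4 * Real.log N * u ≤ v * r := by
        have h7 : v * (1 - 2 * Real.log N * u) ≤ v * r := mul_le_mul_of_nonneg_left hr1 hv0
        have h8 : v * (2 * Real.log N * u) ≤ 2 * (2 * Real.log N * u) := by gcongr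
        nlinarith
      have e4 : |v * r - 1| ≤ 5 * Real.log N * u := by
        have h9 : u ≤ Real.log N * u := le_mul_of_one_le_left hu0.le hlog
        rw [abs_le]
        constructor <;> nlinarith
      refine e4.trans ?_
      have h5A : 5 ≤ A := by
        rw [hA]
        linarith
      calc 5 * Real.log N * u ≤ A * Real.log N * (1 / √(n : ℝ)) := by gcongr
        _ = _ := rfl
  have h3 : ∑ n ∈ Ico 3 (N + 1 - 0), 1 / √(n : ℝ) ≤ 2 * √(N : ℝ) := by
    refine le_trans ?_ (sqrt_sum N)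
    apply sum_le_sum_of_subset_of_nonneg
    · intro n hn
      rw [mem_Ico] at hn ⊢
      omega
    · intro n _ _
      positivity
  constructor
  · -- first moment
    have hsum : |EF z0 Q 0 N (fun n => Real.log n) - ((Ico 3 (N + 1 - 0)).card : ℝ)| ≤
        2 * A * Real.log N * √(N : ℝ) := by
      unfold EF
      have e : ((Ico 3 (N + 1 - 0)).card : ℝ) = ∑ n ∈ Ico 3 (N + 1 - 0), (1 : ℝ) := by
        rw [sum_const, nsmul_eq_mul, mul_one]
      rw [e, ← sum_sub_distrib]
      refine (abs_sum_le_sum_abs _ _).trans ((sum_le_sum hterm).trans ?_)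
      rw [← mul_sum]
      calc A * Real.log N * ∑ n ∈ Ico 3 (N + 1 - 0), 1 / √(n : ℝ)
          ≤ A * Real.log N * (2 * √(N : ℝ)) := by gcongr
        _ = _ := by ring
    have hcard : |((Ico 3 (N + 1 - 0)).card : ℝ) - N| ≤ 2 := by
      rw [Nat.card_Ico]
      have h4 : N ≤ N + 1 - 0 - 3 + 2 := by omega
      have h5 : N + 1 - 0 - 3 ≤ N := by omega
      have h4' : (N : ℝ) ≤ ((N + 1 - 0 - 3 : ℕ) : ℝ) + 2 := by exact_mod_cast h4
      have h5' : ((N + 1 - 0 - 3 : ℕ) : ℝ) ≤ N := by exact_mod_cast h5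
      rw [abs_le]
      constructor <;> linarith
    have hfin := abs_sub_le (EF z0 Q 0 N (fun n => Real.log n))
      ((Ico 3 (N + 1 - 0)).card : ℝ) (N : ℝ)
    have hl3 : Real.log N ≤ Real.log N ^ 3 := by
      calc Real.log N = Real.log N ^ 1 := (pow_one _).symm
        _ ≤ Real.log N ^ 3 := pow_le_pow_right₀ hlog (by norm_num)
    have hl30 : 1 ≤ Real.log N ^ 3 := one_le_pow₀ hlog
    have hb1 : 2 * A * Real.log N * √(N : ℝ) ≤ 2 * A * Real.log N ^ 3 * √(N : ℝ) := by gcongr
    have hb2 : 2 ≤ 2 * (Real.log N ^ 3 * √(N : ℝ)) := by nlinarith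
    calc |EF z0 Q 0 N (fun n => Real.log n) - N|
        ≤ 2 * A * Real.log N * √(N : ℝ) + 2 := by linarith
      _ ≤ 2 * A * Real.log N ^ 3 * √(N : ℝ) + 2 * (Real.log N ^ 3 * √(N : ℝ)) := by linarith
      _ = (2 * A + 2) * √(N : ℝ) * Real.log N ^ 3 := by ring
  · -- second moment of the logarithm
    have hsum : |EF z0 Q 0 N (fun n => Real.log n * Real.log ((n + 0 : ℕ) : ℝ)) -
        ∑ n ∈ Ico 3 (N + 1), Real.log n| ≤ 2 * A * Real.log N ^ 2 * √(N : ℝ) := by
      unfold EF
      rw [Nat.sub_zero, ← sum_sub_distrib]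
      refine (abs_sum_le_sum_abs _ _).trans ?_
      calc ∑ n ∈ Ico 3 (N + 1), |Real.log n * Real.log ((n + 0 : ℕ) : ℝ) *
              (∏ p ∈ PN N, mf z0 Q 0 n p) - Real.log n|
          ≤ ∑ n ∈ Ico 3 (N + 1), Real.log N * (A * Real.log N * (1 / √(n : ℝ))) := by
            apply sum_le_sum
            intro n hn
            have h5 := hterm n hn
            rw [mem_Ico] at hn
            have hn3 : (3 : ℝ) ≤ n := by exact_mod_cast hn.1
            have hl0 : 0 ≤ Real.log n := Real.log_natCast_nonneg n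
            have hl1 : Real.log n ≤ Real.log N :=
              Real.log_le_log (by linarith) (by exact_mod_cast (by omega : n ≤ N))
            rw [add_zero, show Real.log (n : ℝ) * Real.log (n : ℝ) *
              (∏ p ∈ PN N, mf z0 Q 0 n p) - Real.log n =
              Real.log n * (Real.log n * (∏ p ∈ PN N, mf z0 Q 0 n p) - 1) by ring, abs_mul,
              abs_of_nonneg hl0]
            exact mul_le_mul hl1 h5 (abs_nonneg _) (by linarith)
        _ = A * Real.log N ^ 2 * ∑ n ∈ Ico 3 (N + 1), 1 / √(n : ℝ) := by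
            rw [mul_sum]
            exact sum_congr rfl fun n _ => by ring
        _ ≤ A * Real.log N ^ 2 * (2 * √(N : ℝ)) := by
            rw [Nat.sub_zero] at h3
            gcongr
        _ = _ := by ring
    have hb := sum_log_bound hN
    have hfin := abs_sub_le (EF z0 Q 0 N (fun n => Real.log n * Real.log ((n + 0 : ℕ) : ℝ)))
      (∑ n ∈ Ico 3 (N + 1), Real.log n) (N * Real.log N)
    have hl2 : Real.log N ^ 2 ≤ √(N : ℝ) := by
      apply Real.le_sqrt_of_sq_le
      have e : (Real.log (N : ℝ) ^ 2) ^ 2 = Real.log (N : ℝ) ^ 4 := by ring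
      rw [e]
      exact hL
    have h5 : Real.log N ^ 2 * √(N : ℝ) ≤ N := by
      calc Real.log N ^ 2 * √(N : ℝ) ≤ √(N : ℝ) * √(N : ℝ) := by gcongr
        _ = N := Real.mul_self_sqrt (by positivity)
    have h6 : 2 * A * Real.log N ^ 2 * √(N : ℝ) ≤ 2 * A * N := by
      calc 2 * A * Real.log N ^ 2 * √(N : ℝ) = 2 * A * (Real.log N ^ 2 * √(N : ℝ)) := by ring
        _ ≤ 2 * A * N := by gcongr
    calc |EF z0 Q 0 N (fun n => Real.log n * Real.log ((n + 0 : ℕ) : ℝ)) - N * Real.log N|
        ≤ 2 * A * N + 2 * N := by linarith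
      _ = (2 * A + 2) * N := by ring

end Pool.Agent.T2H31.HV
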