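import Pool.Agent.T2H31.HV.T_RAT

set_option autoImplicit false

/-! # E3: expected values of the pair sums -/

open Finset MeasureTheory ProbabilityTheory Filter Topology

namespace Pool.Agent.T2H31.HV

namespace E3

open Pool.Agent.T2H32.BF RAT

theorem mf_mem {z : ℕ → ℕ} {Q h n p : ℕ} (hp : p.Prime) :
    0 ≤ mf z Q h n p ∧ mf z Q h n p ≤ 1 := by
  have hp2 : (2 : ℝ) ≤ p := by exact_mod_cast hp.two_le
  have h1 : 0 ≤ al z Q h n p ∧ al z Q h n p ≤ 1 := by
    unfold al
    split_ifs <;> norm_num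
  have h2 : 0 ≤ be z Q h n p ∧ be z Q h n p ≤ 1 := by
    unfold be
    split_ifs <;> norm_num
  unfold mf
  constructor
  · rw [sub_nonneg, div_le_one (by linarith)]
    linarith
  · have : 0 ≤ (al z Q h n p + be z Q h n p) / p := div_nonneg (by linarith) (by linarith)
    linarith

theorem prod_mem {z : ℕ → ℕ} {Q h n N : ℕ} :
    0 ≤ ∏ p ∈ PN N, mf z Q h n p ∧ ∏ p ∈ PN N, mf z Q h n p ≤ 1 :=
  ⟨prod_nonneg fun p hp => (mf_mem ((mem_PN N p).1 hp).2).1,
    prod_le_one (fun p hp => (mf_mem ((mem_PN N p).1 hp).2).1)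
      fun p hp => (mf_mem ((mem_PN N p).1 hp).2).2⟩

theorem sqrt_sum (M : ℕ) : ∑ n ∈ Ico 1 (M + 1), 1 / √(n : ℝ) ≤ 2 * √(M : ℝ) := by
  induction M with
  | zero => simp
  | succ M ih =>
    rw [sum_Ico_succ_top (by omega)]
    refine (add_le_add_left ih _).trans ?_
    have h0 : 0 ≤ √(M : ℝ) := Real.sqrt_nonneg _
    have h1 : 0 < √((M + 1 : ℕ) : ℝ) := Real.sqrt_pos.2 (by positivity)
    have h2 : √((M + 1 : ℕ) : ℝ) ^ 2 = M + 1 := by
      rw [Real.sq_sqrt (by positivity)]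
      push_cast
      ring
    have h3 : √(M : ℝ) ^ 2 = M := Real.sq_sqrt (by positivity)
    have h4 : 1 / √((M + 1 : ℕ) : ℝ) ≤ 2 * √((M + 1 : ℕ) : ℝ) - 2 * √(M : ℝ) := by
      rw [div_le_iff₀ h1]
      nlinarith [sq_nonneg (√((M + 1 : ℕ) : ℝ) - √(M : ℝ))]
    linarith

theorem Sg_le {N Q j : ℕ} (hQ : 1 ≤ Q) (hQN : Q ≤ N) : Sg N Q j ≤ (V N)⁻¹ := by
  rw [Sg_eq hQ hQN]
  unfold V
  rw [← prod_inv_distrib]
  apply Finset.prod_le_prod
  · intro p hp
    rw [mem_PN] at hp
    have hp2 : (2 : ℝ) ≤ p := by exact_mod_cast hp.2.two_le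
    split_ifs
    · apply inv_nonneg.2
      rw [sub_nonneg, div_le_one (by linarith)]
      linarith
    · apply div_nonneg <;> linarith
    · exact sp_nonneg hp.2
  · intro p hp
    rw [mem_PN] at hp
    have hp2 : (2 : ℝ) ≤ p := by exact_mod_cast hp.2.two_le
    have hp0 : (p : ℝ) ≠ 0 := by positivity
    have hp1 : (p : ℝ) - 1 ≠ 0 := by
      intro h
      linarith
    have hpp : (p : ℝ) / (p - 1) = (1 - 1 / (p : ℝ))⁻¹ := by
      field_simp
    split_ifs
    · exact le_rfl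
    · exact hpp.le
    · rw [← hpp]
      have h1 : 1 ≤ (p : ℝ) / (p - 1) := by
        rw [one_le_div (by linarith)]
        linarith
      have h2 : 0 ≤ 1 / ((p : ℝ) - 1) ^ 2 := by positivity
      linarith

theorem V_inv_le : ∀ᶠ N : ℕ in atTop, (V N)⁻¹ ≤ 2 * Real.log N := by
  have hg : (1 : ℝ) / 2 < Real.exp (-Real.eulerMascheroniConstant) := by
    rw [Real.exp_neg, lt_inv_comm₀ (by norm_num) (Real.exp_pos _)]
    have := expg
    norm_num
    linarith
  filter_upwards [mertens.eventually_const_lt hg, eventually_ge_atTop 2] with N h1 h2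
  have h3 : 0 < Real.log N := Real.log_pos (by exact_mod_cast h2)
  have h4 := V_pos N
  rw [inv_le_iff_one_le_mul₀ h4]
  nlinarith

end E3

open E3 RAT Pool.Agent.T2H32.BF in
theorem T_E3 (h1 : P_Z) (h2 : P_RAT) : P_E3 := by
  obtain ⟨hZa, hZb, hZc⟩ := h1
  obtain ⟨C, hC, hR⟩ := h2
  obtain ⟨n1, hn1⟩ := eventually_atTop.1 (hZb.and (eventually_ge_atTop 4))
  have hn14 : 4 ≤ n1 := (hn1 n1 le_rfl).2
  have hn14' : (4 : ℝ) ≤ n1 := by exact_mod_cast hn14
  refine ⟨2 * (3 * n1 + 2 * (4 * C + 3)) + 4, by positivity, ?_⟩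
  filter_upwards [V_inv_le, eventually_ge_atTop 3] with N hV hN Q j hQ hj hjQ
  have hN' : (3 : ℝ) ≤ N := by exact_mod_cast hN
  have hlog : 1 ≤ Real.log N := by
    rw [Real.le_log_iff_exp_le (by linarith)]
    have := Real.exp_one_lt_d9
    linarith
  have hQN : Q ≤ N := (Nat.le_mul_of_pos_left Q hj).trans hjQ
  have hs1 : 1 ≤ √(N : ℝ) := Real.one_le_sqrt.2 (by linarith)
  set h := j * Q with hh
  have hh1 : 1 ≤ h := Nat.mul_pos hj hQ
  set S := Sg N Q j with hS
  have hS0 : 0 ≤ S := Sg_nonneg hQ hQN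
  have hS1 : S ≤ 2 * Real.log N := (Sg_le hQ hQN).trans hV
  set A : ℝ := 3 * n1 + 2 * (4 * C + 3) with hA
  have hA0 : 0 ≤ A := by positivity
  -- the terms
  have hterm : ∀ n ∈ Ico 3 (N + 1 - h),
      |Real.log n * Real.log ((n + h : ℕ) : ℝ) * (∏ p ∈ PN N, mf z0 Q h n p) - S| ≤
        A * Real.log N ^ 2 * (1 / √(n : ℝ)) := by
    intro n hn
    rw [mem_Ico] at hn
    have hnN : n + h ≤ N := by omega
    have hn3 : (3 : ℝ) ≤ n := by exact_mod_cast hn.1
    have hsn : 0 < √(n : ℝ) := Real.sqrt_pos.2 (by linarith)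
    have hl0 : 0 ≤ Real.log n := Real.log_natCast_nonneg n
    have hl0' : 0 ≤ Real.log ((n + h : ℕ) : ℝ) := Real.log_natCast_nonneg _
    have hl1 : Real.log n ≤ Real.log N :=
      Real.log_le_log (by linarith) (by exact_mod_cast (by omega : n ≤ N))
    have hl2 : Real.log ((n + h : ℕ) : ℝ) ≤ Real.log N :=
      Real.log_le_log (by positivity) (by exact_mod_cast hnN)
    have hP := prod_mem (z := z0) (Q := Q) (h := h) (n := n) (N := N)
    by_cases hc : n < n1
    · have h3 : Real.log n * Real.log ((n + h : ℕ) : ℝ) * (∏ p ∈ PN N, mf z0 Q h n p) ≤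
          Real.log N ^ 2 := by
        calc Real.log n * Real.log ((n + h : ℕ) : ℝ) * (∏ p ∈ PN N, mf z0 Q h n p)
            ≤ Real.log N * Real.log N * 1 := by
              gcongr
              · exact hP.1
              · exact hP.2
          _ = Real.log N ^ 2 := by ring
      have h4 : 0 ≤ Real.log n * Real.log ((n + h : ℕ) : ℝ) * (∏ p ∈ PN N, mf z0 Q h n p) :=
        mul_nonneg (mul_nonneg hl0 hl0') hP.1
      have h5 : |Real.log n * Real.log ((n + h : ℕ) : ℝ) * (∏ p ∈ PN N, mf z0 Q h n p) - S| ≤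
          3 * Real.log N ^ 2 := by
        rw [abs_le]
        constructor <;> nlinarith
      refine h5.trans ?_
      have h6 : √(n : ℝ) ≤ n1 := by
        have h7 : √(n : ℝ) ≤ n := by
          rw [Real.sqrt_le_left (by linarith)]
          nlinarith
        exact h7.trans (by exact_mod_cast hc.le)
      have h8 : 3 ≤ A * (1 / √(n : ℝ)) := by
        rw [mul_one_div, le_div_iff₀ hsn]
        have : 3 * √(n : ℝ) ≤ 3 * n1 := by linarith
        have h9 : 0 ≤ 2 * (4 * C + 3) := by positivity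
        linarith
      calc 3 * Real.log N ^ 2 ≤ (A * (1 / √(n : ℝ))) * Real.log N ^ 2 := by gcongr
        _ = A * Real.log N ^ 2 * (1 / √(n : ℝ)) := by ring
    · push Not at hc
      obtain ⟨hz1, hz4⟩ := hn1 n hc
      have hz2 : (2 : ℝ) ≤ z0 n := by
        refine le_trans ?_ hz1
        rw [Real.le_sqrt (by norm_num) (by linarith)]
        have : (4 : ℝ) ≤ n := by exact_mod_cast hz4
        linarith
      have hz2' : 2 ≤ z0 n := by exact_mod_cast hz2
      have hrat := hR z0 z0_mono N Q j n hN hQ hQN (by omega) hj hz2' (hZa N)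
      obtain ⟨-, ha1, ha2⟩ := hZc n hn.1
      obtain ⟨-, hb1, hb2⟩ := hZc (n + h) (by omega)
      have hzz : z0 n ≤ z0 (n + h) := z0_mono (by omega)
      have hzz' : (z0 n : ℝ) ≤ z0 (n + h) := by exact_mod_cast hzz
      have hb3 : 1 / (z0 (n + h) : ℝ) ≤ 1 / z0 n := one_div_le_one_div_of_le (by linarith) hzz'
      have hz0 : (0 : ℝ) < z0 n := by linarith
      have hu : 1 / (z0 n : ℝ) ≤ 1 / √(n : ℝ) := one_div_le_one_div_of_le hsn hz1
      have hu2 : 1 / (z0 n : ℝ) ≤ 1 / 2 := one_div_le_one_div_of_le (by norm_num) hz2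
      have hu0 : 0 < 1 / (z0 n : ℝ) := by positivity
      set v1 := V (z0 n) * Real.log n with hv1
      set v2 := V (z0 (n + h)) * Real.log ((n + h : ℕ) : ℝ) with hv2
      set P := ∏ p ∈ PN N, mf z0 Q h n p with hPd
      set u := 1 / (z0 n : ℝ) with hud
      have hb4 : v2 ≤ 1 + u := by linarith
      have hvv : 1 ≤ v1 * v2 ∧ v1 * v2 ≤ 1 + 3 * u := by
        constructor
        · nlinarith
        · nlinarith
      have e1 : Real.log n * Real.log ((n + h : ℕ) : ℝ) * P - v1 * v2 * S =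
          Real.log n * Real.log ((n + h : ℕ) : ℝ) * (P - V (z0 n) * V (z0 (n + h)) * S) := by
        rw [hv1, hv2]
        ring
      have e2 : |Real.log n * Real.log ((n + h : ℕ) : ℝ) * P - v1 * v2 * S| ≤
          C * Real.log N * u * (v1 * v2 * S) := by
        rw [e1, abs_mul, abs_of_nonneg (mul_nonneg hl0 hl0')]
        refine (mul_le_mul_of_nonneg_left hrat (mul_nonneg hl0 hl0')).trans (le_of_eq ?_)
        rw [hv1, hv2, hud]
        ring
      have e3 : C * Real.log N * u * (v1 * v2 * S) ≤ C * Real.log N * u * (4 * S) := by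
        have : v1 * v2 ≤ 4 := by linarith [hvv.2]
        gcongr
      have e4 : |v1 * v2 * S - S| ≤ 3 * u * S := by
        rw [show v1 * v2 * S - S = (v1 * v2 - 1) * S by ring, abs_mul, abs_of_nonneg hS0]
        apply mul_le_mul_of_nonneg_right _ hS0
        rw [abs_le]
        constructor <;> linarith [hvv.1, hvv.2]
      have e5 : |Real.log n * Real.log ((n + h : ℕ) : ℝ) * P - S| ≤
          C * Real.log N * u * (4 * S) + 3 * u * S := by
        have := abs_sub_le (Real.log n * Real.log ((n + h : ℕ) : ℝ) * P) (v1 * v2 * S) S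
        linarith
      refine e5.trans ?_
      have e6 : C * Real.log N * u * (4 * S) + 3 * u * S ≤ (4 * C + 3) * Real.log N * S * u := by
        have : 3 * u * S ≤ 3 * u * S * Real.log N := le_mul_of_one_le_right (by positivity) hlog
        nlinarith
      refine e6.trans ?_
      calc (4 * C + 3) * Real.log N * S * u
          ≤ (4 * C + 3) * Real.log N * (2 * Real.log N) * (1 / √(n : ℝ)) := by gcongr
        _ = (2 * (4 * C + 3)) * Real.log N ^ 2 * (1 / √(n : ℝ)) := by ring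
        _ ≤ A * Real.log N ^ 2 * (1 / √(n : ℝ)) := by
            have : 2 * (4 * C + 3) ≤ A := by
              rw [hA]
              have : (0 : ℝ) ≤ 3 * n1 := by positivity
              linarith
            gcongr
  -- the sum
  have hsum : |EF z0 Q h N (fun n => Real.log n * Real.log ((n + h : ℕ) : ℝ)) -
      ((Ico 3 (N + 1 - h)).card : ℝ) * S| ≤ 2 * A * Real.log N ^ 2 * √(N : ℝ) := by
    unfold EF
    rw [← nsmul_eq_mul, ← sum_const, ← sum_sub_distrib]
    refine (abs_sum_le_sum_abs _ _).trans ((sum_le_sum hterm).trans ?_)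
    rw [← mul_sum]
    have h3 : ∑ n ∈ Ico 3 (N + 1 - h), 1 / √(n : ℝ) ≤ 2 * √(N : ℝ) := by
      refine le_trans ?_ (sqrt_sum N)
      apply sum_le_sum_of_subset_of_nonneg
      · intro n hn
        rw [mem_Ico] at hn ⊢
        omega
      · intro n _ _
        positivity
    calc A * Real.log N ^ 2 * ∑ n ∈ Ico 3 (N + 1 - h), 1 / √(n : ℝ)
        ≤ A * Real.log N ^ 2 * (2 * √(N : ℝ)) := by gcongr
      _ = _ := by ring
  have hcard : |((Ico 3 (N + 1 - h)).card : ℝ) * S - (N - j * Q) * S| ≤ 2 * S := by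
    rw [← sub_mul, abs_mul, abs_of_nonneg hS0]
    apply mul_le_mul_of_nonneg_right _ hS0
    rw [Nat.card_Ico]
    have h3 : ((N : ℝ) - j * Q) = ((N - h : ℕ) : ℝ) := by
      rw [Nat.cast_sub hjQ, hh]
      push_cast
      ring
    rw [h3, abs_le]
    have h4 : N - h ≤ N + 1 - h - 3 + 2 := by omega
    have h5 : N + 1 - h - 3 ≤ N - h := by omega
    have h4' : ((N - h : ℕ) : ℝ) ≤ ((N + 1 - h - 3 : ℕ) : ℝ) + 2 := by exact_mod_cast h4
    have h5' : ((N + 1 - h - 3 : ℕ) : ℝ) ≤ ((N - h : ℕ) : ℝ) := by exact_mod_cast h5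
    constructor <;> linarith
  have hfin := abs_sub_le (EF z0 Q h N (fun n => Real.log n * Real.log ((n + h : ℕ) : ℝ)))
    (((Ico 3 (N + 1 - h)).card : ℝ) * S) ((N - j * Q) * S)
  have hl2 : Real.log N ^ 2 ≤ Real.log N ^ 5 := pow_le_pow_right₀ hlog (by norm_num)
  have hl1 : Real.log N ≤ Real.log N ^ 5 := by
    calc Real.log N = Real.log N ^ 1 := (pow_one _).symm
      _ ≤ Real.log N ^ 5 := pow_le_pow_right₀ hlog (by norm_num)
  have hb1 : 2 * A * Real.log N ^ 2 * √(N : ℝ) ≤ 2 * A * Real.log N ^ 5 * √(N : ℝ) := by gcongr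
  have hb2 : 2 * S ≤ 4 * (Real.log N ^ 5 * √(N : ℝ)) := by
    have : Real.log N ^ 5 ≤ Real.log N ^ 5 * √(N : ℝ) := le_mul_of_one_le_right (by positivity) hs1
    linarith
  calc |EF z0 Q h N (fun n => Real.log n * Real.log ((n + h : ℕ) : ℝ)) - (N - j * Q) * S|
      ≤ 2 * A * Real.log N ^ 2 * √(N : ℝ) + 2 * S := by linarith
    _ ≤ 2 * A * Real.log N ^ 5 * √(N : ℝ) + 4 * (Real.log N ^ 5 * √(N : ℝ)) := by linarith
    _ = (2 * A + 4) * √(N : ℝ) * Real.log N ^ 5 := by ring

end Pool.Agent.T2H31.HV
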