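import Pool.Agent.T2H31.HV.Stm

set_option autoImplicit false

/-!
# Package FIN: the Finner inequality on the product space
-/

open Finset

namespace Pool.Agent.T2H31.HV

theorem fin_cs {ι : Type} [DecidableEq ι] (I : Finset ι) (R : Finset ℕ) (x : ι → ℕ → ℝ)
    (hx : ∀ i r, 0 ≤ x i r) (hI : 2 ≤ I.card) :
    ∑ r ∈ R, ∏ i ∈ I, x i r ≤ ∏ i ∈ I, √(∑ r ∈ R, x i r ^ 2) := by
  obtain ⟨a, ha, b, hb, hab⟩ := Finset.one_lt_card.1 (show 1 < I.card by omega)
  have hb' : b ∈ I.erase a := mem_erase.2 ⟨hab.symm, hb⟩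
  set J := (I.erase a).erase b with hJ
  have e : ∀ y : ι → ℝ, ∏ i ∈ I, y i = y a * y b * ∏ i ∈ J, y i := by
    intro y
    rw [← mul_prod_erase I y ha, ← mul_prod_erase (I.erase a) y hb', mul_assoc]
  have hle : ∀ i, ∀ r ∈ R, x i r ≤ √(∑ r ∈ R, x i r ^ 2) := by
    intro i r hr
    apply Real.le_sqrt_of_sq_le
    exact single_le_sum (f := fun r => x i r ^ 2) (fun r _ => sq_nonneg _) hr
  rw [e]
  calc ∑ r ∈ R, ∏ i ∈ I, x i r
      ≤ ∑ r ∈ R, (x a r * x b r) * ∏ i ∈ J, √(∑ r ∈ R, x i r ^ 2) := by
        apply sum_le_sum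
        intro r hr
        rw [e]
        apply mul_le_mul_of_nonneg_left _ (mul_nonneg (hx _ _) (hx _ _))
        exact prod_le_prod (fun i _ => hx i r) (fun i _ => hle i r hr)
    _ = (∑ r ∈ R, x a r * x b r) * ∏ i ∈ J, √(∑ r ∈ R, x i r ^ 2) := by
        rw [sum_mul]
    _ ≤ (√(∑ r ∈ R, x a r ^ 2) * √(∑ r ∈ R, x b r ^ 2)) * ∏ i ∈ J, √(∑ r ∈ R, x i r ^ 2) := by
        apply mul_le_mul_of_nonneg_right (Real.sum_mul_le_sqrt_mul_sqrt _ _ _)
        exact prod_nonneg fun i _ => Real.sqrt_nonneg _

theorem T_FIN : P_FIN := by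
  intro S
  induction S using Finset.induction_on with
  | empty =>
    intro m s f hf hD hs _
    have hs0 : ∀ i, s i = ∅ := fun i => subset_empty.1 (hs i)
    rw [Pt_empty, sum_singleton]
    apply le_of_eq
    refine prod_congr rfl fun i _ => ?_
    rw [hs0 i, Pt_empty, sum_singleton, Real.sqrt_sq (hf i _)]
  | insert p S hp ih =>
    intro m s f hf hD hs hc
    classical
    set f' : Fin m → (ℕ → ℕ) → ℝ := fun i b =>
      if p ∈ s i then √(∑ r ∈ range p, f i (Function.update b p r) ^ 2) else f i b with hf'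
    set s' : Fin m → Finset ℕ := fun i => (s i).erase p with hs'
    have h1 : ∀ i b, 0 ≤ f' i b := by
      intro i b
      simp only [hf']
      split_ifs
      · exact Real.sqrt_nonneg _
      · exact hf i b
    have h2 : ∀ i, Dep (s' i) (f' i) := by
      intro i b b' hb
      simp only [hf']
      split_ifs with hpi
      · congr 1
        refine sum_congr rfl fun r _ => ?_
        congr 1
        apply hD i
        intro q hq
        by_cases hqp : q = p
        · subst hqp
          simp
        · rw [Function.update_of_ne hqp, Function.update_of_ne hqp]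
          exact hb q (mem_erase.2 ⟨hqp, hq⟩)
      · apply hD i
        intro q hq
        exact hb q (mem_erase.2 ⟨fun h => hpi (h ▸ hq), hq⟩)
    have h3 : ∀ i, s' i ⊆ S := by
      intro i q hq
      obtain ⟨hq1, hq2⟩ := mem_erase.1 hq
      exact (mem_insert.1 (hs i hq2)).resolve_left hq1
    have h4 : ∀ q ∈ S, 2 ≤ (univ.filter fun i => q ∈ s' i).card := by
      intro q hq
      have hqp : q ≠ p := fun h => hp (h ▸ hq)
      have e : (univ.filter fun i => q ∈ s' i) = univ.filter fun i => q ∈ s i := by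
        ext i
        simp only [mem_filter, mem_univ, true_and, hs', mem_erase]
        tauto
      rw [e]
      exact hc q (mem_insert_of_mem hq)
    have h5 := ih m s' f' h1 h2 h3 h4
    have h6 : ∀ i, ∑ b ∈ Pt (s' i), f' i b ^ 2 = ∑ b ∈ Pt (s i), f i b ^ 2 := by
      intro i
      by_cases hpi : p ∈ s i
      · conv_rhs => rw [← insert_erase hpi]
        rw [sum_Pt_insert ((s i).erase p) p (notMem_erase _ _)]
        refine sum_congr rfl fun b _ => ?_
        simp only [hf', if_pos hpi]
        rw [Real.sq_sqrt (sum_nonneg fun r _ => sq_nonneg _)]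
      · simp only [hf', if_neg hpi, hs', erase_eq_of_notMem hpi]
    simp only [h6] at h5
    refine le_trans ?_ h5
    rw [sum_Pt_insert S p hp]
    apply sum_le_sum
    intro b _
    set I := univ.filter (fun i => p ∈ s i) with hI
    have e1 : ∀ r, ∏ i, f i (Function.update b p r) =
        (∏ i ∈ I, f i (Function.update b p r)) * ∏ i ∈ univ.filter (fun i => ¬ p ∈ s i), f i b := by
      intro r
      rw [← prod_filter_mul_prod_filter_not univ (fun i => p ∈ s i)]
      congr 1
      refine prod_congr rfl fun i hi => ?_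
      apply hD i
      intro q hq
      have hqp : q ≠ p := fun h => (mem_filter.1 hi).2 (h ▸ hq)
      rw [Function.update_of_ne hqp]
    have e2 : ∏ i, f' i b = (∏ i ∈ I, √(∑ r ∈ range p, f i (Function.update b p r) ^ 2)) *
        ∏ i ∈ univ.filter (fun i => ¬ p ∈ s i), f i b := by
      rw [← prod_filter_mul_prod_filter_not univ (fun i => p ∈ s i)]
      congr 1
      · refine prod_congr rfl fun i hi => ?_
        simp only [hf', if_pos (mem_filter.1 hi).2]
      · refine prod_congr rfl fun i hi => ?_
        simp only [hf', if_neg (mem_filter.1 hi).2]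
    simp only [e1]
    rw [e2, ← sum_mul]
    apply mul_le_mul_of_nonneg_right _ (prod_nonneg fun i _ => hf i b)
    exact fin_cs I (range p) (fun i r => f i (Function.update b p r)) (fun i r => hf i _)
      (hc p (mem_insert_self _ _))

end Pool.Agent.T2H31.HV
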