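import Pool.Agent.T2H31.HV.Stm

set_option autoImplicit false

/-!
# Package FL: all fluctuations at once
-/

open Finset MeasureTheory ProbabilityTheory Filter Topology

namespace Pool.Agent.T2H31.HV

/-- the product of the `1 + K / p` -/
theorem prod_le_V (K : ℝ) (hK : 0 ≤ K) (N : ℕ) :
    ∏ p ∈ PN N, (1 + K / (p : ℝ)) ≤ (T2H32.BF.V N)⁻¹ ^ ⌈K⌉₊ := by
  have hV : T2H32.BF.V N = ∏ p ∈ PN N, (1 - 1 / (p : ℝ)) := rfl
  rw [hV, ← prod_inv_distrib, ← prod_pow]
  apply Finset.prod_le_prod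
  · intro p _
    positivity
  · intro p hp
    have hp2 : (2 : ℝ) ≤ p := by exact_mod_cast ((mem_PN N p).1 hp).2.two_le
    have hp0 : (0 : ℝ) < p := by linarith
    have h1 : 1 + K / p ≤ 1 + (⌈K⌉₊ : ℝ) * (1 / p) := by
      have := Nat.le_ceil K
      rw [mul_one_div]
      gcongr
    have h2 : 1 + (⌈K⌉₊ : ℝ) * (1 / p) ≤ (1 + 1 / (p : ℝ)) ^ ⌈K⌉₊ :=
      one_add_mul_le_pow (by have : 0 ≤ 1 / (p : ℝ) := by positivity
                             linarith) _
    have h3 : 1 + 1 / (p : ℝ) ≤ (1 - 1 / (p : ℝ))⁻¹ := by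
      have h4 : 1 / (p : ℝ) ≤ 1 / 2 := by gcongr
      rw [le_inv_comm₀ (by positivity) (by linarith)]
      rw [inv_eq_one_div, le_div_iff₀ (by positivity)]
      nlinarith [sq_nonneg (1 / (p : ℝ))]
    exact (h1.trans h2).trans (pow_le_pow_left₀ (by positivity) h3 _)

theorem V_inv_le : ∃ C : ℝ, 0 < C ∧ ∀ᶠ N : ℕ in atTop, (T2H32.BF.V N)⁻¹ ≤ C * Real.log N := by
  set g := Real.exp (-Real.eulerMascheroniConstant) with hg
  have hg0 : 0 < g := Real.exp_pos _
  refine ⟨2 / g, by positivity, ?_⟩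
  filter_upwards [T2H32.BF.mertens.eventually_const_lt (show g / 2 < g by linarith),
    eventually_ge_atTop 2] with N h1 h2
  have hV := T2H32.BF.V_pos N
  rw [inv_eq_one_div, div_le_iff₀ hV]
  have : 1 = 2 / g * (g / 2) := by field_simp
  calc (1 : ℝ) = 2 / g * (g / 2) := this
    _ ≤ 2 / g * (T2H32.BF.V N * Real.log N) := by gcongr
    _ = 2 / g * Real.log N * T2H32.BF.V N := by ring

theorem log_nat_mono : Monotone fun n : ℕ => Real.log n := by
  intro n n' hn
  rcases Nat.eq_zero_or_pos n with h | h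
  · subst h
    simp only [Nat.cast_zero, Real.log_zero]
    exact Real.log_natCast_nonneg n'
  · exact Real.log_le_log (by exact_mod_cast h) (by exact_mod_cast hn)

/-- Markov's inequality for the `2k`-th moment -/
theorem tail (hANO : P_ANO) (hMOM : P_MOM) (hTR : P_TR) {Ω : Type} [MeasurableSpace Ω] {P : Measure Ω}
    {a : ℕ → Ω → ℕ} (hM : T2H32.BF.Model P a) {z : ℕ → ℕ} (hz : Monotone z) (Q h N : ℕ) (B : ℝ)
    (c : ℕ → ℝ) (hc : Monotone c) (hc0 : ∀ n, 0 ≤ c n) (hcB : ∀ n ≤ N, c n ≤ B) (k : ℕ) (t : ℝ)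
    (ht : 0 < t) :
    P.real {ω | t < |PF z Q h N c (fun q => a q ω) - EF z Q h N c|} ≤
      (9 * B ^ 2 * (N + 1)) ^ k * (∏ p ∈ PN N, (1 + (1 + √6) ^ (2 * k) / (p : ℝ))) / t ^ (2 * k) := by
  classical
  have := T2H32.BF.prob hM
  obtain ⟨F, h1, h2, h3, h4, h5⟩ := hANO z hz Q h N B c hc hc0 hcB
  have hPN : ∀ p ∈ PN N, p.Prime := fun p hp => ((mem_PN N p).1 hp).2
  have hX : ∀ b, PF z Q h N c b - EF z Q h N c = ∑ s ∈ (PN N).powerset.erase ∅, F s b := by
    intro b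
    rw [h4, ← h5 b, ← add_sum_erase _ _ (empty_mem_powerset (PN N))]
    ring
  set G : (ℕ → ℕ) → ℝ := fun b => (∑ s ∈ (PN N).powerset.erase ∅, F s b) ^ (2 * k) with hG
  have hdep : Dep (PN N) G := by
    intro b b' hb
    simp only [hG]
    congr 1
    refine sum_congr rfl fun s hs => ?_
    have hs' := mem_powerset.1 (mem_of_mem_erase hs)
    exact h1 s hs' b b' fun p hp => hb p (hs' hp)
  obtain ⟨hi, hi2⟩ := hTR Ω P a hM (PN N) G hPN hdep
  have hmom := hMOM (PN N) F (9 * B ^ 2 * (N + 1)) 6 k (fun p hp => (hPN p hp).pos) (by positivity)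
    (by norm_num) h1 h2 h3
  have hmark := mul_meas_ge_le_integral_of_nonneg (μ := P) (f := fun ω => G fun q => a q ω)
    (Eventually.of_forall fun ω => by
      simp only [hG, pow_mul]
      positivity) hi (t ^ (2 * k))
  rw [hi2] at hmark
  have hsub : {ω | t < |PF z Q h N c (fun q => a q ω) - EF z Q h N c|} ⊆
      {ω | t ^ (2 * k) ≤ G fun q => a q ω} := by
    intro ω hω
    simp only [Set.mem_ofPred_eq] at hω ⊢
    rw [hX] at hω
    simp only [hG]
    exact (pow_le_pow_left₀ ht.le hω.le _).trans_eq (Even.pow_abs (even_two_mul k) _)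
  rw [le_div_iff₀ (by positivity), mul_comm]
  calc t ^ (2 * k) * P.real {ω | t < |PF z Q h N c (fun q => a q ω) - EF z Q h N c|}
      ≤ t ^ (2 * k) * P.real {ω | t ^ (2 * k) ≤ G fun q => a q ω} := by
        apply mul_le_mul_of_nonneg_left (measureReal_mono hsub) (by positivity)
    _ ≤ _ := hmark
    _ ≤ _ := hmom

theorem numeric (η : ℝ) (hη : 0 < η) : ∃ (k : ℕ) (C : ℝ), 0 < C ∧ ∀ᶠ N : ℕ in atTop,
    (9 * (Real.log (2 * N) ^ 2) ^ 2 * (N + 1)) ^ k *
      (∏ p ∈ PN N, (1 + (1 + √6) ^ (2 * k) / (p : ℝ))) / ((N : ℝ) ^ (1 / 2 + η)) ^ (2 * k) ≤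
        C / (N : ℝ) ^ 4 := by
  obtain ⟨C1, hC1, hV⟩ := V_inv_le
  set k := ⌈5 / (2 * η)⌉₊ with hk
  have hk5 : 5 ≤ 2 * k * η := by
    have := Nat.le_ceil (5 / (2 * η))
    rw [div_le_iff₀ (by positivity)] at this
    linarith
  set K := (1 + √6) ^ (2 * k) with hK
  have hK0 : 0 ≤ K := by positivity
  set A := 4 * k + ⌈K⌉₊ with hA
  refine ⟨k, 18 ^ k * C1 ^ ⌈K⌉₊, by positivity, ?_⟩
  have hlog : ∀ᶠ N : ℕ in atTop, Real.log (2 * N) ^ A ≤ N := by
    have h1 : Tendsto (fun N : ℕ => 2 * (N : ℝ)) atTop atTop :=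
      tendsto_natCast_atTop_atTop.const_mul_atTop (by norm_num)
    have h2 := ((Real.isLittleO_pow_log_id_atTop (n := A)).comp_tendsto h1).bound
      (show (0 : ℝ) < 1 / 2 by norm_num)
    filter_upwards [h2] with N h3
    simp only [Function.comp, id, Real.norm_eq_abs] at h3
    have h4 : |2 * (N : ℝ)| = 2 * N := abs_of_nonneg (by positivity)
    rw [h4] at h3
    calc Real.log (2 * N) ^ A ≤ |Real.log (2 * N) ^ A| := le_abs_self _
      _ ≤ 1 / 2 * (2 * N) := h3
      _ = N := by ring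
  filter_upwards [hV, hlog, eventually_ge_atTop 2] with N h1 h2 h3
  have hN : (2 : ℝ) ≤ N := by exact_mod_cast h3
  have hN0 : (0 : ℝ) < N := by linarith
  set L := Real.log (2 * N) with hL
  have hL0 : 0 ≤ L := Real.log_nonneg (by linarith)
  have hLN : Real.log N ≤ L := Real.log_le_log hN0 (by linarith)
  have hprod : ∏ p ∈ PN N, (1 + K / (p : ℝ)) ≤ (C1 * L) ^ ⌈K⌉₊ := by
    refine (prod_le_V K hK0 N).trans ?_
    apply pow_le_pow_left₀ (inv_nonneg.2 (T2H32.BF.V_pos N).le)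
    exact h1.trans (by gcongr)
  have hprod0 : 0 ≤ ∏ p ∈ PN N, (1 + K / (p : ℝ)) := prod_nonneg fun p _ => by positivity
  have hpow : (N : ℝ) ^ k * (N : ℝ) ^ 5 ≤ ((N : ℝ) ^ (1 / 2 + η)) ^ (2 * k) := by
    rw [← Real.rpow_natCast ((N : ℝ) ^ (1 / 2 + η)), ← Real.rpow_mul hN0.le, ← pow_add,
      ← Real.rpow_natCast]
    apply Real.rpow_le_rpow_of_exponent_le (by linarith)
    push_cast
    linarith
  have hbase : (9 * (L ^ 2) ^ 2 * ((N : ℝ) + 1)) ^ k ≤ (18 * L ^ 4 * N) ^ k := by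
    apply pow_le_pow_left₀ (by positivity)
    have : (L ^ 2) ^ 2 = L ^ 4 := by ring
    rw [this]
    nlinarith [pow_nonneg hL0 4]
  rw [div_le_div_iff₀ (by positivity) (by positivity)]
  calc (9 * (L ^ 2) ^ 2 * ((N : ℝ) + 1)) ^ k * (∏ p ∈ PN N, (1 + K / (p : ℝ))) * (N : ℝ) ^ 4
      ≤ (18 * L ^ 4 * N) ^ k * (C1 * L) ^ ⌈K⌉₊ * (N : ℝ) ^ 4 := by
        gcongr
    _ = (18 ^ k * C1 ^ ⌈K⌉₊) * ((N : ℝ) ^ k * (N : ℝ) ^ 4 * L ^ A) := by
        rw [hA, pow_add, pow_mul, mul_pow, mul_pow, mul_pow]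
        ring
    _ ≤ (18 ^ k * C1 ^ ⌈K⌉₊) * ((N : ℝ) ^ k * (N : ℝ) ^ 4 * N) := by
        gcongr
    _ = (18 ^ k * C1 ^ ⌈K⌉₊) * ((N : ℝ) ^ k * (N : ℝ) ^ 5) := by ring
    _ ≤ _ := by gcongr

theorem T_FL (hANO : P_ANO) (hMOM : P_MOM) (hTR : P_TR) : P_FL := by
  classical
  intro Ω _ P a hM z hz η hη
  have := T2H32.BF.prob hM
  obtain ⟨k, C, hC, hev⟩ := numeric η hη
  obtain ⟨N0, hN0⟩ := eventually_atTop.1 (hev.and (eventually_ge_atTop 2))
  set c2 : ℕ → ℕ → ℝ := fun h n => Real.log n * Real.log ((n + h : ℕ) : ℝ) with hc2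
  set A : ℕ → ℕ → ℕ → Set Ω := fun N Q h =>
    {ω | (N : ℝ) ^ (1 / 2 + η) < |PF z Q h N (c2 h) (fun q => a q ω) - EF z Q h N (c2 h)|} with hA
  set A' : ℕ → ℕ → Set Ω := fun N Q =>
    {ω | (N : ℝ) ^ (1 / 2 + η) < |PF z Q 0 N (fun n => Real.log n) (fun q => a q ω) -
      EF z Q 0 N (fun n => Real.log n)|} with hA'
  have hmono : ∀ h, Monotone (c2 h) := by
    intro h n n' hn
    simp only [hc2]
    exact mul_le_mul (log_nat_mono hn) (log_nat_mono (by omega)) (Real.log_natCast_nonneg _)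
      (Real.log_natCast_nonneg _)
  have hb : ∀ N ≥ N0, ∀ Q h, h ≤ N → P (A N Q h) ≤ ENNReal.ofReal (C / (N : ℝ) ^ 4) ∧
      P (A' N Q) ≤ ENNReal.ofReal (C / (N : ℝ) ^ 4) := by
    intro N hN Q h hh
    obtain ⟨h1, h2⟩ := hN0 N hN
    have hN2 : (2 : ℝ) ≤ N := by exact_mod_cast h2
    have hNpos : (0 : ℝ) < N := by linarith
    have hL1 : 1 ≤ Real.log (2 * N) := by
      rw [Real.le_log_iff_exp_le (by positivity)]
      have := Real.exp_one_lt_d9
      linarith
    have hlogN : ∀ n ≤ N, Real.log n ≤ Real.log (2 * N) := by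
      intro n hn
      have := log_nat_mono (show n ≤ 2 * N by omega)
      simpa using this
    have ht : 0 < (N : ℝ) ^ (1 / 2 + η) := Real.rpow_pos_of_pos hNpos _
    constructor
    · rw [← ofReal_measureReal]
      apply ENNReal.ofReal_le_ofReal
      refine (tail hANO hMOM hTR hM hz Q h N (Real.log (2 * N) ^ 2) (c2 h) (hmono h)
        (fun n => mul_nonneg (Real.log_natCast_nonneg _) (Real.log_natCast_nonneg _))
        (fun n hn => ?_) k _ ht).trans h1
      have h3 : Real.log ((n + h : ℕ) : ℝ) ≤ Real.log (2 * N) := by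
        have := log_nat_mono (show n + h ≤ 2 * N by omega)
        simpa using this
      rw [sq]
      exact mul_le_mul (hlogN n hn) h3 (Real.log_natCast_nonneg _) (by linarith)
    · rw [← ofReal_measureReal]
      apply ENNReal.ofReal_le_ofReal
      refine (tail hANO hMOM hTR hM hz Q 0 N (Real.log (2 * N) ^ 2) (fun n => Real.log n) log_nat_mono
        (fun n => Real.log_natCast_nonneg _) (fun n hn => ?_) k _ ht).trans h1
      have := hlogN n hn
      nlinarith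
  set s : ℕ → Set Ω := fun N => if N0 ≤ N then
    ⋃ Q ∈ range (N + 1), ⋃ h ∈ range (N + 1), (A N Q h ∪ A' N Q) else ∅ with hs
  have hsb : ∀ N, P (s N) ≤ ENNReal.ofReal (8 * C * (1 / (N : ℝ) ^ 2)) := by
    intro N
    by_cases hN : N0 ≤ N
    · simp only [hs, if_pos hN]
      obtain ⟨-, h2⟩ := hN0 N hN
      have hN2 : (2 : ℝ) ≤ N := by exact_mod_cast h2
      calc P (⋃ Q ∈ range (N + 1), ⋃ h ∈ range (N + 1), (A N Q h ∪ A' N Q))
          ≤ ∑ Q ∈ range (N + 1), P (⋃ h ∈ range (N + 1), (A N Q h ∪ A' N Q)) :=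
            measure_biUnion_finset_le _ _
        _ ≤ ∑ Q ∈ range (N + 1), ∑ h ∈ range (N + 1), P (A N Q h ∪ A' N Q) :=
            sum_le_sum fun Q _ => measure_biUnion_finset_le _ _
        _ ≤ ∑ Q ∈ range (N + 1), ∑ h ∈ range (N + 1), ENNReal.ofReal (2 * (C / (N : ℝ) ^ 4)) := by
            refine sum_le_sum fun Q _ => sum_le_sum fun h hh => ?_
            obtain ⟨h3, h4⟩ := hb N hN Q h (by
              have := mem_range.1 hh
              omega)
            refine (measure_union_le _ _).trans ((add_le_add h3 h4).trans ?_)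
            rw [← ENNReal.ofReal_add (by positivity) (by positivity), two_mul]
        _ = ENNReal.ofReal (((N : ℝ) + 1) * ((N + 1) * (2 * (C / (N : ℝ) ^ 4)))) := by
            have h5 : ENNReal.ofReal ((N : ℝ) + 1) = ((N + 1 : ℕ) : ENNReal) := by
              rw [← ENNReal.ofReal_natCast]
              push_cast
              rfl
            have h6 : ∀ x : ℝ, ENNReal.ofReal (((N : ℝ) + 1) * ((N + 1) * x)) =
                ((N + 1 : ℕ) : ENNReal) * (((N + 1 : ℕ) : ENNReal) * ENNReal.ofReal x) := by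
              intro x
              rw [ENNReal.ofReal_mul (by positivity), ENNReal.ofReal_mul (by positivity), h5]
            rw [h6, sum_const, sum_const, card_range, nsmul_eq_mul, nsmul_eq_mul]
        _ ≤ ENNReal.ofReal (8 * C * (1 / (N : ℝ) ^ 2)) := by
            apply ENNReal.ofReal_le_ofReal
            have hN0' : (0 : ℝ) < N := by linarith
            rw [show ((N : ℝ) + 1) * ((N + 1) * (2 * (C / (N : ℝ) ^ 4))) =
              (2 * C * ((N : ℝ) + 1) ^ 2) / (N : ℝ) ^ 4 by ring,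
              show 8 * C * (1 / (N : ℝ) ^ 2) = (8 * C * (N : ℝ) ^ 2) / (N : ℝ) ^ 4 by
                field_simp]
            gcongr ?_ / _
            have : ((N : ℝ) + 1) ^ 2 ≤ 4 * (N : ℝ) ^ 2 := by nlinarith
            nlinarith
    · simp only [hs, if_neg hN, measure_empty, zero_le]
  have hsum : ∑' N, P (s N) ≠ ⊤ := by
    have h1 : Summable fun N : ℕ => 8 * C * (1 / (N : ℝ) ^ 2) :=
      (Real.summable_one_div_nat_pow.2 (by norm_num)).mul_left _
    have h2 := ENNReal.ofReal_tsum_of_nonneg (fun N => by positivity) h1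
    exact ne_top_of_le_ne_top (by rw [← h2]; exact ENNReal.ofReal_ne_top) (ENNReal.tsum_le_tsum hsb)
  filter_upwards [ae_eventually_notMem hsum] with ω hω
  filter_upwards [hω, eventually_ge_atTop N0] with N h1 h2 Q h hQ hh
  simp only [hs, if_pos h2, Set.mem_iUnion, not_exists] at h1
  have h3 := h1 Q (mem_range.2 (by omega)) h (mem_range.2 (by omega))
  rw [Set.mem_union, not_or] at h3
  exact ⟨not_lt.1 h3.1, not_lt.1 h3.2⟩

end Pool.Agent.T2H31.HV
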