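import Pool.Agent.T2H31.HV.Stm

set_option autoImplicit false

/-! # G: the variance in terms of the pair sums -/

open Finset

namespace Pool.Agent.T2H31.HV

theorem card_Cl (Q : ℕ) (hQ : 1 ≤ Q) (b : ℕ → ℕ) (hb : ∀ p ∈ Q.primeFactors, b p < p) :
    (Cl Q b).card = Nat.totient Q := by
  obtain ⟨c, hc⟩ : ∃ c, ∀ p ∈ Q.primeFactors, c % p = b p := by
    have h := Nat.chineseRemainderOfFinset b id Q.primeFactors
      (fun p hp => (Nat.prime_of_mem_primeFactors hp).ne_zero)
      (fun p hp q hq hpq => (Nat.coprime_primes (Nat.prime_of_mem_primeFactors hp)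
        (Nat.prime_of_mem_primeFactors hq)).2 hpq)
    refine ⟨h.1, fun p hp => ?_⟩
    have h1 := h.2 p hp
    rw [Nat.ModEq, id, Nat.mod_eq_of_lt (hb p hp)] at h1
    exact h1
  set c' := Q - c % Q with hc'
  have hlt : c % Q < Q := Nat.mod_lt _ hQ
  have hdiv : Q ∣ c + c' := by
    refine ⟨c / Q + 1, ?_⟩
    have := Nat.div_add_mod c Q
    rw [mul_add, mul_one]
    omega
  have key : ∀ A p, p ∈ Q.primeFactors → (p ∣ A + c' ↔ A % p = b p) := by
    intro A p hp
    have hpQ := Nat.dvd_of_mem_primeFactors hp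
    have h0 : p ∣ c + c' := hpQ.trans hdiv
    rw [← hc p hp]
    constructor
    · intro h
      have h1 : A + c' ≡ c + c' [MOD p] := by
        rw [Nat.ModEq, Nat.mod_eq_zero_of_dvd h, Nat.mod_eq_zero_of_dvd h0]
      exact Nat.ModEq.add_right_cancel' _ h1
    · intro h
      have h1 : A ≡ c [MOD p] := h
      have h2 := h1.add_right c'
      rw [Nat.ModEq, Nat.mod_eq_zero_of_dvd h0] at h2
      exact Nat.dvd_of_mod_eq_zero h2
  rw [← Nat.filter_coprime_Ico_eq_totient Q c']
  apply card_nbij' (fun A => A + c') (fun x => x - c')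
  · intro A hA
    simp only [Cl, coe_filter, mem_range, Set.mem_ofPred_eq] at hA
    simp only [coe_filter, mem_Ico, Set.mem_ofPred_eq]
    refine ⟨by omega, ?_⟩
    by_contra hnc
    obtain ⟨p, hp, h1, h2⟩ := Nat.Prime.not_coprime_iff_dvd.1 hnc
    have hpf : p ∈ Q.primeFactors := Nat.mem_primeFactors.2 ⟨hp, h1, by omega⟩
    exact hA.2 p hpf ((key A p hpf).1 h2)
  · intro x hx
    simp only [coe_filter, mem_Ico, Set.mem_ofPred_eq] at hx
    simp only [Cl, coe_filter, mem_range, Set.mem_ofPred_eq]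
    refine ⟨by omega, fun p hp h => ?_⟩
    have h2 := (key (x - c') p hp).2 h
    rw [Nat.sub_add_cancel hx.1.1] at h2
    exact Nat.Prime.not_coprime_iff_dvd.2 ⟨p, Nat.prime_of_mem_primeFactors hp, Nat.dvd_of_mem_primeFactors hp, h2⟩ hx.2
  · intro A _
    simp
  · intro x hx
    simp only [coe_filter, mem_Ico, Set.mem_ofPred_eq] at hx
    exact Nat.sub_add_cancel hx.1.1

theorem sv_mul_self (z : ℕ → ℕ) (Q N : ℕ) (b : ℕ → ℕ) (n : ℕ) : sv z Q N b n * sv z Q N b n = sv z Q N b n := by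
  unfold sv
  split_ifs <;> simp

theorem T_G : P_G := by
  intro z hz hzn b N Q hQ hQN hb
  have hcard := card_Cl Q hQ b hb
  refine ⟨hcard, ?_⟩
  classical
  set w : ℕ → ℝ := fun n => Real.log n * sv z Q N b n with hw
  set I := Icc 3 N with hI
  set T : ℕ → ℝ := fun A => ∑ n ∈ I.filter (fun n => n % Q = A), w n with hT
  -- the survivors
  have hpsi : ∀ A ∈ Cl Q b, psiR z b N Q A = T A := by
    intro A hA
    simp only [Cl, mem_filter, mem_range] at hA
    simp only [psiR, hT]
    have hsub : ∀ n ∈ (Icc 1 N).filter (fun n => n ∈ T2H32.BF.R z b ∧ n % Q = A), Real.log n = w n := by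
      intro n hn
      simp only [mem_filter, mem_Icc] at hn
      obtain ⟨⟨h1, h2⟩, ⟨h3, h4⟩, h5⟩ := hn
      have : sv z Q N b n = 1 := by
        unfold sv
        rw [if_pos]
        intro p hp hp2
        rw [mem_PN] at hp
        rcases hp2 with h | h
        · exact h4 p h hp.2
        · have hpf : p ∈ Q.primeFactors := Nat.mem_primeFactors.2 ⟨hp.2, h, by omega⟩
          have := hA.2 p hpf
          rwa [← h5, Nat.mod_mod_of_dvd n h] at this
      rw [hw]
      simp [this]
    rw [sum_congr rfl hsub]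
    apply sum_subset
    · intro n hn
      simp only [mem_filter, mem_Icc] at hn
      rw [mem_filter, hI, mem_Icc]
      exact ⟨⟨hn.2.1.1, hn.1.2⟩, hn.2.2⟩
    · intro n hn hn'
      rw [mem_filter, hI, mem_Icc] at hn
      simp only [mem_filter, mem_Icc, not_and] at hn'
      have hnR : n ∉ T2H32.BF.R z b := fun h => hn' ⟨by omega, hn.1.2⟩ h hn.2
      have : sv z Q N b n = 0 := by
        unfold sv
        rw [if_neg]
        intro h
        apply hnR
        refine ⟨hn.1.1, fun p hp hpp => ?_⟩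
        exact h p ((mem_PN N p).2 ⟨(hp.trans (hzn n)).trans hn.1.2, hpp⟩) (Or.inl hp)
      simp [this]
  have hzero : ∀ A ∈ range Q, A ∉ Cl Q b → T A = 0 := by
    intro A hA hA'
    simp only [Cl, mem_filter, not_and, not_forall] at hA'
    obtain ⟨p, hp, hp2⟩ := hA' hA
    rw [not_not] at hp2
    simp only [hT]
    apply sum_eq_zero
    intro n hn
    rw [mem_filter, hI, mem_Icc] at hn
    have hpQ := Nat.dvd_of_mem_primeFactors hp
    have hpp := Nat.prime_of_mem_primeFactors hp
    have : sv z Q N b n = 0 := by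
      unfold sv
      rw [if_neg]
      intro h
      have h1 := h p ((mem_PN N p).2 ⟨(Nat.le_of_dvd hQ hpQ).trans hQN, hpp⟩) (Or.inr hpQ)
      apply h1
      rw [← Nat.mod_mod_of_dvd n hpQ, hn.2, hp2]
    rw [hw]
    simp [this]
  have hCl : Cl Q b ⊆ range Q := filter_subset _ _
  have hs1 : ∑ A ∈ Cl Q b, psiR z b N Q A = ∑ n ∈ I, w n := by
    rw [sum_congr rfl hpsi, sum_subset hCl (fun A hA hA' => hzero A hA hA')]
    simp only [hT]
    exact sum_fiberwise_of_maps_to (fun n _ => mem_range.2 (Nat.mod_lt n hQ)) _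
  have hs2 : ∑ A ∈ Cl Q b, psiR z b N Q A ^ 2 = ∑ n ∈ I, w n * T (n % Q) := by
    have h1 : ∑ A ∈ Cl Q b, psiR z b N Q A ^ 2 = ∑ A ∈ range Q, T A ^ 2 := by
      rw [← sum_subset hCl (fun A hA hA' => by rw [hzero A hA hA']; simp)]
      exact sum_congr rfl fun A hA => by rw [hpsi A hA]
    rw [h1, ← sum_fiberwise_of_maps_to (s := I) (t := range Q) (g := fun n => n % Q)
      (fun n _ => mem_range.2 (Nat.mod_lt n hQ))]
    apply sum_congr rfl
    intro A _
    rw [sq]
    conv_lhs => rw [hT]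
    simp only
    rw [sum_mul]
    apply sum_congr rfl
    intro n hn
    rw [mem_filter] at hn
    rw [hn.2]
  -- splitting of the inner sum
  have hsplit : ∀ n ∈ I, w n * T (n % Q) = w n * w n +
      (∑ m ∈ I.filter (fun m => m % Q = n % Q ∧ n < m), w n * w m) +
      ∑ m ∈ I.filter (fun m => m % Q = n % Q ∧ m < n), w n * w m := by
    intro n hn
    have h1 : I.filter (fun m => m % Q = n % Q) =
        insert n (I.filter (fun m => m % Q = n % Q ∧ n < m) ∪ I.filter (fun m => m % Q = n % Q ∧ m < n)) := by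
      ext m
      simp only [mem_filter, mem_insert, mem_union]
      constructor
      · rintro ⟨h1, h2⟩
        rcases lt_trichotomy n m with h | h | h
        · exact Or.inr (Or.inl ⟨h1, h2, h⟩)
        · exact Or.inl h.symm
        · exact Or.inr (Or.inr ⟨h1, h2, h⟩)
      · rintro (h | h | h)
        · subst h
          exact ⟨hn, rfl⟩
        · exact ⟨h.1, h.2.1⟩
        · exact ⟨h.1, h.2.1⟩
    have h2 : n ∉ I.filter (fun m => m % Q = n % Q ∧ n < m) ∪ I.filter (fun m => m % Q = n % Q ∧ m < n) := by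
      simp
    have h3 : Disjoint (I.filter (fun m => m % Q = n % Q ∧ n < m)) (I.filter (fun m => m % Q = n % Q ∧ m < n)) := by
      rw [disjoint_left]
      intro m hm hm'
      rw [mem_filter] at hm hm'
      omega
    simp only [hT]
    rw [h1, sum_insert h2, sum_union h3, mul_add, mul_add, mul_sum, mul_sum, ← add_assoc]
  have hswap : ∑ n ∈ I, ∑ m ∈ I.filter (fun m => m % Q = n % Q ∧ m < n), w n * w m =
      ∑ n ∈ I, ∑ m ∈ I.filter (fun m => m % Q = n % Q ∧ n < m), w n * w m := by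
    rw [sum_comm' (t' := I) (s' := fun m => I.filter (fun n => n % Q = m % Q ∧ m < n))]
    · apply sum_congr rfl
      intro n _
      apply sum_congr rfl
      intro m _
      exact mul_comm _ _
    · intro n m
      simp only [mem_filter]
      constructor
      · rintro ⟨h1, h2, h3, h4⟩
        exact ⟨⟨h1, h3.symm, h4⟩, h2⟩
      · rintro ⟨⟨h1, h3, h4⟩, h2⟩
        exact ⟨h1, h2, h3.symm, h4⟩
  have hpairs : ∑ n ∈ I, ∑ m ∈ I.filter (fun m => m % Q = n % Q ∧ n < m), w n * w m =
      ∑ j ∈ Icc 1 (N / Q), ∑ n ∈ Ico 3 (N + 1 - j * Q), w n * w (n + j * Q) := by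
    rw [sum_sigma', sum_sigma']
    symm
    apply sum_nbij' (fun x => ⟨x.2, x.2 + x.1 * Q⟩) (fun x => ⟨(x.2 - x.1) / Q, x.1⟩)
    · rintro ⟨j, n⟩ hx
      simp only [mem_sigma, mem_Icc, mem_Ico] at hx
      simp only [mem_sigma, hI, mem_filter, mem_Icc]
      obtain ⟨⟨h1, h2⟩, h3, h4⟩ := hx
      have h5 : j * Q ≤ N := (Nat.mul_le_mul_right _ h2).trans (Nat.div_mul_le_self N Q)
      have h6 : 0 < j * Q := Nat.mul_pos (by omega) hQ
      refine ⟨⟨h3, by omega⟩, ⟨by omega, by omega⟩, ?_, by omega⟩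
      rw [Nat.add_mul_mod_self_right]
    · rintro ⟨n, m⟩ hx
      simp only [mem_sigma, hI, mem_filter, mem_Icc] at hx
      simp only [mem_sigma, mem_Icc, mem_Ico]
      obtain ⟨⟨h1, h2⟩, ⟨h3, h4⟩, h5, h6⟩ := hx
      have h7 : Q ∣ m - n := (Nat.modEq_iff_dvd' h6.le).1 h5.symm
      obtain ⟨j, hj⟩ := h7
      have h8 : (m - n) / Q = j := by rw [hj, Nat.mul_div_cancel_left _ hQ]
      rw [h8]
      have hj1 : 1 ≤ j := by
        by_contra h
        have : j = 0 := by omega
        rw [this] at hj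
        omega
      have h9 : j * Q = m - n := by rw [hj]; ring
      refine ⟨⟨hj1, ?_⟩, h1, by omega⟩
      rw [Nat.le_div_iff_mul_le hQ]
      omega
    · rintro ⟨j, n⟩ _
      simp only [Nat.add_sub_cancel_left, Nat.mul_div_cancel _ hQ]
    · rintro ⟨n, m⟩ hx
      simp only [mem_sigma, hI, mem_filter, mem_Icc] at hx
      obtain ⟨⟨h1, h2⟩, ⟨h3, h4⟩, h5, h6⟩ := hx
      have h7 : Q ∣ m - n := (Nat.modEq_iff_dvd' h6.le).1 h5.symm
      have h8 : n + (m - n) / Q * Q = m := by
        rw [Nat.div_mul_cancel h7]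
        omega
      simp only [h8]
    · rintro ⟨j, n⟩ _
      rfl
  -- the pair sums
  have hPF : ∀ j, PF z Q (j * Q) N (fun n => Real.log n * Real.log ((n + j * Q : ℕ) : ℝ)) b =
      ∑ n ∈ Ico 3 (N + 1 - j * Q), w n * w (n + j * Q) := by
    intro j
    unfold PF
    apply sum_congr rfl
    intro n _
    rw [hw]
    ring
  have hPF0 : PF z Q 0 N (fun n => Real.log n * Real.log ((n + 0 : ℕ) : ℝ)) b = ∑ n ∈ I, w n * w n := by
    unfold PF
    rw [show Ico 3 (N + 1 - 0) = I from by ext n; simp [hI, Nat.lt_succ_iff]]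
    apply sum_congr rfl
    intro n _
    rw [hw, add_zero]
    ring
  have hPF1 : PF z Q 0 N (fun n => Real.log n) b = ∑ n ∈ I, w n := by
    unfold PF
    rw [show Ico 3 (N + 1 - 0) = I from by ext n; simp [hI, Nat.lt_succ_iff]]
    apply sum_congr rfl
    intro n _
    rw [add_zero, sv_mul_self]
  have hGR : GR z b N Q = (∑ A ∈ Cl Q b, psiR z b N Q A ^ 2) -
      2 * (N / Nat.totient Q) * (∑ A ∈ Cl Q b, psiR z b N Q A) + (N : ℝ) ^ 2 / Nat.totient Q := by
    unfold GR
    have h1 : ∀ A ∈ Cl Q b, (psiR z b N Q A - N / Nat.totient Q) ^ 2 =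
        psiR z b N Q A ^ 2 - 2 * (N / Nat.totient Q) * psiR z b N Q A + ((N : ℝ) / Nat.totient Q) ^ 2 := by
      intro A _
      ring
    rw [sum_congr rfl h1, sum_add_distrib, sum_sub_distrib, ← mul_sum, sum_const, hcard, nsmul_eq_mul]
    have hφ : (Nat.totient Q : ℝ) ≠ 0 := by
      have := Nat.totient_pos.2 hQ
      positivity
    congr 1
    field_simp
  rw [hGR, hs1, hs2, sum_congr rfl hsplit, sum_add_distrib, sum_add_distrib, hswap, hpairs, hPF0, hPF1]
  simp only [hPF]
  ring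

end Pool.Agent.T2H31.HV
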