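import Pool.Agent.T2H31.HV.Stm

set_option autoImplicit false

/-!
# Package L2: the mean square of the products of the centred class indicators over initial segments
-/

open Finset

namespace Pool.Agent.T2H31.HV

namespace L2

theorem sum_Pt_prod (s : Finset ℕ) (g : ℕ → ℕ → ℝ) :
    ∑ b ∈ Pt s, ∏ p ∈ s, g p (b p) = ∏ p ∈ s, ∑ r ∈ range p, g p r := by
  classical
  induction s using Finset.induction_on with
  | empty => simp [Pt_empty]
  | insert p s hp ih =>
    rw [sum_Pt_insert s p hp, prod_insert hp, ← ih, mul_comm, sum_mul]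
    refine sum_congr rfl fun b _ => ?_
    rw [mul_sum]
    refine sum_congr rfl fun r _ => ?_
    rw [prod_insert hp, Function.update_self, mul_comm]
    congr 1
    refine prod_congr rfl fun q hq => ?_
    have hqp : q ≠ p := fun h => hp (h ▸ hq)
    rw [Function.update_of_ne hqp]

theorem sum_uu (p n n' : ℕ) (hp : 0 < p) :
    ∑ r ∈ range p, uu p n r * uu p n' r = (if n % p = n' % p then 1 else 0) + (-(1 / (p : ℝ))) := by
  unfold uu
  have hp' : (p : ℝ) ≠ 0 := by positivity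
  have h1 : ∀ m : ℕ, ∑ r ∈ range p, (if m % p = r then (1 : ℝ) else 0) = 1 := by
    intro m
    rw [sum_ite_eq (range p) (m % p) (fun _ => (1 : ℝ)), if_pos (mem_range.2 (Nat.mod_lt _ hp))]
  have h2 : ∑ r ∈ range p, (if n % p = r then (1 : ℝ) else 0) * (if n' % p = r then (1 : ℝ) else 0) =
      if n % p = n' % p then 1 else 0 := by
    simp_rw [ite_mul, one_mul, zero_mul]
    rw [sum_ite_eq (range p) (n % p) (fun r => if n' % p = r then (1 : ℝ) else 0),
      if_pos (mem_range.2 (Nat.mod_lt _ hp))]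
    by_cases h : n % p = n' % p
    · simp [h]
    · rw [if_neg h, if_neg (Ne.symm h)]
  have h3 : ∀ r ∈ range p, ((if n % p = r then (1 : ℝ) else 0) - 1 / p) * ((if n' % p = r then (1 : ℝ) else 0) - 1 / p) =
      (if n % p = r then (1 : ℝ) else 0) * (if n' % p = r then (1 : ℝ) else 0)
        - (1 / p) * (if n % p = r then (1 : ℝ) else 0) - (1 / p) * (if n' % p = r then (1 : ℝ) else 0)
        + 1 / p * (1 / p) := fun r _ => by ring
  rw [sum_congr rfl h3, sum_add_distrib, sum_sub_distrib, sum_sub_distrib, h2, ← mul_sum, ← mul_sum, h1, h1,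
    sum_const, card_range, nsmul_eq_mul]
  field_simp
  ring

theorem modEq_prod (t : Finset ℕ) (ht : ∀ p ∈ t, p.Prime) (n n' : ℕ) :
    (∀ p ∈ t, n % p = n' % p) ↔ n ≡ n' [MOD ∏ p ∈ t, p] := by
  classical
  induction t using Finset.induction_on with
  | empty => simp [Nat.modEq_one]
  | insert p t hp ih =>
    rw [prod_insert hp, ← Nat.modEq_and_modEq_iff_modEq_mul, ← ih fun q hq => ht q (mem_insert_of_mem hq)]
    · simp [Nat.ModEq]
    · refine Nat.Coprime.prod_right fun q hq => ?_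
      exact (Nat.coprime_primes (ht p (mem_insert_self _ _)) (ht q (mem_insert_of_mem hq))).2
        fun h => hp (h ▸ hq)

theorem count_bound (e j n : ℕ) (he : 0 < e) :
    |∑ n' ∈ range j, (if n ≡ n' [MOD e] then (1 : ℝ) else 0) - j / e| ≤ 1 := by
  have h1 : ∑ n' ∈ range j, (if n ≡ n' [MOD e] then (1 : ℝ) else 0) =
      ((Nat.count (· ≡ n [MOD e]) j : ℕ) : ℝ) := by
    rw [Nat.count_eq_card_filter_range, ← Finset.sum_boole]
    refine sum_congr rfl fun x _ => ?_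
    by_cases h : n ≡ x [MOD e]
    · rw [if_pos h, if_pos h.symm]
    · rw [if_neg h, if_neg fun h' => h h'.symm]
  rw [h1, Nat.count_modEq_card _ he]
  have he' : (0 : ℝ) < e := by exact_mod_cast he
  have h2 : ((j / e : ℕ) : ℝ) ≤ (j : ℝ) / e := Nat.cast_div_le
  have h3 : (j : ℝ) / e < ((j / e : ℕ) : ℝ) + 1 := by
    rw [div_lt_iff₀ he']
    have := Nat.lt_div_mul_add (a := j) he
    have h4 : j < (j / e + 1) * e := by
      rw [add_mul, one_mul]; exact this
    exact_mod_cast h4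
  rw [abs_le]
  push_cast
  split_ifs <;> constructor <;> simp <;> linarith

theorem pair_bound (e j : ℕ) (he : 0 < e) :
    |∑ n ∈ range j, ∑ n' ∈ range j, (if n ≡ n' [MOD e] then (1 : ℝ) else 0) - (j : ℝ) ^ 2 / e| ≤ j := by
  have h1 : ∑ n ∈ range j, ∑ n' ∈ range j, (if n ≡ n' [MOD e] then (1 : ℝ) else 0) - (j : ℝ) ^ 2 / e =
      ∑ n ∈ range j, (∑ n' ∈ range j, (if n ≡ n' [MOD e] then (1 : ℝ) else 0) - j / e) := by
    rw [sum_sub_distrib, sum_const, card_range, nsmul_eq_mul]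
    ring
  rw [h1]
  refine (abs_sum_le_sum_abs _ _).trans ?_
  refine (sum_le_sum fun n _ => count_bound e j n he).trans ?_
  simp

end L2

open L2 in
/-- the version with shifts -/
theorem L2.general (s : Finset ℕ) (hs : ∀ p ∈ s, p.Prime) (hne : s.Nonempty) (τ : ℕ → ℕ) (j : ℕ) :
    ∑ b ∈ Pt s, (∑ n ∈ range j, ∏ p ∈ s, uu p (n + τ p) (b p)) ^ 2 ≤ j * (3 / 2 : ℝ) ^ s.card := by
  classical
  have hprod : ∀ t ⊆ s, 0 < ∏ p ∈ t, p := fun t ht => prod_pos fun p hp => (hs p (ht hp)).pos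
  have h1 : ∑ b ∈ Pt s, (∑ n ∈ range j, ∏ p ∈ s, uu p (n + τ p) (b p)) ^ 2 =
      ∑ n ∈ range j, ∑ n' ∈ range j, ∏ p ∈ s, ((if n % p = n' % p then 1 else 0) + (-(1 / (p : ℝ)))) := by
    have h2 : ∀ b ∈ Pt s, (∑ n ∈ range j, ∏ p ∈ s, uu p (n + τ p) (b p)) ^ 2 =
        ∑ n ∈ range j, ∑ n' ∈ range j, ∏ p ∈ s, (uu p (n + τ p) (b p) * uu p (n' + τ p) (b p)) := by
      intro b _
      rw [sq, sum_mul_sum]
      simp_rw [prod_mul_distrib]
    rw [sum_congr rfl h2, sum_comm]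
    refine sum_congr rfl fun n _ => ?_
    rw [sum_comm]
    refine sum_congr rfl fun n' _ => ?_
    rw [sum_Pt_prod s fun p r => uu p (n + τ p) r * uu p (n' + τ p) r]
    refine prod_congr rfl fun p hp => ?_
    rw [sum_uu p (n + τ p) (n' + τ p) (hs p hp).pos]
    congr 1
    refine if_congr ?_ rfl rfl
    exact ⟨fun h => Nat.ModEq.add_right_cancel' (τ p) h, fun h => Nat.ModEq.add_right (τ p) h⟩
  have h3 : ∀ n n' : ℕ, ∏ p ∈ s, ((if n % p = n' % p then 1 else 0) + (-(1 / (p : ℝ)))) =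
      ∑ t ∈ s.powerset, (∏ p ∈ s \ t, (-(1 / (p : ℝ)))) * (if n ≡ n' [MOD ∏ p ∈ t, p] then (1 : ℝ) else 0) := by
    intro n n'
    rw [prod_add]
    refine sum_congr rfl fun t ht => ?_
    rw [mul_comm]
    congr 1
    rw [prod_ite_zero]
    simp only [prod_const_one]
    refine if_congr ?_ rfl rfl
    exact modEq_prod t (fun p hp => hs p (mem_powerset.1 ht hp)) n n'
  set A : Finset ℕ → ℝ := fun t => ∑ n ∈ range j, ∑ n' ∈ range j,
    (if n ≡ n' [MOD ∏ p ∈ t, p] then (1 : ℝ) else 0) with hA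
  set cc : Finset ℕ → ℝ := fun t => ∏ p ∈ s \ t, (-(1 / (p : ℝ))) with hcc
  have h4 : ∑ b ∈ Pt s, (∑ n ∈ range j, ∏ p ∈ s, uu p (n + τ p) (b p)) ^ 2 = ∑ t ∈ s.powerset, cc t * A t := by
    rw [h1]
    simp_rw [h3]
    have h5 : ∀ n ∈ range j, ∑ n' ∈ range j, ∑ t ∈ s.powerset, (∏ p ∈ s \ t, (-(1 / (p : ℝ)))) *
        (if n ≡ n' [MOD ∏ p ∈ t, p] then (1 : ℝ) else 0) = ∑ t ∈ s.powerset, cc t * ∑ n' ∈ range j,
        (if n ≡ n' [MOD ∏ p ∈ t, p] then (1 : ℝ) else 0) := by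
      intro n _
      rw [sum_comm]
      exact sum_congr rfl fun t _ => (mul_sum _ _ _).symm
    rw [sum_congr rfl h5, sum_comm]
    exact sum_congr rfl fun t _ => (mul_sum _ _ _).symm
  have h6 : ∑ t ∈ s.powerset, cc t * ((j : ℝ) ^ 2 / ((∏ p ∈ t, p : ℕ) : ℝ)) = 0 := by
    have h7 : ∏ p ∈ s, ((1 / (p : ℝ)) + (-(1 / (p : ℝ)))) = 0 := by
      obtain ⟨p, hp⟩ := hne
      exact prod_eq_zero hp (by ring)
    rw [prod_add] at h7
    have h8 : ∑ t ∈ s.powerset, cc t * ((j : ℝ) ^ 2 / ((∏ p ∈ t, p : ℕ) : ℝ)) =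
        (j : ℝ) ^ 2 * ∑ t ∈ s.powerset, (∏ p ∈ t, (1 / (p : ℝ))) * ∏ p ∈ s \ t, (-(1 / (p : ℝ))) := by
      rw [mul_sum]
      refine sum_congr rfl fun t _ => ?_
      rw [prod_div_distrib, prod_const_one, Nat.cast_prod, hcc]
      ring
    rw [h8, h7, mul_zero]
  have h9 : ∑ t ∈ s.powerset, cc t * A t =
      ∑ t ∈ s.powerset, cc t * (A t - (j : ℝ) ^ 2 / ((∏ p ∈ t, p : ℕ) : ℝ)) := by
    simp_rw [mul_sub]
    rw [sum_sub_distrib, h6, sub_zero]
  rw [h4, h9]
  have h10 : ∀ t ∈ s.powerset, cc t * (A t - (j : ℝ) ^ 2 / ((∏ p ∈ t, p : ℕ) : ℝ)) ≤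
      (∏ p ∈ t, (1 : ℝ)) * (∏ p ∈ s \ t, (1 / (p : ℝ))) * j := by
    intro t ht
    have h11 := pair_bound (∏ p ∈ t, p) j (hprod t (mem_powerset.1 ht))
    have h12 : |cc t| = ∏ p ∈ s \ t, (1 / (p : ℝ)) := by
      rw [hcc]
      simp only
      rw [abs_prod]
      refine prod_congr rfl fun p _ => ?_
      rw [abs_neg, abs_of_nonneg (by positivity)]
    rw [prod_const_one, one_mul, ← h12]
    refine (le_abs_self _).trans ?_
    rw [abs_mul]
    exact mul_le_mul_of_nonneg_left h11 (abs_nonneg _)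
  refine (sum_le_sum h10).trans ?_
  rw [← sum_mul, ← prod_add, mul_comm]
  refine mul_le_mul_of_nonneg_left ?_ (Nat.cast_nonneg _)
  rw [← prod_const]
  refine prod_le_prod (fun p _ => by positivity) fun p hp => ?_
  have h13 : (2 : ℝ) ≤ p := by exact_mod_cast (hs p hp).two_le
  have h14 : 1 / (p : ℝ) ≤ 1 / 2 := one_div_le_one_div_of_le (by norm_num) h13
  linarith

/-- **L2** -/
theorem T_L2 : P_L2 := fun s hs hne j => by simpa using L2.general s hs hne (fun _ => 0) j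

end Pool.Agent.T2H31.HV
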