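import Pool.Agent.T2H31.HV.Stm

set_option autoImplicit false

/-!
# Package MOM: the moments of a sum of components on the product space
-/

open Finset

namespace Pool.Agent.T2H31.HV

/-- the mean value does not change if coordinates on which the function does not depend are added -/
theorem Ev_union (U : Finset ℕ) (G : (ℕ → ℕ) → ℝ) (hG : Dep U G) (W : Finset ℕ) :
    (∀ p ∈ W, 0 < p) → Disjoint W U → Ev (W ∪ U) G = Ev U G := by
  classical
  induction W using Finset.induction_on with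
  | empty =>
    intro _ _
    rw [empty_union]
  | insert p W hp ih =>
    intro h0 hd
    have hd' : Disjoint W U := hd.mono_left (subset_insert _ _)
    have hpU : p ∉ U := fun h => (disjoint_left.1 hd) (mem_insert_self p W) h
    have hpW : p ∉ W ∪ U := by
      rw [mem_union]
      tauto
    rw [← ih (fun q hq => h0 q (mem_insert_of_mem hq)) hd', insert_union]
    unfold Ev
    rw [sum_Pt_insert (W ∪ U) p hpW, prod_insert hpW]
    have e : ∀ b : ℕ → ℕ, ∑ r ∈ range p, G (Function.update b p r) = p * G b := by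
      intro b
      have : ∀ r ∈ range p, G (Function.update b p r) = G b := by
        intro r _
        apply hG
        intro q hq
        have hqp : q ≠ p := fun h => hpU (h ▸ hq)
        rw [Function.update_of_ne hqp]
      rw [sum_congr rfl this, sum_const, card_range, nsmul_eq_mul]
    simp only [e]
    rw [← mul_sum, mul_inv]
    have hp0 : (p : ℝ) ≠ 0 := by
      have := h0 p (mem_insert_self _ _)
      positivity
    field_simp

theorem Ev_eq_of_dep (S U : Finset ℕ) (hUS : U ⊆ S) (hS : ∀ p ∈ S, 0 < p) (G : (ℕ → ℕ) → ℝ) (hG : Dep U G) :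
    Ev S G = Ev U G := by
  classical
  have h := Ev_union U G hG (S \ U) (fun p hp => hS p (sdiff_subset hp)) sdiff_disjoint
  rwa [sdiff_union_of_subset hUS] at h

/-- a product with a factor with mean value zero in a coordinate on which the others do not depend -/
theorem Ev_vanish {n : ℕ} (S : Finset ℕ) (F : Finset ℕ → (ℕ → ℕ) → ℝ) (σ : Fin n → Finset ℕ)
    (hD : ∀ i, Dep (σ i) (F (σ i))) (p : ℕ) (hpS : p ∈ S) (i0 : Fin n)
    (hz : ∀ b, ∑ r ∈ range p, F (σ i0) (Function.update b p r) = 0) (hi : ∀ i, i ≠ i0 → p ∉ σ i) :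
    Ev S (fun b => ∏ i, F (σ i) b) = 0 := by
  classical
  unfold Ev
  rw [← insert_erase hpS, sum_Pt_insert (S.erase p) p (notMem_erase _ _)]
  have : ∀ b : ℕ → ℕ, ∑ r ∈ range p, ∏ i, F (σ i) (Function.update b p r) = 0 := by
    intro b
    have e : ∀ r, ∏ i, F (σ i) (Function.update b p r) =
        F (σ i0) (Function.update b p r) * ∏ i ∈ univ.erase i0, F (σ i) b := by
      intro r
      rw [← mul_prod_erase univ _ (mem_univ i0)]
      congr 1
      refine prod_congr rfl fun i hi' => ?_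
      apply hD i
      intro q hq
      have hqp : q ≠ p := fun h => hi i (ne_of_mem_erase hi') (h ▸ hq)
      rw [Function.update_of_ne hqp]
    simp only [e]
    rw [← sum_mul, hz b, zero_mul]
  simp only [this, sum_const_zero, mul_zero]

theorem sqrt_pow' (C : ℝ) (hC : 0 ≤ C) (n : ℕ) : √(C ^ n) = √C ^ n := by
  have h : C ^ n = (√C ^ n) ^ 2 := by
    rw [← pow_mul, mul_comm n 2, pow_mul, Real.sq_sqrt hC]
  rw [h, Real.sqrt_sq (pow_nonneg (Real.sqrt_nonneg _) _)]

theorem powerset_sum (U : Finset ℕ) (M C : ℝ) (hM : 0 ≤ M) (hC : 0 ≤ C) :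
    ∑ s ∈ U.powerset, √(M * C ^ s.card) = √M * (1 + √C) ^ U.card := by
  have e : ∀ s ∈ U.powerset, √(M * C ^ s.card) = √M * (√C ^ s.card * 1 ^ (U.card - s.card)) := fun s _ => by
    rw [Real.sqrt_mul hM, sqrt_pow' C hC, one_pow, mul_one]
  rw [sum_congr rfl e, ← mul_sum, sum_pow_mul_eq_add_pow, add_comm]

/-- the bound for the mean value of one product -/
theorem Ev_prod_le (hFIN : P_FIN) {n : ℕ} (S : Finset ℕ) (F : Finset ℕ → (ℕ → ℕ) → ℝ) (M C : ℝ)
    (hS : ∀ p ∈ S, 0 < p) (hD : ∀ s ⊆ S, Dep s (F s))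
    (hz : ∀ s ⊆ S, ∀ p ∈ s, ∀ b, ∑ r ∈ range p, F s (Function.update b p r) = 0)
    (h2 : ∀ s ⊆ S, s.Nonempty → ∑ b ∈ Pt s, F s b ^ 2 ≤ M * C ^ s.card) (σ : Fin n → Finset ℕ)
    (hσ : ∀ i, σ i ⊆ S) (hσ0 : ∀ i, (σ i).Nonempty) :
    Ev S (fun b => ∏ i, F (σ i) b) ≤
      (∏ p ∈ univ.biUnion σ, (p : ℝ))⁻¹ * ∏ i, √(M * C ^ (σ i).card) := by
  classical
  set U := univ.biUnion σ with hU
  have hUS : U ⊆ S := by
    intro p hp
    obtain ⟨i, -, hi⟩ := mem_biUnion.1 hp
    exact hσ i hi
  have hpos : 0 ≤ (∏ p ∈ U, (p : ℝ))⁻¹ := inv_nonneg.2 (prod_nonneg fun p _ => Nat.cast_nonneg p)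
  by_cases hcase : ∀ p ∈ U, 2 ≤ (univ.filter fun i => p ∈ σ i).card
  · have hdep : Dep U (fun b => ∏ i, F (σ i) b) := by
      intro b b' hb
      refine prod_congr rfl fun i _ => ?_
      exact hD _ (hσ i) b b' fun p hp => hb p (mem_biUnion.2 ⟨i, mem_univ i, hp⟩)
    rw [Ev_eq_of_dep S U hUS hS _ hdep]
    unfold Ev
    apply mul_le_mul_of_nonneg_left _ hpos
    have h := hFIN U n σ (fun i b => |F (σ i) b|) (fun i b => abs_nonneg _)
      (fun i b b' hb => by
        show |_| = |_|
        rw [hD _ (hσ i) b b' hb])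
      (fun i p hp => mem_biUnion.2 ⟨i, mem_univ i, hp⟩) hcase
    calc ∑ b ∈ Pt U, ∏ i, F (σ i) b ≤ ∑ b ∈ Pt U, ∏ i, |F (σ i) b| := by
          apply sum_le_sum
          intro b _
          rw [← abs_prod]
          exact le_abs_self _
      _ ≤ _ := h
      _ ≤ ∏ i, √(M * C ^ (σ i).card) := by
          apply prod_le_prod (fun i _ => Real.sqrt_nonneg _)
          intro i _
          apply Real.sqrt_le_sqrt
          simp only [sq_abs]
          exact h2 _ (hσ i) (hσ0 i)
  · push Not at hcase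
    obtain ⟨p, hpU, hp2⟩ := hcase
    obtain ⟨i0, -, hi0⟩ := mem_biUnion.1 hpU
    have h1 : (univ.filter fun i => p ∈ σ i).card ≤ 1 := by omega
    have huniq : ∀ i, i ≠ i0 → p ∉ σ i := by
      intro i hi hpi
      apply hi
      exact card_le_one.1 h1 i (mem_filter.2 ⟨mem_univ _, hpi⟩) i0 (mem_filter.2 ⟨mem_univ _, hi0⟩)
    rw [Ev_vanish S F σ (fun i => hD _ (hσ i)) p (hUS hpU) i0 (hz _ (hσ i0) p hi0) huniq]
    exact mul_nonneg hpos (prod_nonneg fun i _ => Real.sqrt_nonneg _)

theorem T_MOM (hFIN : P_FIN) : P_MOM := by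
  classical
  intro S F M C k hS hM hC hD hz h2
  set T := S.powerset.erase ∅ with hT
  have hTm : ∀ s ∈ T, s ⊆ S ∧ s.Nonempty := by
    intro s hs
    obtain ⟨h1, h3⟩ := mem_erase.1 hs
    exact ⟨mem_powerset.1 h3, nonempty_iff_ne_empty.2 h1⟩
  have hexp : ∀ b : ℕ → ℕ, (∑ s ∈ T, F s b) ^ (2 * k) =
      ∑ σ ∈ Fintype.piFinset (fun _ : Fin (2 * k) => T), ∏ i, F (σ i) b := by
    intro b
    rw [← prod_univ_sum (fun _ : Fin (2 * k) => T) (fun _ s => F s b), prod_const, card_univ,
      Fintype.card_fin]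
  have hEv : Ev S (fun b => (∑ s ∈ T, F s b) ^ (2 * k)) =
      ∑ σ ∈ Fintype.piFinset (fun _ : Fin (2 * k) => T), Ev S (fun b => ∏ i, F (σ i) b) := by
    unfold Ev
    simp only [hexp]
    rw [sum_comm, mul_sum]
  rw [hEv]
  set g : (Fin (2 * k) → Finset ℕ) → ℝ := fun σ =>
    (∏ p ∈ univ.biUnion σ, (p : ℝ))⁻¹ * ∏ i, √(M * C ^ (σ i).card) with hg
  have hg0 : ∀ σ, 0 ≤ g σ := fun σ => mul_nonneg
    (inv_nonneg.2 (prod_nonneg fun p _ => Nat.cast_nonneg p)) (prod_nonneg fun i _ => Real.sqrt_nonneg _)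
  calc ∑ σ ∈ Fintype.piFinset (fun _ : Fin (2 * k) => T), Ev S (fun b => ∏ i, F (σ i) b)
      ≤ ∑ σ ∈ Fintype.piFinset (fun _ : Fin (2 * k) => T), g σ := by
        apply sum_le_sum
        intro σ hσ
        rw [Fintype.mem_piFinset] at hσ
        exact Ev_prod_le hFIN S F M C hS hD hz h2 σ (fun i => (hTm _ (hσ i)).1)
          (fun i => (hTm _ (hσ i)).2)
    _ = ∑ U ∈ S.powerset, ∑ σ ∈ (Fintype.piFinset (fun _ : Fin (2 * k) => T)).filter
          (fun σ => univ.biUnion σ = U), g σ := by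
        symm
        apply sum_fiberwise_of_maps_to
        intro σ hσ
        rw [Fintype.mem_piFinset] at hσ
        rw [mem_powerset]
        intro p hp
        obtain ⟨i, -, hi⟩ := mem_biUnion.1 hp
        exact (hTm _ (hσ i)).1 hi
    _ ≤ ∑ U ∈ S.powerset, (∏ p ∈ U, (p : ℝ))⁻¹ * (M ^ k * (1 + √C) ^ (2 * k * U.card)) := by
        apply sum_le_sum
        intro U _
        calc ∑ σ ∈ (Fintype.piFinset (fun _ : Fin (2 * k) => T)).filter
              (fun σ => univ.biUnion σ = U), g σ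
            = ∑ σ ∈ (Fintype.piFinset (fun _ : Fin (2 * k) => T)).filter
              (fun σ => univ.biUnion σ = U), (∏ p ∈ U, (p : ℝ))⁻¹ * ∏ i, √(M * C ^ (σ i).card) := by
              refine sum_congr rfl fun σ hσ => ?_
              rw [hg]
              simp only [(mem_filter.1 hσ).2]
          _ ≤ ∑ σ ∈ Fintype.piFinset (fun _ : Fin (2 * k) => U.powerset),
              (∏ p ∈ U, (p : ℝ))⁻¹ * ∏ i, √(M * C ^ (σ i).card) := by
              apply sum_le_sum_of_subset_of_nonneg
              · intro σ hσ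
                rw [Fintype.mem_piFinset]
                intro i
                rw [mem_powerset, ← (mem_filter.1 hσ).2]
                exact subset_biUnion_of_mem σ (mem_univ i)
              · intro σ _ _
                exact mul_nonneg (inv_nonneg.2 (prod_nonneg fun p _ => Nat.cast_nonneg p))
                  (prod_nonneg fun i _ => Real.sqrt_nonneg _)
          _ = (∏ p ∈ U, (p : ℝ))⁻¹ * (M ^ k * (1 + √C) ^ (2 * k * U.card)) := by
              rw [← mul_sum, ← prod_univ_sum (fun _ : Fin (2 * k) => U.powerset)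
                (fun _ s => √(M * C ^ s.card)), prod_const, card_univ, Fintype.card_fin,
                powerset_sum U M C hM hC, mul_pow, pow_mul √M, Real.sq_sqrt hM, ← pow_mul,
                mul_comm U.card]
    _ = M ^ k * ∏ p ∈ S, (1 + (1 + √C) ^ (2 * k) / (p : ℝ)) := by
        rw [prod_one_add, mul_sum]
        refine sum_congr rfl fun U _ => ?_
        rw [prod_div_distrib, prod_const, ← pow_mul]
        ring

end Pool.Agent.T2H31.HV
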