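import Pool.Agent.T2H31.HV.Stm

set_option autoImplicit false

/-! # RAT: the pair density against the singular series -/

open Finset MeasureTheory ProbabilityTheory Filter Topology

namespace Pool.Agent.T2H31.HV

namespace RAT

/-- the factors of `V (z n) * V (z (n + h)) * Sg N Q j` -/
noncomputable def gg (w w' Q j p : ℕ) : ℝ :=
  (if p ≤ w then 1 - 1 / (p : ℝ) else 1) * (if p ≤ w' then 1 - 1 / (p : ℝ) else 1) *
    (if p ∣ Q then (1 - 1 / (p : ℝ))⁻¹ else if p ∣ j then (p : ℝ) / (p - 1)
      else 1 - 1 / ((p : ℝ) - 1) ^ 2)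

/-- the quotients -/
noncomputable def qq (w w' Q j p : ℕ) : ℝ :=
  if p ≤ w then 1 else if p ∣ Q then (if p ≤ w' then 1 - 1 / (p : ℝ) else (1 - 1 / (p : ℝ)) ^ 2)
    else if p ∣ j then 1 - 1 / (p : ℝ) else (1 - 1 / ((p : ℝ) - 1) ^ 2)⁻¹

theorem factor {z : ℕ → ℕ} (hz : Monotone z) {Q j n p : ℕ} (hp : p.Prime) (h2 : 2 ≤ z n) :
    mf z Q (j * Q) n p = gg (z n) (z (n + j * Q)) Q j p * qq (z n) (z (n + j * Q)) Q j p := by
  have hp2 : (2 : ℝ) ≤ p := by exact_mod_cast hp.two_le
  have hp0 : (p : ℝ) ≠ 0 := by positivity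
  have hp1 : (p : ℝ) - 1 ≠ 0 := by
    intro h
    linarith
  have ha : (1 - 1 / (p : ℝ)) ≠ 0 := by
    intro h
    rw [sub_eq_zero, eq_comm, div_eq_one_iff_eq hp0] at h
    linarith
  have hzz : z n ≤ z (n + j * Q) := hz (Nat.le_add_right _ _)
  have hpp : (p : ℝ) / (p - 1) = (1 - 1 / (p : ℝ))⁻¹ := by
    field_simp
  unfold mf al be gg qq
  by_cases h1 : p ≤ z n
  · have h1' : p ≤ z (n + j * Q) := h1.trans hzz
    by_cases hQ : p ∣ Q
    · have hh : p ∣ j * Q := hQ.mul_left j
      simp only [h1, h1', hQ, hh, not_true_eq_false, and_false, if_false, true_or, if_true]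
      field_simp
      ring
    · by_cases hj : p ∣ j
      · have hh : p ∣ j * Q := hj.mul_right Q
        simp only [h1, h1', hQ, hh, hj, not_true_eq_false, and_false, if_false, true_or, if_true,
          hpp]
        field_simp
        ring
      · have hh : ¬ p ∣ j * Q := fun h => ((Nat.Prime.dvd_mul hp).1 h).elim hj hQ
        simp only [h1, h1', hQ, hh, hj, not_false_eq_true, and_true, if_false, true_or, if_true]
        field_simp
        ring
  · by_cases h1' : p ≤ z (n + j * Q)
    · by_cases hQ : p ∣ Q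
      · have hh : p ∣ j * Q := hQ.mul_left j
        simp only [h1, h1', hQ, hh, not_true_eq_false, and_false, if_false, true_or, if_true]
        field_simp
        ring
      · by_cases hj : p ∣ j
        · have hh : p ∣ j * Q := hj.mul_right Q
          simp only [h1, h1', hQ, hh, hj, not_true_eq_false, and_false, if_false, true_or,
            if_true, hpp]
          field_simp
          ring
        · have hh : ¬ p ∣ j * Q := fun h => ((Nat.Prime.dvd_mul hp).1 h).elim hj hQ
          have hs : (1 - 1 / ((p : ℝ) - 1) ^ 2) ≠ 0 := by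
            have h3 : (3 : ℝ) ≤ p := by
              have : 3 ≤ p := by omega
              exact_mod_cast this
            have h4 : 1 / ((p : ℝ) - 1) ^ 2 < 1 := by
              rw [div_lt_one (by positivity)]
              nlinarith
            intro h
            linarith
          simp only [h1, h1', hQ, hh, hj, or_self, false_and, if_false, true_or, if_true]
          rw [one_mul, mul_assoc, mul_inv_cancel₀ hs]
          ring
    · by_cases hQ : p ∣ Q
      · have hh : p ∣ j * Q := hQ.mul_left j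
        simp only [h1, h1', hQ, hh, not_true_eq_false, and_false, if_false, or_true, if_true]
        rw [one_mul, one_mul, pow_two, ← mul_assoc, inv_mul_cancel₀ ha]
        ring
      · by_cases hj : p ∣ j
        · have hh : p ∣ j * Q := hj.mul_right Q
          simp only [h1, h1', hQ, hh, hj, not_true_eq_false, and_false, if_false, or_self,
            if_true, hpp]
          rw [one_mul, one_mul, inv_mul_cancel₀ ha]
          simp
        · have hh : ¬ p ∣ j * Q := fun h => ((Nat.Prime.dvd_mul hp).1 h).elim hj hQ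
          have hs : (1 - 1 / ((p : ℝ) - 1) ^ 2) ≠ 0 := by
            have h3 : (3 : ℝ) ≤ p := by
              have : 3 ≤ p := by omega
              exact_mod_cast this
            have h4 : 1 / ((p : ℝ) - 1) ^ 2 < 1 := by
              rw [div_lt_one (by positivity)]
              nlinarith
            intro h
            linarith
          simp only [h1, h1', hQ, hh, hj, or_self, false_and, if_false]
          rw [one_mul, one_mul, mul_inv_cancel₀ hs]
          simp

theorem V_eq {m N : ℕ} (h : m ≤ N) :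
    T2H32.BF.V m = ∏ p ∈ PN N, if p ≤ m then 1 - 1 / (p : ℝ) else 1 := by
  unfold T2H32.BF.V PN
  rw [← prod_filter]
  congr 1
  ext p
  simp only [mem_filter, mem_range]
  constructor
  · rintro ⟨h1, h2⟩
    exact ⟨⟨by omega, h2⟩, by omega⟩
  · rintro ⟨⟨h1, h2⟩, h3⟩
    exact ⟨by omega, h2⟩

theorem Sg_eq {N Q j : ℕ} (hQ : 1 ≤ Q) (hQN : Q ≤ N) :
    Sg N Q j = ∏ p ∈ PN N, (if p ∣ Q then (1 - 1 / (p : ℝ))⁻¹ else if p ∣ j then (p : ℝ) / (p - 1)
      else 1 - 1 / ((p : ℝ) - 1) ^ 2) := by
  have h1 : (Q : ℝ) / Nat.totient Q = ∏ p ∈ (PN N).filter (fun p => p ∣ Q), (1 - 1 / (p : ℝ))⁻¹ := by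
    have e : (PN N).filter (fun p => p ∣ Q) = Q.primeFactors := by
      ext p
      rw [mem_filter, mem_PN, Nat.mem_primeFactors]
      constructor
      · rintro ⟨⟨h1, h2⟩, h3⟩
        exact ⟨h2, h3, by omega⟩
      · rintro ⟨h1, h2, h3⟩
        exact ⟨⟨(Nat.le_of_dvd (by omega) h2).trans hQN, h1⟩, h2⟩
    have h2 := Nat.totient_eq_mul_prod_factors Q
    have h3 : (Nat.totient Q : ℝ) = Q * ∏ p ∈ Q.primeFactors, (1 - (p : ℝ)⁻¹) := by
      have := congrArg (fun q : ℚ => (q : ℝ)) h2
      push_cast at this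
      exact this
    have hQ0 : (Q : ℝ) ≠ 0 := by positivity
    rw [e, prod_inv_distrib, h3]
    simp only [one_div]
    rw [div_eq_mul_inv, mul_inv, ← mul_assoc, mul_inv_cancel₀ hQ0, one_mul]
  unfold Sg PQ
  rw [h1, prod_ite (s := PN N) (p := fun p => p ∣ Q)]

theorem sp_nonneg {p : ℕ} (hp : p.Prime) : 0 ≤ 1 - 1 / ((p : ℝ) - 1) ^ 2 := by
  have hp2 : (2 : ℝ) ≤ p := by exact_mod_cast hp.two_le
  have : 1 / ((p : ℝ) - 1) ^ 2 ≤ 1 := by
    rw [div_le_one (by nlinarith)]
    nlinarith
  linarith

theorem Sg_nonneg {N Q j : ℕ} (hQ : 1 ≤ Q) (hQN : Q ≤ N) : 0 ≤ Sg N Q j := by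
  rw [Sg_eq hQ hQN]
  apply prod_nonneg
  intro p hp
  rw [mem_PN] at hp
  have hp2 : (2 : ℝ) ≤ p := by exact_mod_cast hp.2.two_le
  split_ifs
  · apply inv_nonneg.2
    rw [sub_nonneg, div_le_one (by linarith)]
    linarith
  · apply div_nonneg <;> linarith
  · exact sp_nonneg hp.2

theorem log_card {m N : ℕ} (hm : 1 ≤ m) (hmN : m ≤ N) :
    (m.primeFactors.card : ℝ) ≤ 2 * Real.log N := by
  have h1 : 2 ^ m.primeFactors.card ≤ N := by
    have h2 : 2 ^ m.primeFactors.card ≤ ∏ p ∈ m.primeFactors, p := by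
      rw [← prod_const]
      exact prod_le_prod' fun p hp => (Nat.prime_of_mem_primeFactors hp).two_le
    exact h2.trans ((Nat.le_of_dvd (by omega) (Nat.prod_primeFactors_dvd m)).trans hmN)
  have h2 : ((2 : ℝ) ^ m.primeFactors.card) ≤ N := by exact_mod_cast h1
  have h3 := Real.log_le_log (by positivity) h2
  rw [Real.log_pow] at h3
  have h4 := Real.log_two_gt_d9
  have h5 : (0 : ℝ) ≤ m.primeFactors.card := by positivity
  nlinarith

theorem lower {w w' Q j N : ℕ} (hw : 2 ≤ w) (hj : 1 ≤ j) (hQ : 1 ≤ Q) (hN : j * Q ≤ N) :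
    1 - 4 * Real.log N / w ≤ ∏ p ∈ PN N, qq w w' Q j p := by
  have hw' : (2 : ℝ) ≤ w := by exact_mod_cast hw
  have hm : 1 ≤ j * Q := Nat.mul_pos hj hQ
  set D := (PN N).filter fun p => p ∣ j * Q with hD
  have hDc : (D.card : ℝ) ≤ 2 * Real.log N := by
    refine le_trans ?_ (log_card hm hN)
    have : D ⊆ (j * Q).primeFactors := by
      intro p hp
      rw [hD, mem_filter, mem_PN] at hp
      exact Nat.mem_primeFactors.2 ⟨hp.1.2, hp.2, by omega⟩
    exact_mod_cast card_le_card this
  have h1 : (1 : ℝ) - 1 / w ≥ 0 := by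
    rw [ge_iff_le, sub_nonneg, div_le_one (by linarith)]
    linarith
  have h2 : ∏ p ∈ PN N, (if p ∣ j * Q then ((1 : ℝ) - 1 / w) ^ 2 else 1) ≤
      ∏ p ∈ PN N, qq w w' Q j p := by
    apply Finset.prod_le_prod
    · intro p _
      split_ifs
      · positivity
      · norm_num
    · intro p hp
      rw [mem_PN] at hp
      have hp2 : (2 : ℝ) ≤ p := by exact_mod_cast hp.2.two_le
      have hle1 : ((1 : ℝ) - 1 / w) ^ 2 ≤ 1 := by
        have : (0 : ℝ) ≤ 1 / w := by positivity
        nlinarith
      unfold qq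
      by_cases hpw : p ≤ w
      · simp only [hpw, if_true]
        split_ifs
        · exact hle1
        · exact le_rfl
      · have hpw' : (w : ℝ) ≤ p := by exact_mod_cast (by omega : w ≤ p)
        have h3 : (1 : ℝ) - 1 / w ≤ 1 - 1 / p := by
          have : 1 / (p : ℝ) ≤ 1 / w := one_div_le_one_div_of_le (by linarith) hpw'
          linarith
        have h3' : (1 : ℝ) - 1 / p ≤ 1 := by
          have : (0 : ℝ) ≤ 1 / p := by positivity
          linarith
        have h4 : ((1 : ℝ) - 1 / w) ^ 2 ≤ (1 - 1 / p) ^ 2 := by gcongr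
        have h5 : ((1 : ℝ) - 1 / p) ^ 2 ≤ 1 - 1 / p := by nlinarith
        simp only [hpw, if_false]
        by_cases hpQ : p ∣ Q
        · have hh : p ∣ j * Q := hpQ.mul_left j
          simp only [hpQ, hh, if_true]
          split_ifs
          · exact h4.trans h5
          · exact h4
        · by_cases hpj : p ∣ j
          · have hh : p ∣ j * Q := hpj.mul_right Q
            simp only [hpQ, hpj, hh, if_true, if_false]
            exact h4.trans h5
          · have hh : ¬ p ∣ j * Q := fun h => ((Nat.Prime.dvd_mul hp.2).1 h).elim hpj hpQ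
            simp only [hpQ, hpj, hh, if_false]
            have h6 : 0 < 1 - 1 / ((p : ℝ) - 1) ^ 2 := by
              have h3 : (3 : ℝ) ≤ p := by
                have : 3 ≤ p := by omega
                exact_mod_cast this
              have h4 : 1 / ((p : ℝ) - 1) ^ 2 < 1 := by
                rw [div_lt_one (by nlinarith)]
                nlinarith
              linarith
            rw [one_le_inv₀ h6]
            have : 0 ≤ 1 / ((p : ℝ) - 1) ^ 2 := by positivity
            linarith
  refine le_trans ?_ h2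
  rw [← prod_filter, prod_const, ← pow_mul, ← hD]
  have h3 := one_add_mul_le_pow (a := -(1 / (w : ℝ))) (by
    have : 1 / (w : ℝ) ≤ 1 := by
      rw [div_le_one (by linarith)]
      linarith
    linarith) (2 * D.card)
  have h4 : 1 + -(1 / (w : ℝ)) = 1 - 1 / w := by ring
  rw [h4] at h3
  refine le_trans ?_ h3
  push_cast
  have h5 : 4 * Real.log N / w = (4 * Real.log N) * (1 / w) := by ring
  have h6 : 2 * (D.card : ℝ) * (1 / w) ≤ 4 * Real.log N * (1 / w) := by
    apply mul_le_mul_of_nonneg_right _ (by positivity)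
    linarith
  rw [h5]
  linarith

/-- the factors of the telescoping product -/
noncomputable def rr (w m : ℕ) : ℝ := if m ≤ w then 1 else ((m : ℝ) - 1) ^ 2 / (m * (m - 2))

theorem rr_prod {w : ℕ} (hw : 2 ≤ w) : ∀ M, w ≤ M →
    ∏ m ∈ range (M + 1), rr w m = (w : ℝ) / (w - 1) * ((M - 1) / M) := by
  have hw' : (2 : ℝ) ≤ w := by exact_mod_cast hw
  apply Nat.le_induction
  · rw [prod_eq_one]
    · have : (w : ℝ) - 1 ≠ 0 := by
        intro h
        linarith
      field_simp
    · intro m hm
      rw [mem_range] at hm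
      unfold rr
      rw [if_pos (by omega)]
  · intro M hM ih
    have hM' : (w : ℝ) ≤ M := by exact_mod_cast hM
    rw [prod_range_succ, ih]
    unfold rr
    rw [if_neg (by omega)]
    push_cast
    have h1 : (w : ℝ) - 1 ≠ 0 := by
      intro h
      linarith
    have h2 : (M : ℝ) - 1 ≠ 0 := by
      intro h
      linarith
    have h3 : (M : ℝ) ≠ 0 := by
      intro h
      linarith
    have h4 : (M : ℝ) + 1 ≠ 0 := by
      intro h
      linarith
    have h5 : (M : ℝ) + 1 - 2 = M - 1 := by ring
    rw [h5]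
    field_simp
    ring

theorem upper {w w' Q j N : ℕ} (hw : 2 ≤ w) (hwN : w ≤ N) :
    ∏ p ∈ PN N, qq w w' Q j p ≤ 1 + 2 / w := by
  have hw' : (2 : ℝ) ≤ w := by exact_mod_cast hw
  have hN' : (w : ℝ) ≤ N := by exact_mod_cast hwN
  have hrr1 : ∀ m, 1 ≤ rr w m := by
    intro m
    unfold rr
    split_ifs with h
    · exact le_rfl
    · have h3 : (3 : ℝ) ≤ m := by
        have : 3 ≤ m := by omega
        exact_mod_cast this
      rw [one_le_div (by nlinarith)]
      nlinarith
  have h1 : ∏ p ∈ PN N, qq w w' Q j p ≤ ∏ m ∈ range (N + 1), rr w m := by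
    unfold PN
    rw [prod_filter]
    apply Finset.prod_le_prod
    · intro p _
      split_ifs with hp
      · have hp2 : (2 : ℝ) ≤ p := by exact_mod_cast hp.two_le
        have h3 : 0 ≤ 1 - 1 / (p : ℝ) := by
          rw [sub_nonneg, div_le_one (by linarith)]
          linarith
        unfold qq
        split_ifs
        · norm_num
        · exact h3
        · positivity
        · exact h3
        · exact inv_nonneg.2 (sp_nonneg hp)
      · norm_num
    · intro p _
      split_ifs with hp
      · have hp2 : (2 : ℝ) ≤ p := by exact_mod_cast hp.two_le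
        have h3 : 0 ≤ 1 - 1 / (p : ℝ) := by
          rw [sub_nonneg, div_le_one (by linarith)]
          linarith
        have h3' : (1 : ℝ) - 1 / p ≤ 1 := by
          have : (0 : ℝ) ≤ 1 / p := by positivity
          linarith
        unfold qq
        split_ifs with h4 h5 h6 h7
        · exact hrr1 p
        · exact h3'.trans (hrr1 p)
        · exact (by nlinarith : (1 - 1 / (p : ℝ)) ^ 2 ≤ 1).trans (hrr1 p)
        · exact h3'.trans (hrr1 p)
        · unfold rr
          rw [if_neg h4]
          have h3 : (3 : ℝ) ≤ p := by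
            have : 3 ≤ p := by omega
            exact_mod_cast this
          have h8 : (p : ℝ) - 1 ≠ 0 := by
            intro h
            linarith
          have h9 : (p : ℝ) - 2 ≠ 0 := by
            intro h
            linarith
          have h10 : (p : ℝ) ≠ 0 := by
            intro h
            linarith
          have h11 : 1 - 1 / ((p : ℝ) - 1) ^ 2 = (p * (p - 2)) / (p - 1) ^ 2 := by
            field_simp
            ring
          rw [h11, inv_div]
      · exact hrr1 p
  rw [rr_prod hw N hwN] at h1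
  refine h1.trans ?_
  have h2 : ((N : ℝ) - 1) / N ≤ 1 := by
    rw [div_le_one (by linarith)]
    linarith
  have h3 : 0 ≤ (w : ℝ) / (w - 1) := by
    apply div_nonneg <;> linarith
  calc (w : ℝ) / (w - 1) * ((N - 1) / N) ≤ (w : ℝ) / (w - 1) * 1 := by gcongr
    _ ≤ 1 + 2 / w := by
        rw [mul_one, div_le_iff₀ (by linarith)]
        have h4 : (1 + 2 / (w : ℝ)) * (w - 1) = w + 1 - 2 / w := by
          field_simp
          ring
        rw [h4]
        have h5 : 2 / (w : ℝ) ≤ 1 := by
          rw [div_le_one (by linarith)]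
          exact hw'
        linarith

end RAT

open RAT in
theorem T_RAT : P_RAT := by
  refine ⟨4, by norm_num, ?_⟩
  intro z hz N Q j n hN hQ hQN hjN hj h2 hzN
  have hh : j * Q ≤ N := by omega
  have hnN : n + j * Q ≤ N := by omega
  have hw1 : z n ≤ N := (hz (by omega : n ≤ N)).trans hzN
  have hw2 : z (n + j * Q) ≤ N := (hz hnN).trans hzN
  have hw' : (2 : ℝ) ≤ z n := by exact_mod_cast h2
  have hN' : (3 : ℝ) ≤ N := by exact_mod_cast hN
  have hlog : 1 ≤ Real.log N := by
    rw [Real.le_log_iff_exp_le (by linarith)]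
    have := Real.exp_one_lt_d9
    linarith
  have e1 : ∏ p ∈ PN N, gg (z n) (z (n + j * Q)) Q j p =
      T2H32.BF.V (z n) * T2H32.BF.V (z (n + j * Q)) * Sg N Q j := by
    unfold gg
    rw [prod_mul_distrib, prod_mul_distrib, ← V_eq hw1, ← V_eq hw2, ← Sg_eq hQ hQN]
  have e2 : ∏ p ∈ PN N, mf z Q (j * Q) n p =
      (∏ p ∈ PN N, gg (z n) (z (n + j * Q)) Q j p) *
        ∏ p ∈ PN N, qq (z n) (z (n + j * Q)) Q j p := by
    rw [← prod_mul_distrib]
    exact prod_congr rfl fun p hp => factor hz ((mem_PN N p).1 hp).2 h2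
  rw [e2, e1]
  set G := T2H32.BF.V (z n) * T2H32.BF.V (z (n + j * Q)) * Sg N Q j with hG
  have hG0 : 0 ≤ G :=
    mul_nonneg (mul_nonneg (T2H32.BF.V_pos _).le (T2H32.BF.V_pos _).le) (Sg_nonneg hQ hQN)
  set q := ∏ p ∈ PN N, qq (z n) (z (n + j * Q)) Q j p with hq
  have hlo : 1 - 4 * Real.log N / z n ≤ q := lower h2 hj hQ hh
  have hup : q ≤ 1 + 2 / z n := upper h2 hw1
  have hup' : 2 / (z n : ℝ) ≤ 4 * Real.log N / z n := by
    gcongr
    linarith
  have h3 : |G * q - G| = |q - 1| * G := by
    rw [show G * q - G = (q - 1) * G by ring, abs_mul, abs_of_nonneg hG0]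
  rw [h3]
  apply mul_le_mul_of_nonneg_right _ hG0
  rw [abs_le]
  constructor <;> linarith

end Pool.Agent.T2H31.HV
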