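import Pool.Agent.T2H31.HV.Stm

set_option autoImplicit false

/-!
# Package TR: transfer to the finite product space
-/

open Finset MeasureTheory ProbabilityTheory Filter Topology

namespace Pool.Agent.T2H31.HV

theorem T_TR : P_TR := by
  classical
  intro Ω _ P a h S F hS hF
  have hprob := T2H32.BF.prob h
  have hae := T2H32.BF.ae_lt h
  let E : (ℕ → ℕ) → Set Ω := fun b => {ω | ∀ p ∈ S, a p ω = b p}
  have hE : ∀ b, E b = ⋂ p ∈ S, a p ⁻¹' {b p} := by
    intro b
    ext ω
    simp [E]
  have hEm : ∀ b, MeasurableSet (E b) := by
    intro b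
    rw [hE]
    exact Finset.measurableSet_biInter _ fun p _ => h.measurable p (measurableSet_singleton _)
  have hEp : ∀ b ∈ Pt S, P.real (E b) = (∏ p ∈ S, (p : ℝ))⁻¹ := by
    intro b hb
    rw [mem_Pt] at hb
    rw [hE, Measure.real, h.independent.measure_inter_preimage_eq_mul S
      (fun p _ => measurableSet_singleton (b p)), ENNReal.toReal_prod, ← prod_inv_distrib]
    apply prod_congr rfl
    intro p hp
    have := h.uniform p (hS p hp) (b p) (hb.1 p hp)
    rw [one_div] at this
    exact this
  have hEq : (fun ω => F fun q => a q ω) =ᵐ[P]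
      fun ω => ∑ b ∈ Pt S, (E b).indicator (fun _ => F b) ω := by
    filter_upwards [hae] with ω hω
    set b0 : ℕ → ℕ := fun q => if q ∈ S then a q ω else 0 with hb0
    have hb0m : b0 ∈ Pt S := by
      rw [mem_Pt]
      refine ⟨fun p hp => ?_, fun p hp => ?_⟩
      · simp only [hb0, if_pos hp]
        exact hω p (hS p hp)
      · simp only [hb0, if_neg hp]
    rw [sum_eq_single b0]
    · have h1 : ω ∈ E b0 := by
        intro p hp
        simp only [hb0, if_pos hp]
      rw [Set.indicator_of_mem h1]
      apply hF
      intro p hp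
      simp only [hb0, if_pos hp]
    · intro b hb hne
      apply Set.indicator_of_notMem
      intro hmem
      apply hne
      rw [mem_Pt] at hb
      funext q
      by_cases hq : q ∈ S
      · simp only [hb0, if_pos hq]
        exact (hmem q hq).symm
      · simp only [hb0, if_neg hq]
        exact hb.2 q hq
    · intro hn
      exact absurd hb0m hn
  have hint : ∀ b ∈ Pt S, Integrable (fun ω => (E b).indicator (fun _ => F b) ω) P := by
    intro b _
    exact (integrable_const (F b)).indicator (hEm b)
  refine ⟨(integrable_finsetSum _ hint).congr hEq.symm, ?_⟩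
  rw [integral_congr_ae hEq, integral_finsetSum _ hint]
  unfold Ev
  rw [mul_sum]
  apply sum_congr rfl
  intro b hb
  rw [integral_indicator_const _ (hEm b), hEp b hb, smul_eq_mul]

end Pool.Agent.T2H31.HV
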