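import Pool.Agent.T2H31.HV.Stm

set_option autoImplicit false

/-! # Z: the sieving limit -/

open Finset MeasureTheory ProbabilityTheory Filter Topology

namespace Pool.Agent.T2H31.HV

namespace ZZ

open Pool.Agent.T2H32.BF

noncomputable def invF : ℕ →* ℝ where
  toFun n := (n : ℝ)⁻¹
  map_one' := by simp
  map_mul' a b := by push_cast; rw [mul_inv]

/-- `(V m)⁻¹ ≥ log (m + 1)` -/
theorem V_log (m : ℕ) : Real.log ((m : ℝ) + 1) ≤ (V m)⁻¹ := by
  have hf : ∀ {p : ℕ}, p.Prime → ‖invF p‖ < 1 := by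
    intro p hp
    have h2 : (2 : ℝ) ≤ p := by exact_mod_cast hp.two_le
    show ‖((p : ℝ))⁻¹‖ < 1
    rw [norm_inv, Real.norm_natCast]
    exact inv_lt_one_of_one_lt₀ (by linarith)
  obtain ⟨hs1, hs2⟩ :=
    EulerProduct.summable_and_hasSum_smoothNumbers_prod_primesBelow_geometric (f := invF) hf (m + 1)
  have e : (V m)⁻¹ = ∏ p ∈ (m + 1).primesBelow, (1 - invF p)⁻¹ := by
    unfold V
    rw [← prod_inv_distrib]
    refine prod_congr rfl fun p _ => ?_
    rw [one_div]
    rfl
  have h2 : Real.log ((m : ℝ) + 1) ≤ ∑ d ∈ Icc 1 m, ((d : ℝ))⁻¹ := by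
    have h := log_add_one_le_harmonic m
    push_cast at h
    refine h.trans (le_of_eq ?_)
    rw [harmonic_eq_sum_Icc]
    push_cast
    rfl
  rw [e, ← hs2.tsum_eq]
  refine h2.trans ?_
  have hmem : ∀ d ∈ Icc 1 m, d ∈ (m + 1).smoothNumbers := by
    intro d hd
    rw [mem_Icc] at hd
    exact Nat.mem_smoothNumbers_of_lt (by omega) (by omega)
  have h3 : ∑ d ∈ Icc 1 m, ((d : ℝ))⁻¹ =
      ∑ d : {x // x ∈ Icc 1 m}, invF (⟨d.1, hmem d.1 d.2⟩ : (m + 1).smoothNumbers) := by
    rw [← sum_coe_sort (Icc 1 m) (fun d => ((d : ℝ))⁻¹)]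
    rfl
  rw [h3]
  let φ : {x // x ∈ Icc 1 m} ↪ (m + 1).smoothNumbers :=
    ⟨fun d => ⟨d.1, hmem d.1 d.2⟩, fun a b hab => Subtype.ext (by simpa using hab)⟩
  have h4 : ∑ d : {x // x ∈ Icc 1 m}, invF (⟨d.1, hmem d.1 d.2⟩ : (m + 1).smoothNumbers) =
      ∑ x ∈ univ.map φ, invF (x : ℕ) := by
    rw [sum_map]
    rfl
  rw [h4]
  exact hs2.summable.sum_le_tsum _ fun x _ => by
    show (0 : ℝ) ≤ ((x : ℕ) : ℝ)⁻¹
    positivity

end ZZ

open ZZ Pool.Agent.T2H32.BF in
theorem T_Z : P_Z := by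
  refine ⟨?_, ?_, ?_⟩
  · intro n
    unfold z0
    rcases Set.eq_empty_or_nonempty {m : ℕ | (V m)⁻¹ ≤ Real.log n} with h | h
    · rw [h]
      simp
    · refine csSup_le h fun m hm => ?_
      have h1 : (V m)⁻¹ ≤ Real.log n := hm
      have h2 := (V_log m).trans h1
      have h3 : 0 < (V m)⁻¹ := inv_pos.2 (V_pos m)
      have hn : (0 : ℝ) < n := by
        rcases Nat.eq_zero_or_pos n with h0 | h0
        · rw [h0] at h1
          simp at h1
          linarith [V_pos m]
        · exact_mod_cast h0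
      rw [Real.log_le_log_iff (by positivity) hn] at h2
      have h4 : m + 1 ≤ n := by exact_mod_cast h2
      omega
  · have hg : (5 : ℝ) / 9 < Real.exp (-Real.eulerMascheroniConstant) := by
      rw [Real.exp_neg, lt_inv_comm₀ (by norm_num) (Real.exp_pos _)]
      have := expg
      norm_num
      linarith
    have h1 := mertens.eventually_const_lt hg
    have hc : Tendsto (fun n : ℕ => ⌈√(n : ℝ)⌉₊) atTop atTop :=
      (tendsto_nat_ceil_atTop (α := ℝ)).comp
        (Real.tendsto_sqrt_atTop.comp tendsto_natCast_atTop_atTop)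
    have h2 := hc.eventually h1
    have h3 : ∀ᶠ n : ℕ in atTop, 18 ≤ Real.log n :=
      (Real.tendsto_log_atTop.comp tendsto_natCast_atTop_atTop).eventually_ge_atTop 18
    filter_upwards [h2, h3, eventually_ge_atTop 1] with n hn1 hn3 hn4
    have hn4' : (1 : ℝ) ≤ n := by exact_mod_cast hn4
    set m := ⌈√(n : ℝ)⌉₊ with hm
    have hs1 : 1 ≤ √(n : ℝ) := Real.one_le_sqrt.2 hn4'
    have hm1 : √(n : ℝ) ≤ m := Nat.le_ceil _
    have hm2 : (m : ℝ) < √(n : ℝ) + 1 := Nat.ceil_lt_add_one (by positivity)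
    have hVm := V_pos m
    have h5 : Real.log m ≤ Real.log n / 2 + 1 := by
      have h6 : (m : ℝ) ≤ √(n : ℝ) * 2 := by linarith
      have h7 := Real.log_le_log (by linarith) h6
      rw [Real.log_mul (by positivity) (by norm_num), Real.log_sqrt (by positivity)] at h7
      have := Real.log_two_lt_d9
      linarith
    have h6 : (V m)⁻¹ ≤ Real.log n := by
      rw [inv_le_comm₀ hVm (by linarith)]
      have h7 : 5 / 9 * (Real.log n)⁻¹ * (Real.log n) < V m * Real.log m := by
        rw [mul_assoc, inv_mul_cancel₀ (by linarith)]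
        linarith
      have h8 : Real.log m ≤ 5 / 9 * Real.log n := by linarith
      have h9 : V m * Real.log m ≤ V m * (5 / 9 * Real.log n) := by gcongr
      have h10 : (5 / 9 : ℝ) < V m * (5 / 9 * Real.log n) := lt_of_lt_of_le hn1 h9
      rw [inv_le_iff_one_le_mul₀ (by linarith)]
      linarith
    have h7 : m ≤ z0 n := le_csSup (z0_bdd n) h6
    have h8 : (m : ℝ) ≤ z0 n := by exact_mod_cast h7
    exact hm1.trans h8
  · intro n hn
    have hlog : 1 ≤ Real.log n := by
      rw [Real.le_log_iff_exp_le (by positivity)]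
      have h2 := Real.exp_one_lt_d9
      have h3 : (3 : ℝ) ≤ n := by exact_mod_cast hn
      linarith
    have h0 : 1 ≤ z0 n := by
      refine le_csSup (z0_bdd n) ?_
      have e : V 1 = 1 := by
        unfold V
        rw [show (range (1 + 1)).filter Nat.Prime = ∅ by decide]
        simp
      show (V 1)⁻¹ ≤ Real.log n
      rw [e, inv_one]
      exact hlog
    have h3 := V_pos (z0 n)
    refine ⟨h0, ?_, ?_⟩
    · have h2 := z0_mem n hn
      rw [inv_le_iff_one_le_mul₀ h3] at h2
      linarith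
    · have h2 := z0_lt n
      have h4 := V_pos (z0 n + 1)
      have h5 := V_step (z0 n)
      have hz : (1 : ℝ) ≤ z0 n := by exact_mod_cast h0
      have h9 : Real.log n * V (z0 n + 1) < 1 := by
        have := mul_lt_mul_of_pos_right h2 h4
        rwa [inv_mul_cancel₀ h4.ne'] at this
      have h11 : V (z0 n) * Real.log n * (1 - 1 / ((z0 n : ℝ) + 1)) ≤ 1 := by
        have := mul_le_mul_of_nonneg_right h5 (by linarith : 0 ≤ Real.log n)
        nlinarith
      have h12 : 1 - 1 / ((z0 n : ℝ) + 1) = z0 n / (z0 n + 1) := by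
        field_simp
        ring
      rw [h12, ← mul_div_assoc, div_le_one (by linarith)] at h11
      have h13 : (1 : ℝ) + 1 / z0 n = (z0 n + 1) / z0 n := by
        field_simp
      rw [h13, le_div_iff₀ (by linarith)]
      exact h11

end Pool.Agent.T2H31.HV
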