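import Pool.Agent.T2H31.HV.Fin
import Pool.Agent.T2H31.HV.T_FIN
import Pool.Agent.T2H31.HV.T_MOM
import Pool.Agent.T2H31.HV.T_L2
import Pool.Agent.T2H31.HV.T_BV
import Pool.Agent.T2H31.HV.T_ANO
import Pool.Agent.T2H31.HV.T_TR
import Pool.Agent.T2H31.HV.T_FL
import Pool.Agent.T2H31.HV.T_Z
import Pool.Agent.T2H31.HV.T_RAT
import Pool.Agent.T2H31.HV.T_E1
import Pool.Agent.T2H31.HV.T_E3
import Pool.Agent.T2H31.HV.T_D1
import Pool.Agent.T2H31.HV.T_D2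
import Pool.Agent.T2H31.HV.T_D3
import Pool.Agent.T2H31.HV.T_D4
import Pool.Agent.T2H31.HV.T_D5
import Pool.Agent.T2H31.HV.T_G

set_option autoImplicit false

/-! # The final theorem -/

open Finset MeasureTheory ProbabilityTheory Filter Topology

namespace Pool.Agent.T2H31.HV

open T2H32.BF

theorem main_all (Ω : Type) [MeasurableSpace Ω] (P : Measure Ω) (a : ℕ → Ω → ℕ) (h : Model P a) :
    ∀ᵐ ω ∂P, (∀ Q : ℕ, 1 ≤ Q → (Cl Q (fun q => a q ω)).card = Nat.totient Q) ∧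
      ∀ ε δ : ℝ, 0 < ε → 0 < δ → ∀ᶠ X : ℝ in atTop, ∀ Q : ℕ, X ^ (1 / 2 + ε) < Q → (Q : ℝ) < X →
        |GX z0 (fun q => a q ω) X Q / (X * Real.log Q) - 1| ≤ δ := by
  have hBV := T_BV
  have hFL := T_FL (T_ANO hBV) (T_MOM T_FIN) T_TR
  exact main hFL (T_E1 T_Z) (T_E3 T_Z T_RAT) (T_D5 T_D1 T_D2 T_D3 T_D4) T_G T_Z Ω P a h

end Pool.Agent.T2H31.HV
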