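import Pool.Agent.T2H32.BF.Fin

set_option autoImplicit false

/-!
# Hooley's conjecture in the random sieve model: definitions and the finite product space
-/

open Finset MeasureTheory ProbabilityTheory Filter Topology

namespace Pool.Agent.T2H31.HV

/-- the primes up to `N` -/
def PN (N : ℕ) : Finset ℕ := (range (N + 1)).filter Nat.Prime

open Classical in
/-- the points of the product of the `range p`, `p ∈ S`, as functions on `ℕ` that vanish outside `S` -/
noncomputable def Pt (S : Finset ℕ) : Finset (ℕ → ℕ) :=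
  (S.pi fun p => range p).image fun f p => if h : p ∈ S then f p h else 0

/-- the mean value over the product of the `range p`, `p ∈ S` -/
noncomputable def Ev (S : Finset ℕ) (F : (ℕ → ℕ) → ℝ) : ℝ := (∏ p ∈ S, (p : ℝ))⁻¹ * ∑ b ∈ Pt S, F b

/-- `F` depends only on the coordinates in `S` -/
def Dep (S : Finset ℕ) (F : (ℕ → ℕ) → ℝ) : Prop := ∀ b b' : ℕ → ℕ, (∀ p ∈ S, b p = b' p) → F b = F b'

/-- `1` if `n` is in none of the classes `b p mod p` with `p ≤ N` and (`p ≤ z n` or `p ∣ Q`) -/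
noncomputable def sv (z : ℕ → ℕ) (Q N : ℕ) (b : ℕ → ℕ) (n : ℕ) : ℝ :=
  open Classical in if ∀ p ∈ PN N, (p ≤ z n ∨ p ∣ Q) → n % p ≠ b p then 1 else 0

/-- the weighted number of the pairs `n, n + h` of survivors -/
noncomputable def PF (z : ℕ → ℕ) (Q h N : ℕ) (c : ℕ → ℝ) (b : ℕ → ℕ) : ℝ :=
  ∑ n ∈ Ico 3 (N + 1 - h), c n * (sv z Q N b n * sv z Q N b (n + h))

/-- `1` if `p` sieves `n` and does not divide `h` -/
noncomputable def al (z : ℕ → ℕ) (Q h n p : ℕ) : ℝ := if (p ≤ z n ∨ p ∣ Q) ∧ ¬ p ∣ h then 1 else 0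

/-- `1` if `p` sieves `n + h` -/
noncomputable def be (z : ℕ → ℕ) (Q h n p : ℕ) : ℝ := if p ≤ z (n + h) ∨ p ∣ Q then 1 else 0

/-- the probability that neither `n` nor `n + h` is sieved by `p` -/
noncomputable def mf (z : ℕ → ℕ) (Q h n p : ℕ) : ℝ := 1 - (al z Q h n p + be z Q h n p) / p

/-- the expected value of `PF` -/
noncomputable def EF (z : ℕ → ℕ) (Q h N : ℕ) (c : ℕ → ℝ) : ℝ :=
  ∑ n ∈ Ico 3 (N + 1 - h), c n * ∏ p ∈ PN N, mf z Q h n p

/-- the centred indicator of the class `r` modulo `p` -/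
noncomputable def uu (p n r : ℕ) : ℝ := (if n % p = r then 1 else 0) - 1 / p

/-- the primes up to `N` that do not divide `Q` -/
def PQ (N Q : ℕ) : Finset ℕ := (PN N).filter fun p => ¬ p ∣ Q

/-- the singular series of the pair `0, j Q` -/
noncomputable def Sg (N Q j : ℕ) : ℝ :=
  (Q : ℝ) / Nat.totient Q * ∏ p ∈ PQ N Q, if p ∣ j then (p : ℝ) / (p - 1) else 1 - 1 / ((p : ℝ) - 1) ^ 2

/-- the squarefree `d ∈ [1, K]` prime to `Q` -/
def SF (Q K : ℕ) : Finset ℕ := (Icc 1 K).filter fun d => Squarefree d ∧ Nat.Coprime d Q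

/-- the divisor coefficients of the singular series -/
noncomputable def gd (N Q d : ℕ) : ℝ :=
  (d : ℝ) / (Nat.totient d : ℝ) ^ 2 * ∏ p ∈ (PQ N Q).filter (fun p => ¬ p ∣ d), (1 - 1 / ((p : ℝ) - 1) ^ 2)

/-- the sum of `1 / φ(d)` over the squarefree `d ≤ K` prime to `Q` -/
noncomputable def SQ (Q K : ℕ) : ℝ := ∑ d ∈ SF Q K, 1 / (Nat.totient d : ℝ)

/-- the classes modulo `Q` that are not sieved -/
def Cl (Q : ℕ) (b : ℕ → ℕ) : Finset ℕ := (range Q).filter fun A => ∀ p ∈ Q.primeFactors, A % p ≠ b p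

open Classical in
/-- the weighted number of the random primes `n ≤ N` in the class `A` modulo `Q` -/
noncomputable def psiR (z : ℕ → ℕ) (b : ℕ → ℕ) (N Q A : ℕ) : ℝ :=
  ∑ n ∈ (Icc 1 N).filter (fun n => n ∈ T2H32.BF.R z b ∧ n % Q = A), Real.log n

/-- the variance of the random primes in the classes modulo `Q` -/
noncomputable def GR (z : ℕ → ℕ) (b : ℕ → ℕ) (N Q : ℕ) : ℝ :=
  ∑ A ∈ Cl Q b, (psiR z b N Q A - N / Nat.totient Q) ^ 2

/-! ## The product space -/

theorem mem_Pt (S : Finset ℕ) (b : ℕ → ℕ) : b ∈ Pt S ↔ (∀ p ∈ S, b p < p) ∧ ∀ p ∉ S, b p = 0 := by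
  classical
  unfold Pt
  rw [mem_image]
  constructor
  · rintro ⟨f, hf, rfl⟩
    rw [Finset.mem_pi] at hf
    refine ⟨fun p hp => ?_, fun p hp => ?_⟩
    · simpa [hp] using hf p hp
    · simp [hp]
  · rintro ⟨h1, h2⟩
    refine ⟨fun p _ => b p, ?_, ?_⟩
    · rw [Finset.mem_pi]
      exact fun p hp => mem_range.2 (h1 p hp)
    · funext p
      by_cases hp : p ∈ S
      · simp [hp]
      · simp [hp, h2 p hp]

theorem Pt_empty : Pt ∅ = {fun _ => 0} := by
  ext b
  rw [mem_Pt, mem_singleton]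
  constructor
  · rintro ⟨-, h⟩
    funext p
    exact h p (notMem_empty p)
  · rintro rfl
    simp

theorem sum_Pt_insert (S : Finset ℕ) (p : ℕ) (hp : p ∉ S) (F : (ℕ → ℕ) → ℝ) :
    ∑ b ∈ Pt (insert p S), F b = ∑ b ∈ Pt S, ∑ r ∈ range p, F (Function.update b p r) := by
  rw [← sum_product']
  symm
  apply sum_nbij' (fun x => Function.update x.1 p x.2) (fun b => (Function.update b p 0, b p))
  · rintro ⟨b, r⟩ hx
    rw [mem_product, mem_Pt, mem_range] at hx
    obtain ⟨⟨h1, h2⟩, h3⟩ := hx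
    rw [mem_Pt]
    refine ⟨fun q hq => ?_, fun q hq => ?_⟩
    · by_cases hqp : q = p
      · subst hqp
        simpa using h3
      · simp only [Function.update_of_ne hqp]
        exact h1 q ((mem_insert.1 hq).resolve_left hqp)
    · have hqp : q ≠ p := fun h => hq (h ▸ mem_insert_self _ _)
      simp only [Function.update_of_ne hqp]
      exact h2 q (fun h => hq (mem_insert_of_mem h))
  · intro b hb
    rw [mem_Pt] at hb
    rw [mem_product, mem_Pt, mem_range]
    refine ⟨⟨fun q hq => ?_, fun q hq => ?_⟩, hb.1 p (mem_insert_self _ _)⟩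
    · have hqp : q ≠ p := fun h => hp (h ▸ hq)
      simp only [Function.update_of_ne hqp]
      exact hb.1 q (mem_insert_of_mem hq)
    · by_cases hqp : q = p
      · subst hqp
        simp
      · simp only [Function.update_of_ne hqp]
        exact hb.2 q (fun h => (mem_insert.1 h).elim hqp hq)
  · rintro ⟨b, r⟩ hx
    rw [mem_product, mem_Pt, mem_range] at hx
    obtain ⟨⟨h1, h2⟩, h3⟩ := hx
    simp only [Function.update_self, Prod.mk.injEq, and_true]
    funext q
    by_cases hqp : q = p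
    · subst hqp
      simpa using (h2 q hp).symm
    · simp [Function.update_of_ne hqp]
  · intro b _
    funext q
    by_cases hqp : q = p
    · subst hqp
      simp
    · simp [Function.update_of_ne hqp]
  · rintro ⟨b, r⟩ _
    rfl

theorem card_Pt (S : Finset ℕ) : (Pt S).card = ∏ p ∈ S, p := by
  induction S using Finset.induction_on with
  | empty => simp [Pt_empty]
  | insert p S hp ih =>
    have h := sum_Pt_insert S p hp (fun _ => 1)
    simp only [sum_const, nsmul_eq_mul, mul_one, card_range] at h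
    have h2 : ((Pt (insert p S)).card : ℝ) = ((p * ∏ q ∈ S, q : ℕ) : ℝ) := by
      rw [h, ih]
      push_cast
      ring
    rw [prod_insert hp]
    exact_mod_cast h2

theorem Ev_const (S : Finset ℕ) (hS : ∀ p ∈ S, 0 < p) (c : ℝ) : Ev S (fun _ => c) = c := by
  unfold Ev
  rw [sum_const, card_Pt, nsmul_eq_mul]
  have h : (∏ p ∈ S, (p : ℝ)) ≠ 0 := prod_ne_zero_iff.2 fun p hp => by
    have := hS p hp
    positivity
  push_cast
  field_simp

theorem mem_PN (N p : ℕ) : p ∈ PN N ↔ p ≤ N ∧ p.Prime := by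
  unfold PN
  rw [mem_filter, mem_range, Nat.lt_succ_iff]

end Pool.Agent.T2H31.HV
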