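import Pool.Agent.T2H31.HV.Asm

set_option autoImplicit false

/-! # The final theorem, for all real `X` -/

open Finset MeasureTheory ProbabilityTheory Filter Topology

namespace Pool.Agent.T2H31.HV

open T2H32.BF

/-- the variance for real `X` -/
noncomputable def GX (z : ℕ → ℕ) (b : ℕ → ℕ) (X : ℝ) (Q : ℕ) : ℝ :=
  ∑ A ∈ Cl Q b, (psiR z b ⌊X⌋₊ Q A - X / Nat.totient Q) ^ 2

theorem GX_close (z : ℕ → ℕ) (b : ℕ → ℕ) (X : ℝ) (Q : ℕ) (hX : 0 ≤ X) (hQ : 1 ≤ Q)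
    (hc : (Cl Q b).card = Nat.totient Q) :
    |GX z b X Q - GR z b ⌊X⌋₊ Q| ≤ GR z b ⌊X⌋₊ Q / Nat.totient Q + 2 := by
  have hφ : (1 : ℝ) ≤ Nat.totient Q := by exact_mod_cast Nat.totient_pos.2 hQ
  have hφ0 : (0 : ℝ) < Nat.totient Q := by linarith
  set t : ℝ := (X - ⌊X⌋₊) / Nat.totient Q with ht
  have h1 : (⌊X⌋₊ : ℝ) ≤ X := Nat.floor_le hX
  have h2 : X < ⌊X⌋₊ + 1 := Nat.lt_floor_add_one X
  have ht0 : 0 ≤ t := div_nonneg (by linarith) hφ0.le
  have ht1 : t ≤ 1 / Nat.totient Q := by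
    rw [ht]
    gcongr
    linarith
  have hdiff : GX z b X Q - GR z b ⌊X⌋₊ Q =
      ∑ A ∈ Cl Q b, (t ^ 2 - 2 * (psiR z b ⌊X⌋₊ Q A - ⌊X⌋₊ / Nat.totient Q) * t) := by
    unfold GX GR
    rw [← sum_sub_distrib]
    apply sum_congr rfl
    intro A _
    have : X / Nat.totient Q = ⌊X⌋₊ / Nat.totient Q + t := by
      rw [ht]
      field_simp
      ring
    rw [this]
    ring
  rw [hdiff]
  refine (abs_sum_le_sum_abs _ _).trans ?_
  have hterm : ∀ A ∈ Cl Q b, |t ^ 2 - 2 * (psiR z b ⌊X⌋₊ Q A - ⌊X⌋₊ / Nat.totient Q) * t| ≤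
      2 * (1 / (Nat.totient Q : ℝ)) + (psiR z b ⌊X⌋₊ Q A - ⌊X⌋₊ / Nat.totient Q) ^ 2 / Nat.totient Q := by
    intro A _
    set y := psiR z b ⌊X⌋₊ Q A - ⌊X⌋₊ / Nat.totient Q with hy
    have a1 : |t ^ 2 - 2 * y * t| ≤ t ^ 2 + (1 + y ^ 2) * t := by
      have b1 : |t ^ 2 - 2 * y * t| ≤ |t ^ 2| + |2 * y * t| := abs_sub _ _
      have b2 : |t ^ 2| = t ^ 2 := abs_of_nonneg (sq_nonneg t)
      have b3 : |2 * y * t| = 2 * |y| * t := by
        rw [abs_mul, abs_mul, abs_of_nonneg ht0, abs_of_pos (by norm_num : (0 : ℝ) < 2)]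
      have b4 : 2 * |y| ≤ 1 + y ^ 2 := by
        have := sq_nonneg (|y| - 1)
        rw [sub_sq, sq_abs] at this
        linarith
      nlinarith
    have a2 : t ^ 2 ≤ 1 / Nat.totient Q := by
      have : t ≤ 1 := ht1.trans (by rw [div_le_one hφ0]; exact hφ)
      nlinarith
    have a3 : (1 + y ^ 2) * t ≤ (1 + y ^ 2) * (1 / Nat.totient Q) := by
      apply mul_le_mul_of_nonneg_left ht1
      positivity
    have a4 : (1 + y ^ 2) * (1 / (Nat.totient Q : ℝ)) = 1 / Nat.totient Q + y ^ 2 / Nat.totient Q := by ring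
    linarith
  refine (sum_le_sum hterm).trans (le_of_eq ?_)
  rw [sum_add_distrib, sum_const, hc, nsmul_eq_mul, ← sum_div]
  unfold GR
  field_simp
  ring

theorem FLat_of (hFL : P_FL) (Ω : Type) [MeasurableSpace Ω] (P : Measure Ω) (a : ℕ → Ω → ℕ) (h : Model P a) :
    ∀ᵐ ω ∂P, ∀ η : ℝ, 0 < η → ∀ᶠ N : ℕ in atTop, FLat η N (fun q => a q ω) := by
  have h1 : ∀ᵐ ω ∂P, ∀ m : ℕ, ∀ᶠ N : ℕ in atTop, FLat (1 / ((m : ℝ) + 1)) N (fun q => a q ω) := by
    rw [ae_all_iff]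
    intro m
    exact hFL Ω P a h z0 z0_mono (1 / ((m : ℝ) + 1)) (by positivity)
  filter_upwards [h1] with ω hω η hη
  obtain ⟨m, hm⟩ := exists_nat_one_div_lt hη
  filter_upwards [hω m, eventually_ge_atTop 1] with N hN hN1 Q h hQ hh
  have hN1' : (1 : ℝ) ≤ N := by exact_mod_cast hN1
  have h2 : (N : ℝ) ^ (1 / 2 + 1 / ((m : ℝ) + 1)) ≤ (N : ℝ) ^ (1 / 2 + η) :=
    Real.rpow_le_rpow_of_exponent_le hN1' (by linarith)
  obtain ⟨a1, a2⟩ := hN Q h hQ hh
  exact ⟨a1.trans h2, a2.trans h2⟩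

theorem main (hFL : P_FL) (hE1 : P_E1) (hE3 : P_E3) (hD5 : P_D5) (hG : P_G) (hZ : P_Z)
    (Ω : Type) [MeasurableSpace Ω] (P : Measure Ω) (a : ℕ → Ω → ℕ) (h : Model P a) :
    ∀ᵐ ω ∂P, (∀ Q : ℕ, 1 ≤ Q → (Cl Q (fun q => a q ω)).card = Nat.totient Q) ∧
      ∀ ε δ : ℝ, 0 < ε → 0 < δ → ∀ᶠ X : ℝ in atTop, ∀ Q : ℕ, X ^ (1 / 2 + ε) < Q → (Q : ℝ) < X →
        |GX z0 (fun q => a q ω) X Q / (X * Real.log Q) - 1| ≤ δ := by
  filter_upwards [FLat_of hFL Ω P a h, ae_lt h] with ω hω hlt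
  set b : ℕ → ℕ := fun q => a q ω with hb
  have hb' : ∀ Q : ℕ, ∀ p ∈ Q.primeFactors, b p < p := fun Q p hp => hlt p (Nat.prime_of_mem_primeFactors hp)
  have hcard : ∀ Q : ℕ, 1 ≤ Q → (Cl Q b).card = Nat.totient Q := fun Q hQ =>
    (hG z0 z0_mono hZ.1 b Q Q hQ le_rfl (hb' Q)).1
  refine ⟨hcard, fun ε δ hε hδ => ?_⟩
  set δ' : ℝ := min (δ / 16) (1 / 16) with hδ'
  have hδ'0 : 0 < δ' := by rw [hδ']; exact lt_min (by positivity) (by norm_num)
  have hδ'1 : δ' ≤ δ / 16 := min_le_left _ _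
  have hη : 0 < min (ε / 2) (1 / 4 : ℝ) := lt_min (by positivity) (by norm_num)
  have hN := (det_main hE1 hE3 hD5 hG hZ ε δ' hε hδ'0).and (hω _ hη)
  have hfl : Tendsto (fun X : ℝ => ⌊X⌋₊) atTop atTop := tendsto_nat_floor_atTop
  have hlogX : Tendsto Real.log atTop atTop := Real.tendsto_log_atTop
  have hsqrt : Tendsto (fun X : ℝ => (⌊X⌋₊ : ℝ) ^ (-(1 / 2) : ℝ)) atTop (𝓝 0) :=
    (tendsto_rpow_neg_atTop (by norm_num : (0 : ℝ) < 1 / 2)).comp (tendsto_natCast_atTop_atTop.comp hfl)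
  filter_upwards [hfl.eventually hN, eventually_ge_atTop (max 16 (4 / δ')), hlogX.eventually_ge_atTop 4,
    hsqrt.eventually_le_const hδ'0] with X hX hXb hXl hXs Q hQ1 hQ2
  obtain ⟨hdet, hFL'⟩ := hX
  have hX16 : 16 ≤ X := (le_max_left _ _).trans hXb
  have hXδ : 4 / δ' ≤ X := (le_max_right _ _).trans hXb
  have hX0 : 0 < X := by linarith
  set N := ⌊X⌋₊ with hNdef
  have hNX : (N : ℝ) ≤ X := Nat.floor_le hX0.le
  have hXN : X < N + 1 := Nat.lt_floor_add_one X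
  have hN15 : (15 : ℝ) ≤ N := by linarith
  have hN0 : (0 : ℝ) < N := by linarith
  have hQr0 : (0 : ℝ) < Q := lt_of_le_of_lt (by positivity) hQ1
  have hQ1' : 1 ≤ Q := by
    have : 0 < Q := by exact_mod_cast hQr0
    omega
  have hQN : Q ≤ N := Nat.le_floor hQ2.le
  have hQl : (N : ℝ) ^ (1 / 2 + ε) < Q :=
    lt_of_le_of_lt (Real.rpow_le_rpow hN0.le hNX (by positivity)) hQ1
  obtain ⟨hd1, hd2⟩ := hdet Q hQl hQN b (hb' Q) hFL'
  have hcl := GX_close z0 b X Q hX0.le hQ1' (hcard Q hQ1')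
  rw [← hNdef] at hcl
  have hφ : (0 : ℝ) < Nat.totient Q := by exact_mod_cast Nat.totient_pos.2 hQ1'
  -- logarithms
  have hlogQ : Real.log X / 2 ≤ Real.log Q := by
    have h1 : X ^ (1 / 2 : ℝ) ≤ Q := by
      refine le_trans ?_ hQ1.le
      exact Real.rpow_le_rpow_of_exponent_le (by linarith) (by linarith)
    have h2 := Real.log_le_log (by positivity) h1
    rw [Real.log_rpow hX0] at h2
    linarith
  have hlogQ' : Real.log Q ≤ Real.log X := Real.log_le_log hQr0 hQ2.le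
  have hlogN : Real.log N ≤ Real.log X := Real.log_le_log hN0 hNX
  set LX := Real.log X with hLX
  have hLQ0 : 0 < Real.log Q := by linarith
  -- GR ≤ 2 N log X
  have hGRle : GR z0 b N Q ≤ 2 * N * LX := by
    have h1 : GR z0 b N Q ≤ N * Real.log Q + δ' * N * Real.log N := by
      have := abs_le.1 hd1
      linarith [this.2]
    have h2 : δ' ≤ 1 := (min_le_right _ _).trans (by norm_num)
    have h3 : N * Real.log Q ≤ N * LX := by gcongr
    have h4 : δ' * N * Real.log N ≤ 1 * N * LX := by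
      have : 0 ≤ Real.log N := Real.log_natCast_nonneg N
      gcongr
    linarith
  have hGRφ : GR z0 b N Q / Nat.totient Q ≤ 2 * δ' * N * LX := by
    have h1 : 1 / (Nat.totient Q : ℝ) ≤ δ' := by
      have e : (1 : ℝ) / Nat.totient Q = (N / Nat.totient Q) / N := by
        field_simp
      rw [e]
      have h2 : (N : ℝ) / Nat.totient Q / N ≤ (N : ℝ) ^ (1 / 2 : ℝ) / N := by gcongr
      refine h2.trans ?_
      have e2 : (N : ℝ) ^ (1 / 2 : ℝ) / N = (N : ℝ) ^ (-(1 / 2) : ℝ) := by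
        rw [div_eq_iff hN0.ne', ← Real.rpow_add_one hN0.ne']
        norm_num
      rw [e2]
      exact hXs
    calc GR z0 b N Q / Nat.totient Q = GR z0 b N Q * (1 / Nat.totient Q) := by ring
      _ ≤ (2 * N * LX) * δ' := by
        apply mul_le_mul hGRle h1 (by positivity)
        have : 0 ≤ LX := by linarith
        positivity
      _ = _ := by ring
  have hbound : |GX z0 b X Q - X * Real.log Q| ≤ 8 * δ' * (X * LX) := by
    have t1 := abs_sub_le (GX z0 b X Q) (GR z0 b N Q) (X * Real.log Q)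
    have t2 := abs_sub_le (GR z0 b N Q) (N * Real.log Q) (X * Real.log Q)
    have t3 : |(N : ℝ) * Real.log Q - X * Real.log Q| ≤ LX := by
      rw [← sub_mul, abs_mul, abs_of_pos hLQ0]
      have : |(N : ℝ) - X| ≤ 1 := by
        rw [abs_le]
        constructor <;> linarith
      calc |(N : ℝ) - X| * Real.log Q ≤ 1 * LX := by
            apply mul_le_mul this hlogQ' hLQ0.le (by norm_num)
        _ = LX := one_mul _
    have hLX0 : 0 ≤ LX := by linarith
    have t4 : 2 * δ' * N * LX ≤ 2 * δ' * (X * LX) := by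
      have : N * LX ≤ X * LX := by gcongr
      nlinarith
    have t5 : δ' * N * Real.log N ≤ δ' * (X * LX) := by
      have h1 : N * Real.log N ≤ X * LX := by
        apply mul_le_mul hNX hlogN (Real.log_natCast_nonneg N) hX0.le
      nlinarith
    have h4 : 4 ≤ δ' * X := by
      rw [div_le_iff₀ hδ'0] at hXδ
      linarith
    have t6 : LX ≤ δ' * (X * LX) := by nlinarith
    have t7 : (2 : ℝ) ≤ δ' * (X * LX) := by nlinarith
    have t8 : 0 ≤ δ' * (X * LX) := by positivity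
    linarith
  have hpos : 0 < X * Real.log Q := by positivity
  have e : GX z0 b X Q / (X * Real.log Q) - 1 = (GX z0 b X Q - X * Real.log Q) / (X * Real.log Q) := by
    field_simp
  rw [e, abs_div, abs_of_pos hpos, div_le_iff₀ hpos]
  refine hbound.trans ?_
  have h5 : X * LX ≤ 2 * (X * Real.log Q) := by nlinarith
  calc 8 * δ' * (X * LX) ≤ 8 * δ' * (2 * (X * Real.log Q)) := by gcongr
    _ = 16 * δ' * (X * Real.log Q) := by ring
    _ ≤ δ * (X * Real.log Q) := by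
      apply mul_le_mul_of_nonneg_right _ hpos.le
      linarith

end Pool.Agent.T2H31.HV
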