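import Pool.Agent.T2H31.HV.Defs

set_option autoImplicit false

/-!
# Hooley's conjecture in the Banks–Ford–Tao random sieve model: the packages

Every package is a `Prop` `P_…`; to be proved as `theorem T_… : P_…` in the file `Pool/Agent/T2H31/HV/T_….lean`
(other packages only as hypotheses or, once they are proved, by import). The paper proofs are in the docstrings.
Base facts (`mem_Pt`, `sum_Pt_insert`, `card_Pt`, `Ev_const`) are in `Defs.lean`.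
-/

open Finset MeasureTheory ProbabilityTheory Filter Topology

namespace Pool.Agent.T2H31.HV

/-! ## Part A: moments on a finite product space -/

/-- **FIN** (Finner / Montgomery–Vaughan, 30 min). Nonnegative functions `f i`, `f i` depends only on the coordinates in
`s i ⊆ S`, every coordinate of `S` is in at least two of the `s i`. Then the sum of the product over the whole product space
is at most the product of the ℓ² norms.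

Proof. Induction on `S` (for all `s`, `f`). `S = ∅`: all `s i = ∅`, `Pt ∅` is one point, both sides are `∏ f i 0`
(`√(x²) = x`). Step `insert p S`: by `sum_Pt_insert` the sum is `∑_{b ∈ Pt S} ∑_{r < p} ∏ i, f i (update b p r)`. Let
`I = {i | p ∈ s i}`, `|I| ≥ 2`. The factors with `i ∉ I` do not depend on `r` (they are `f i b`). For nonnegative `x i r`
and `|I| ≥ 2`: `∑_r ∏_{i ∈ I} x i r ≤ ∏_{i ∈ I} √(∑_r (x i r)²)` (Cauchy–Schwarz `Finset.sum_mul_le_sqrt_mul_sqrt` for two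
of them, `x i r ≤ √(∑_r (x i r)²)` for the others; e.g. induction on `I`). Put `f' i b = √(∑_{r<p} f i (update b p r)²)`
for `i ∈ I` and `f' i = f i` otherwise, `s' i = (s i).erase p`. Apply the induction hypothesis to `s'`, `f'`; and
`∑_{b ∈ Pt (s' i)} f' i b ^ 2 = ∑_{b ∈ Pt (s i)} f i b ^ 2` by `Real.sq_sqrt` and `sum_Pt_insert (s' i) p`. -/
def P_FIN : Prop :=
  ∀ (S : Finset ℕ) (m : ℕ) (s : Fin m → Finset ℕ) (f : Fin m → (ℕ → ℕ) → ℝ),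
    (∀ i b, 0 ≤ f i b) → (∀ i, Dep (s i) (f i)) → (∀ i, s i ⊆ S) →
    (∀ p ∈ S, 2 ≤ (univ.filter fun i => p ∈ s i).card) →
    ∑ b ∈ Pt S, ∏ i, f i b ≤ ∏ i, √(∑ b ∈ Pt (s i), f i b ^ 2)

/-- **MOM** (moment bound from components, uses FIN, 45 min). `F s` depends only on `s`, has mean zero in every coordinate
`p ∈ s`, and `∑_{b ∈ Pt s} F s b ^ 2 ≤ M C ^ |s|`. Then the `2k`-th moment of `∑_{s ≠ ∅} F s` is at most
`M ^ k ∏_{p ∈ S} (1 + (1 + √C) ^ (2k) / p)`.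

Proof. Expand the power: `(∑_{s ∈ T} F s b)^(2k) = ∑_{σ ∈ Fintype.piFinset (fun _ : Fin (2k) => T)} ∏ i, F (σ i) b`
(`Finset.prod_univ_sum` with `prod_const`), `T = S.powerset.erase ∅`. Fix `σ`, `U = ⋃ σ i = univ.biUnion σ ⊆ S`.
(a) If some `p ∈ U` is in exactly one `σ i`: `∑_{b ∈ Pt S} ∏ i, F (σ i) b = 0` (write `S = insert p (S.erase p)`,
`sum_Pt_insert`, only one factor depends on `r`, and `∑_r F (σ i) (update b p r) = 0`).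
(b) Otherwise `∑_{b ∈ Pt S} |∏ F (σ i) b| = (∏_{p ∈ S \ U} p) ∑_{b ∈ Pt U} ∏ |F (σ i) b|` (the function depends only on `U`;
iterate `sum_Pt_insert`) `≤ (∏_{p ∈ S \ U} p) ∏ i √(M C^|σ i|)` by FIN. So in both cases
`(∏_{p ∈ S} p)⁻¹ |∑_{b ∈ Pt S} ∏ i, F (σ i) b| ≤ (∏_{p ∈ U} p)⁻¹ ∏ i √(M C^|σ i|)`.
Sum over `σ`: group by `U` (`Finset.sum_fiberwise_of_maps_to`), for fixed `U` the `σ` have values in `U.powerset`; the sum over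
all these is `(∏_{p ∈ U} p)⁻¹ (∑_{s ⊆ U} √(M C^|s|))^(2k) = (∏_{p ∈ U} p)⁻¹ M^k (1 + √C)^(2k |U|)`
(`Finset.sum_pow_mul_eq_add_pow`, `√(M C^n) = √M √C^n`). The sum over `U ⊆ S` is `M^k ∏_{p ∈ S} (1 + (1+√C)^(2k)/p)`
(`Finset.prod_one_add` or `Finset.prod_add`). -/
def P_MOM : Prop :=
  ∀ (S : Finset ℕ) (F : Finset ℕ → (ℕ → ℕ) → ℝ) (M C : ℝ) (k : ℕ),
    (∀ p ∈ S, 0 < p) → 0 ≤ M → 0 ≤ C → (∀ s ⊆ S, Dep s (F s)) →
    (∀ s ⊆ S, ∀ p ∈ s, ∀ b, ∑ r ∈ range p, F s (Function.update b p r) = 0) →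
    (∀ s ⊆ S, s.Nonempty → ∑ b ∈ Pt s, F s b ^ 2 ≤ M * C ^ s.card) →
    Ev S (fun b => (∑ s ∈ S.powerset.erase ∅, F s b) ^ (2 * k)) ≤
      M ^ k * ∏ p ∈ S, (1 + (1 + √C) ^ (2 * k) / (p : ℝ))

/-- **L2** (mean square over initial segments, 45 min).

Proof. Expand the square, exchange the sums, factorise the sum over `Pt s` (induction with `sum_Pt_insert`, or
`∑_{b ∈ Pt s} ∏_{p ∈ s} g p (b p) = ∏_{p ∈ s} ∑_{r < p} g p r`): the left side is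
`∑_{n, n' < j} ∏_{p ∈ s} ∑_{r < p} uu p n r * uu p n' r`, and `∑_{r<p} uu p n r * uu p n' r = [p ∣ n - n'] - 1/p`
(`[n % p = n' % p] - 1/p`). Expand `∏_{p ∈ s} ([n ≡ n' (p)] - 1/p) = ∑_{t ⊆ s} [n ≡ n' (e)] ∏_{p ∈ s \ t} (-1/p)`,
`e = ∏_{p ∈ t} p` (the primes are coprime). The number of pairs `n, n' < j` with `n ≡ n' mod e` is
`j² / e + ρ (e - ρ) / e` with `ρ = j % e`, `0 ≤ ρ (e-ρ)/e ≤ ρ ≤ j` (classes: `ρ` classes with `j/e + 1` elements and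
`e - ρ` with `j/e`). The main terms `j² / e` cancel: `∑_{t ⊆ s} (1/∏_t p) ∏_{s \ t} (-1/p) = ∏_{p ∈ s} (1/p - 1/p) = 0`
as `s ≠ ∅`. The rest is at most `∑_{t ⊆ s} j ∏_{s \ t} 1/p = j ∏_{p ∈ s} (1 + 1/p) ≤ j (3/2)^|s|`. -/
def P_L2 : Prop :=
  ∀ s : Finset ℕ, (∀ p ∈ s, p.Prime) → s.Nonempty → ∀ j : ℕ,
    ∑ b ∈ Pt s, (∑ n ∈ range j, ∏ p ∈ s, uu p n (b p)) ^ 2 ≤ j * (3 / 2 : ℝ) ^ s.card

/-- **BV** (weights and shifts, uses L2, 40 min).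

Proof. (1) Shifts: the map `r ↦` the residue of `r - τ p` is a bijection of `range p` for every `p`, and
`uu p (n + τ p) r = uu p n ((r + (p - τ p % p)) % p)` for `r < p`; so
`∑_{b ∈ Pt s} G (fun p => shifted b p) = ∑_{b ∈ Pt s} G b`: one may take `τ = 0`.
(2) Partial summation: `c n = f n * g n`, `W n = ∏_{p ∈ s} uu p n (b p)`, `S_j = ∑_{n < j} W n`:
`∑_{n < M} c n W n = c (M-1) S_M - ∑_{j < M-1} (c (j+1) - c j) S_{j+1}` (`Finset.sum_range_by_parts` or induction), and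
`|c (M-1)| + ∑ |c (j+1) - c j| ≤ B + 2B = 3B`, because
`|f(j+1)g(j+1) - f(j)g(j)| ≤ (f(j+1)-f(j)) + B (g(j)-g(j+1))`. By Cauchy–Schwarz with weights
`|∑ w_j S_j|² ≤ (∑ |w_j|) (∑ |w_j| S_j²)`; sum over `b ∈ Pt s` and use L2 for each `S_j`, `j ≤ M`. -/
def P_BV : Prop :=
  ∀ s : Finset ℕ, (∀ p ∈ s, p.Prime) → s.Nonempty → ∀ (M : ℕ) (B : ℝ) (f g : ℕ → ℝ) (τ : ℕ → ℕ),
    Monotone f → (∀ n, 0 ≤ f n) → (∀ n < M, f n ≤ B) → Antitone g → (∀ n, 0 ≤ g n) → (∀ n, g n ≤ 1) →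
    ∑ b ∈ Pt s, (∑ n ∈ range M, f n * g n * ∏ p ∈ s, uu p (n + τ p) (b p)) ^ 2 ≤
      9 * B ^ 2 * M * (3 / 2 : ℝ) ^ s.card

/-- **ANO** (the components of the pair sum, uses BV, 60 min).

Proof. For every `b`: `sv n * sv (n+h) = ∏_{p ∈ PN N} (mf n p - al n p * uu p n (b p) - be n p * uu p (n+h) (b p))`
(`z` monotone; if `p ∣ h` then `n % p = (n+h) % p` and `al = 0`; if `p ∤ h` the two residues are different, so the product of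
the two indicators is zero). Expand with `Finset.prod_add` twice. So with `S = PN N`
`F s b = ∑_n c n (∏_{p ∈ S \ s} mf n p) ∏_{p ∈ s} (-(al n p) uu p n (b p) - be n p uu p (n+h) (b p))`
satisfies the identity; `Dep` clear; mean zero as `∑_{r<p} uu p n r = 0` (for every `n`, `p > 0`). The ℓ² bound:
expand `∏_{p ∈ s}` over `t ⊆ s`: `F s = (-1)^|s| ∑_{t ⊆ s} F_{s,t}`,
`F_{s,t} b = ∑_{n < N+1-h} f n * g n * ∏_{p ∈ s} uu p (n + τ p) (b p)`, `τ p = 0` for `p ∈ t`, `h` otherwise,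
`f n = [3 ≤ n] c n ∏_{p ∈ t} al n p ∏_{p ∈ s \ t} be n p` (monotone, `≥ 0`, `≤ B`), `g n = ∏_{p ∈ S \ s} mf n p`
(antitone, in `[0,1]`: `al + be ≤ 1 ≤ p` if `p ∣ h`, `≤ 2 ≤ p` otherwise). BV gives `9 B² N (3/2)^|s|` for each `t`
(`M = N+1-h ≤ N+1`: note the `n = 0` term is zero because of `[3 ≤ n]`; the bound with `N + 1` is what is claimed), and
`(∑_{t ⊆ s} x_t)² ≤ 2^|s| ∑ x_t²` gives `4^|s| (3/2)^|s| = 6^|s|`. -/
def P_ANO : Prop :=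
  ∀ z : ℕ → ℕ, Monotone z → ∀ (Q h N : ℕ) (B : ℝ) (c : ℕ → ℝ),
    Monotone c → (∀ n, 0 ≤ c n) → (∀ n ≤ N, c n ≤ B) →
    ∃ F : Finset ℕ → (ℕ → ℕ) → ℝ,
      (∀ s ⊆ PN N, Dep s (F s)) ∧
      (∀ s ⊆ PN N, ∀ p ∈ s, ∀ b, ∑ r ∈ range p, F s (Function.update b p r) = 0) ∧
      (∀ s ⊆ PN N, s.Nonempty → ∑ b ∈ Pt s, F s b ^ 2 ≤ 9 * B ^ 2 * (N + 1) * 6 ^ s.card) ∧
      (∀ b, PF z Q h N c b = ∑ s ∈ (PN N).powerset, F s b) ∧
      (∀ b, F ∅ b = EF z Q h N c)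

/-! ## Part B: the random model -/

/-- **TR** (transfer to the finite product space, 30 min). `h.prob` gives `IsProbabilityMeasure P`.

Proof. Almost surely `a p ω < p` for all `p ∈ S` (the events `a p = r`, `r < p`, have total probability `1`; compare `ae_lt`
in `T2H32/BF/Gap.lean`). For `b ∈ Pt S` the event `E_b = {∀ p ∈ S, a p ω = b p}` has probability `∏_{p ∈ S} 1/p`
(`h.independent`, e.g. `iIndepFun.measure_inter_preimage_eq_mul`). The events `E_b` are disjoint and cover almost everything; on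
`E_b` the function is `F b`. So `∫ = ∑_b F b P(E_b)`; the function is a.e. equal to a simple function. -/
def P_TR : Prop :=
  ∀ (Ω : Type) [MeasurableSpace Ω] (P : Measure Ω) (a : ℕ → Ω → ℕ), T2H32.BF.Model P a →
    ∀ (S : Finset ℕ) (F : (ℕ → ℕ) → ℝ), (∀ p ∈ S, p.Prime) → Dep S F →
      Integrable (fun ω => F fun q => a q ω) P ∧ ∫ ω, F (fun q => a q ω) ∂P = Ev S F

/-- **FL** (all fluctuations at once, uses ANO, MOM, TR; 45 min).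

Proof. Fix `η`, `k` with `2 k η ≥ 5`. For `N, Q, h` let `X ω = PF … - EF …`, with `B = (log (2N))²` (`h ≤ N`), resp. `log N`.
By ANO `X = ∑_{s ≠ ∅} F s`, by MOM (`M = 9 B² (N+1)`, `C = 6`) and TR
`E X^(2k) ≤ (9 B² (N+1))^k ∏_{p ≤ N} (1 + K/p)`, `K = (1+√6)^(2k)`. With `K' = ⌈K⌉` and Bernoulli
`1 + K/p ≤ (1 - 1/p)^(-K')`, the last product is `≤ V(N)^(-K') ≤ (C log N)^K'` (`T2H32.BF.V`, `T2H32.BF.mertens`).
Markov: `P(|X| > N^(1/2+η)) ≤ N^(-k(1+2η)) (9 B² (N+1))^k (C log N)^K' ≤ N^(-5) (log N)^A` for large `N`. There are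
`(N+1)²` pairs `(Q, h)`; the sum over `N` converges; Borel–Cantelli (`measure_limsup_atTop_eq_zero` /
`ae_eventually_notMem`). -/
def P_FL : Prop :=
  ∀ (Ω : Type) [MeasurableSpace Ω] (P : Measure Ω) (a : ℕ → Ω → ℕ), T2H32.BF.Model P a →
    ∀ z : ℕ → ℕ, Monotone z → ∀ η : ℝ, 0 < η → ∀ᵐ ω ∂P, ∀ᶠ N : ℕ in atTop, ∀ Q h : ℕ, Q ≤ N → h ≤ N →
      |PF z Q h N (fun n => Real.log n * Real.log ((n + h : ℕ) : ℝ)) (fun q => a q ω) -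
        EF z Q h N (fun n => Real.log n * Real.log ((n + h : ℕ) : ℝ))| ≤ (N : ℝ) ^ (1 / 2 + η) ∧
      |PF z Q 0 N (fun n => Real.log n) (fun q => a q ω) - EF z Q 0 N (fun n => Real.log n)| ≤
        (N : ℝ) ^ (1 / 2 + η)

/-! ## Part C: expected values. `T2H32.BF.z0 n = sSup {m | (V m)⁻¹ ≤ log n}` -/

/-- **Z** (the sieving limit, 30 min).

Proof. `z0 n ≤ n`: for `n ≤ 2` the set is empty (`V m ≤ 1`, `log 2 < 1`); otherwise `(V m)⁻¹ ≥ ∑_{k ≤ m} 1/k ≥ log (m+1)`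
gives `m + 1 ≤ n` (or any other proof). `√n ≤ z0 n` eventually: `V m log m → e^(-γ)`, `e^γ < 9/5` (`T2H32.BF.expg`,
`T2H32.BF.mertens`), so for `m = ⌈√n⌉`: `(V m)⁻¹ ≤ (9/5 + small) log m ≤ log n`. The two inequalities for `V (z0 n) log n`:
`T2H32.BF.z0_mem`, `T2H32.BF.z0_lt`, `T2H32.BF.V_step`. -/
def P_Z : Prop :=
  (∀ n, T2H32.BF.z0 n ≤ n) ∧ (∀ᶠ n : ℕ in atTop, √(n : ℝ) ≤ T2H32.BF.z0 n) ∧
  ∀ n : ℕ, 3 ≤ n → 1 ≤ T2H32.BF.z0 n ∧ 1 ≤ T2H32.BF.V (T2H32.BF.z0 n) * Real.log n ∧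
    T2H32.BF.V (T2H32.BF.z0 n) * Real.log n ≤ 1 + 1 / (T2H32.BF.z0 n : ℝ)

/-- **RAT** (the pair density against the singular series, 60 min). `V = T2H32.BF.V`, `z` arbitrary monotone.

Proof. `h = j Q`. Split `PN N` into the primes dividing `Q`, and `PQ N Q`. Factor by factor, the quotient of
`∏ mf` and `V (z n) * V (z (n+h)) * Sg N Q j` is
`∏_{p ∣ Q, z n < p ≤ z (n+h)} (1 - 1/p) · ∏_{p ∣ Q, p > z (n+h)} (1 - 1/p)² · ∏_{p ∈ PQ, p > z n, p ∤ j} (1 - 1/(p-1)²)⁻¹ ·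
∏_{p ∈ PQ, p > z n, p ∣ j} (1 - 1/p)` (for `p ∈ PQ`: `p ≤ z n`: `mf = 1 - 1/p` if `p ∣ j`, `1 - 2/p` if not;
`z n < p ≤ z (n+h)`: `mf = 1 - 1/p`; `p > z (n+h)`: `1`. `(1-2/p)/(1-1/p)² = 1 - 1/(p-1)²`). Every `p` here is `> w := z n ≥ 2`,
at most `2 log N / log 2` primes divide `Q` or `j`, so the quotient is between `(1 - 1/w)^(4 log₂ N) ≥ 1 - 8 L / w`
and `∏_{p > w} (1 - 1/(p-1)²)⁻¹ ≤ ∏_{m > w} (m-1)²/(m(m-2)) = w/(w-1) ≤ 1 + 2/w` (telescoping). If `Sg = 0`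
(`Q`, `j` odd) both sides are zero as `2 ≤ z n`. -/
def P_RAT : Prop :=
  ∃ C : ℝ, 0 < C ∧ ∀ z : ℕ → ℕ, Monotone z → ∀ N Q j n : ℕ, 3 ≤ N → 1 ≤ Q → Q ≤ N → j * Q + n ≤ N → 1 ≤ j →
    2 ≤ z n → z N ≤ N →
    |∏ p ∈ PN N, mf z Q (j * Q) n p - T2H32.BF.V (z n) * T2H32.BF.V (z (n + j * Q)) * Sg N Q j| ≤
      C * Real.log N / z n * (T2H32.BF.V (z n) * T2H32.BF.V (z (n + j * Q)) * Sg N Q j)

/-- **E1** (first moments, uses Z; 45 min).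

Proof. `mf z Q 0 n p = 1 - [p ≤ z n ∨ p ∣ Q] / p`, so `∏_{p ∈ PN N} mf = V (z n) ∏_{p ∣ Q, p > z n} (1 - 1/p)`, between
`V (z n) (1 - 2 log N / z n)` and `V (z n)` (at most `log₂ N ≤ 2 log N` primes divide `Q`). With Z and, for `n ≥ √N`,
`z0 n ≥ √n`: the terms with `n ≤ √N` contribute at most `√N (log N)²`; for the others
`log n ∏ mf = 1 + O(log N / √n)`, and `∑_{n ≤ N} 1/√n ≤ 2 √N`. For the second statement multiply by `log n`;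
`∑_{n ≤ N} log n = N log N + O(N)`. -/
def P_E1 : Prop :=
  ∃ C : ℝ, 0 < C ∧ ∀ᶠ N : ℕ in atTop, ∀ Q : ℕ, 1 ≤ Q → Q ≤ N →
    |EF T2H32.BF.z0 Q 0 N (fun n => Real.log n) - N| ≤ C * √(N : ℝ) * Real.log N ^ 3 ∧
    |EF T2H32.BF.z0 Q 0 N (fun n => Real.log n * Real.log ((n + 0 : ℕ) : ℝ)) - N * Real.log N| ≤ C * N

/-- **E3** (pairs, uses Z, RAT; 45 min).

Proof. `Sg N Q j ≤ (C log N)²` (all factors are at most `p/(p-1)`, `∏_{p ≤ N} p/(p-1) = V(N)⁻¹ ≤ C log N`, and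
`Q/φ(Q) ≤ V(N)⁻¹`). The terms with `n ≤ √N` contribute at most `√N (log N)²` to `EF` and `√N Sg` to `(N - jQ) Sg`.
For `n > √N`: `V(z n) log n` and `V(z (n+h)) log (n+h)` are `1 + O(1/z n)` by Z, RAT gives
`log n log (n+h) ∏ mf = Sg (1 + O(log N / z n))`, `z n ≥ √n` (and `≥ 2`), `∑ 1/√n ≤ 2√N`. -/
def P_E3 : Prop :=
  ∃ C : ℝ, 0 < C ∧ ∀ᶠ N : ℕ in atTop, ∀ Q j : ℕ, 1 ≤ Q → 1 ≤ j → j * Q ≤ N →
    |EF T2H32.BF.z0 Q (j * Q) N (fun n => Real.log n * Real.log ((n + j * Q : ℕ) : ℝ)) -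
      (N - j * Q) * Sg N Q j| ≤ C * √(N : ℝ) * Real.log N ^ 5

/-! ## Part D: the average of the singular series -/

/-- **D1** (the singular series as a divisor sum, 30 min).

Proof. `∏_{p ∈ PQ} (if p ∣ j then p/(p-1) else 1 - 1/(p-1)²)`; `p/(p-1) = p/(p-1)² + (1 - 1/(p-1)²)`
(check: `p/(p-1)² + (p²-2p)/(p-1)² = p(p-1)/(p-1)²`). Expand over the subsets `t` of the primes of `PQ` dividing `j`
(`Finset.prod_add`): `∑_t ∏_{p ∈ t} p/(p-1)² ∏_{p ∈ PQ \ t} (1 - 1/(p-1)²) = ∑_t gd (∏_{p∈t} p)`, and `t ↦ ∏_{p ∈ t} p` is a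
bijection onto the squarefree divisors `d` of `j` that are prime to `Q` (all primes dividing `j ≤ N` are `≤ N`). -/
def P_D1 : Prop :=
  ∀ N Q j : ℕ, 1 ≤ Q → 1 ≤ j → j ≤ N →
    Sg N Q j = (Q : ℝ) / Nat.totient Q * ∑ d ∈ (SF Q N).filter (fun d => d ∣ j), gd N Q d

/-- **D2** (total mass, 45 min).

Proof. `0 ≤ gd d ≤ d/φ(d)²`. Sum over ALL squarefree `d` with prime factors in `PQ N Q`:
`∑_d gd d / d = ∏_{p ∈ PQ} (1/(p-1)² + (1 - 1/(p-1)²)) = 1` (`Finset.prod_add`). The `d ≤ K` form `SF Q K` (as `K ≤ N`). The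
rest is `≤ ∑_{d > K, d ∣ ∏ PQ} 1/φ(d)²`; dyadic blocks and `∑_{n ≤ x} (n/φ(n))² ≤ C x`
(`Pool.Agent.Erdos456.Mert.totRatio_moment`, `n/φ(n) ≥ 1`) give `≤ 4C/K`. Please also export the tail bound
`T_tail : ∃ C > 0, ∀ (T : Finset ℕ) (K : ℕ), 1 ≤ K → (∀ d ∈ T, K < d) → ∑ d ∈ T, 1/φ(d)² ≤ C/K` (needed in D3). -/
def P_D2 : Prop :=
  ∃ C : ℝ, 0 < C ∧ ∀ N Q K : ℕ, 1 ≤ Q → 1 ≤ K → K ≤ N →
    0 ≤ 1 - ∑ d ∈ SF Q K, gd N Q d / d ∧ 1 - ∑ d ∈ SF Q K, gd N Q d / d ≤ C / K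

/-- **D3** (comparison with the Selberg sum, 45 min).

Proof. `gd N Q d = d/φ(d)² ∑_m μ(m)/φ(m)²`, `m` over the squarefree numbers with prime factors in `PQ N Q` not dividing `d`
(`Finset.prod_sub`/`prod_one_add`). For squarefree `r` prime to `Q`: `1/φ(r) = φ(r)/φ(r)² = ∑_{dm = r} d μ(m)/(φ(d)² φ(m)²)`
(`φ(r) = ∑_{d ∣ r} d μ(r/d)`), so `SQ Q K = ∑_{d ∈ SF Q K} d/φ(d)² ∑_{m ≤ K/d, m squarefree, prime to dQ} μ(m)/φ(m)²`. The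
difference is at most `∑_{d ≤ K} d/φ(d)² · C'/⌊K/d⌋ ≤ (2C'/K) ∑_{d ≤ K} (d/φ(d))² ≤ C` (tail bound as in D2). -/
def P_D3 : Prop :=
  ∃ C : ℝ, 0 < C ∧ ∀ N Q K : ℕ, 1 ≤ Q → 1 ≤ K → K ≤ N → |∑ d ∈ SF Q K, gd N Q d - SQ Q K| ≤ C

/-- **D4** (van Lint–Richert, both sides, 60 min). `H343.PhiSum.totient_lower`, `totient_upper` (`log K ≤ LL 0 K ≤ log K + C`,
`LL 0 K = ∑_{squarefree q ≤ K} 1/φ(q)`), `H336V.TotLog.div_totient` (`Q/φ(Q) = ∑_{l ∣ Q squarefree} 1/φ(l)`),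
`H336V.TotLog.div_totient_le`, `H343.div_bound`, `H343.phi_bound` are in the library.

Proof. Every squarefree `r` is uniquely `l m`, `l = gcd(r, Q)`, `(m, Q) = 1`. So for all `x`:
`LL 0 x = ∑_{l ∣ Q squarefree, l ≤ x} (1/φ(l)) SQ Q (x / l)`. Lower bound: `≤ (Q/φ(Q)) SQ Q x`, so
`log K ≤ LL 0 K ≤ κ SQ Q K`. Upper bound, `T = ⌊N^(δ/4)⌋`: `LL 0 (K T) ≥ SQ Q K ∑_{l ∣ Q squarefree, l ≤ T} 1/φ(l)
= SQ Q K (κ - ∑_{l ∣ Q squarefree, l > T} 1/φ(l))` and the last sum is at most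
`d(Q) max_{l > T} 1/φ(l) ≤ C N^(δ/16) T^(-1/2)·… → 0` (`div_bound`, `phi_bound (1/2)`); so
`κ SQ Q K ≤ log K + log T + C + o(1) · SQ Q K`, `SQ Q K ≤ LL 0 K ≤ log N + C`. -/
def P_D4 : Prop :=
  ∀ δ : ℝ, 0 < δ → ∀ᶠ N : ℕ in atTop, ∀ Q K : ℕ, 1 ≤ Q → Q ≤ N → 1 ≤ K → K ≤ N →
    |(Q : ℝ) / Nat.totient Q * SQ Q K - Real.log K| ≤ δ * Real.log N

/-- **D5** (the average of the singular series; uses D1–D4, 60 min).

Proof. `K = N / Q` (integer part), `H = N / Q` (real), `κ = Q/φ(Q)`. By D1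
`2 ∑_{1 ≤ j ≤ K} (N - jQ) Sg = 2 Q κ ∑_{d ∈ SF Q K} gd d ∑_{1 ≤ i ≤ K/d} (H - d i)` and, with `y = H/d`,
`∑_{1 ≤ i ≤ ⌊y⌋} (y - i) = y²/2 - y/2 + θ(y)`, `0 ≤ θ(y) = {y}(1-{y})/2 ≤ 1/8`. So the sum is
`Q κ ∑_{d ∈ SF Q K} gd d (H²/d - H + 2 d θ) = Q κ H² (1 - tail) - κ N ∑ gd d + (error ≤ Qκ/4 · ∑ d gd d)`;
`Q κ H² = N²/φ(Q)`, `Q κ H² tail ≤ C κ N` (D2, `K ≥ H/2`), `∑_{d ≤ K} d gd d ≤ ∑ (d/φ(d))² ≤ C K`; so the third is `≤ C κ N`.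
By D3, D4 `κ ∑ gd d = log K + O(κ) + δ log N`, `|log K - log H| ≤ log 2`, and `κ ≤ C_δ + δ log N`
(`H336V.TotLog.div_totient_le`). -/
def P_D5 : Prop :=
  ∀ δ : ℝ, 0 < δ → ∀ᶠ N : ℕ in atTop, ∀ Q : ℕ, 1 ≤ Q → Q ≤ N →
    |2 * ∑ j ∈ Icc 1 (N / Q), ((N : ℝ) - j * Q) * Sg N Q j - (N : ℝ) ^ 2 / Nat.totient Q +
      N * Real.log ((N : ℝ) / Q)| ≤ δ * N * Real.log N

/-! ## Part G: the variance in terms of the pair sums -/

/-- **G** (algebra, 45 min). `hb`: the sieved classes are residues.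

Proof. `psiR z b N Q A` for `A ∈ Cl Q b`: `n ∈ R z b`, `n % Q = A`: then `n % p = A % p ≠ b p` for the primes `p ∣ Q`, so
`sv z Q N b n = 1` (`z n ≤ n ≤ N`, `p ∣ Q → p ≤ N`); conversely `sv z Q N b n = 1`, `3 ≤ n ≤ N` iff `n ∈ R z b` and
`n % Q ∈ Cl Q b`. Hence `∑_A psiR = ∑_{3 ≤ n ≤ N} log n · sv n = PF z Q 0 N log b` (`sv² = sv`),
`∑_A psiR² = ∑_{n, m ≤ N, n ≡ m (Q)} log n log m sv n sv m`, split into `n = m`, `n < m = n + jQ`, `n > m`. The number of classes: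
`(Cl Q b).card = φ(Q)`: for `b` with `b p < p` for `p ∣ Q` (CRT: a shift: choose `c` with `c ≡ b p mod p` for all `p ∣ Q`, then
`A ∈ Cl` iff `A - c` is prime to `Q`; `Nat.chineseRemainderOfFinset`, `ZMod` units or `Nat.filter_coprime_Ico_eq_totient`). -/
def P_G : Prop :=
  ∀ z : ℕ → ℕ, Monotone z → (∀ n, z n ≤ n) → ∀ (b : ℕ → ℕ) (N Q : ℕ), 1 ≤ Q → Q ≤ N →
    (∀ p ∈ Q.primeFactors, b p < p) →
    (Cl Q b).card = Nat.totient Q ∧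
    GR z b N Q = PF z Q 0 N (fun n => Real.log n * Real.log ((n + 0 : ℕ) : ℝ)) b +
      2 * ∑ j ∈ Icc 1 (N / Q), PF z Q (j * Q) N (fun n => Real.log n * Real.log ((n + j * Q : ℕ) : ℝ)) b -
      2 * (N / Nat.totient Q) * PF z Q 0 N (fun n => Real.log n) b + (N : ℝ) ^ 2 / Nat.totient Q

end Pool.Agent.T2H31.HV
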