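import Pool.Agent.T2H31.HV.Stm
import Pool.Agent.Erdos456.Mertens

set_option autoImplicit false

/-!
# Package D2: total mass and tails of the divisor coefficients of the singular series
-/

open Finset

namespace Pool.Agent.T2H31.HV

theorem one_le_ratio (n : ℕ) (hn : 1 ≤ n) : (1 : ℝ) ≤ (n : ℝ) / (Nat.totient n : ℝ) := by
  have h0 : 0 < Nat.totient n := Nat.totient_pos.2 hn
  have h0' : (0 : ℝ) < (Nat.totient n : ℝ) := by exact_mod_cast h0
  rw [le_div_iff₀ h0', one_mul]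
  exact_mod_cast Nat.totient_le n

/-- second moment of `n / φ(n)` -/
theorem ratio_sq_moment : ∃ C : ℝ, 0 < C ∧ ∀ N : ℕ,
    ∑ n ∈ Icc 1 N, ((n : ℝ) / (Nat.totient n : ℝ)) ^ 2 ≤ C * N := by
  obtain ⟨C, hC⟩ := Pool.Agent.Erdos456.Mert.totRatio_moment
  refine ⟨max C 1, by positivity, fun N => ?_⟩
  calc ∑ n ∈ Icc 1 N, ((n : ℝ) / (Nat.totient n : ℝ)) ^ 2
      ≤ ∑ n ∈ Icc 1 N, ((n : ℝ) / (Nat.totient n : ℝ)) ^ 6 := by
        refine sum_le_sum fun n hn => ?_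
        exact pow_le_pow_right₀ (one_le_ratio n (mem_Icc.1 hn).1) (by norm_num)
    _ ≤ C * N := hC N
    _ ≤ max C 1 * N := by gcongr; exact le_max_left _ _

/-- one dyadic block -/
theorem block_le (C : ℝ) (hC : ∀ N : ℕ, ∑ n ∈ Icc 1 N, ((n : ℝ) / (Nat.totient n : ℝ)) ^ 2 ≤ C * N)
    (M : ℕ) (hM : 1 ≤ M) :
    ∑ d ∈ Ioc M (2 * M), 1 / (Nat.totient d : ℝ) ^ 2 ≤ 2 * C / M := by
  have hM0 : (0 : ℝ) < M := by exact_mod_cast hM
  calc ∑ d ∈ Ioc M (2 * M), 1 / (Nat.totient d : ℝ) ^ 2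
      ≤ ∑ d ∈ Ioc M (2 * M), 1 / (M : ℝ) ^ 2 * ((d : ℝ) / (Nat.totient d : ℝ)) ^ 2 := by
        refine sum_le_sum fun d hd => ?_
        rw [mem_Ioc] at hd
        have hd0 : 0 < d := by omega
        have h0 : (0 : ℝ) < (Nat.totient d : ℝ) := by exact_mod_cast Nat.totient_pos.2 hd0
        have h1 : (M : ℝ) ≤ d := by exact_mod_cast hd.1.le
        rw [div_pow, div_mul_div_comm, one_mul, div_le_div_iff₀ (by positivity) (by positivity)]
        rw [one_mul]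
        have h2 : (M : ℝ) ^ 2 ≤ (d : ℝ) ^ 2 := by gcongr
        exact mul_le_mul_of_nonneg_right h2 (by positivity)
    _ ≤ ∑ d ∈ Icc 1 (2 * M), 1 / (M : ℝ) ^ 2 * ((d : ℝ) / (Nat.totient d : ℝ)) ^ 2 := by
        refine sum_le_sum_of_subset_of_nonneg ?_ fun _ _ _ => by positivity
        intro d hd
        rw [mem_Ioc] at hd
        rw [mem_Icc]
        omega
    _ = 1 / (M : ℝ) ^ 2 * ∑ d ∈ Icc 1 (2 * M), ((d : ℝ) / (Nat.totient d : ℝ)) ^ 2 := by rw [mul_sum]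
    _ ≤ 1 / (M : ℝ) ^ 2 * (C * ((2 * M : ℕ) : ℝ)) := by
        gcongr
        exact hC _
    _ = 2 * C / M := by
        push_cast
        field_simp

theorem T_tail : ∃ C : ℝ, 0 < C ∧ ∀ (T : Finset ℕ) (K : ℕ), 1 ≤ K → (∀ d ∈ T, K < d) →
    ∑ d ∈ T, 1 / (Nat.totient d : ℝ) ^ 2 ≤ C / K := by
  obtain ⟨C, hC0, hC⟩ := ratio_sq_moment
  refine ⟨4 * C, by positivity, fun T K hK hT => ?_⟩
  have hK0 : (0 : ℝ) < K := by exact_mod_cast hK
  have key : ∀ m : ℕ, ∑ d ∈ Ioc K (2 ^ m * K), 1 / (Nat.totient d : ℝ) ^ 2 ≤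
      4 * C / K * (1 - 1 / 2 ^ m) := by
    intro m
    induction m with
    | zero => simp
    | succ m ih =>
      have h1 : K ≤ 2 ^ m * K := Nat.le_mul_of_pos_left _ (by positivity)
      have h2 : 2 ^ m * K ≤ 2 ^ (m + 1) * K := Nat.mul_le_mul_right _ (Nat.pow_le_pow_right (by norm_num) (by omega))
      have h3 : Ioc K (2 ^ (m + 1) * K) = Ioc K (2 ^ m * K) ∪ Ioc (2 ^ m * K) (2 * (2 ^ m * K)) := by
        rw [show 2 * (2 ^ m * K) = 2 ^ (m + 1) * K by ring, Ioc_union_Ioc_eq_Ioc h1 h2]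
      have h4 : Disjoint (Ioc K (2 ^ m * K)) (Ioc (2 ^ m * K) (2 * (2 ^ m * K))) := by
        rw [disjoint_left]
        intro x hx hx'
        rw [mem_Ioc] at hx hx'
        omega
      rw [h3, sum_union h4]
      have h5 := block_le C hC (2 ^ m * K) (by nlinarith [Nat.one_le_two_pow (n := m)])
      have h6 : 2 * C / ((2 ^ m * K : ℕ) : ℝ) = 4 * C / K * (1 / 2 ^ m - 1 / 2 ^ (m + 1)) := by
        push_cast
        rw [pow_succ]
        field_simp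
        ring
      rw [h6] at h5
      linarith
  have hsub : T ⊆ Ioc K (2 ^ (T.sup id) * K) := by
    intro d hd
    rw [mem_Ioc]
    refine ⟨hT d hd, ?_⟩
    have h1 : d ≤ T.sup id := le_sup (f := id) hd
    have h2 : T.sup id < 2 ^ (T.sup id) := Nat.lt_two_pow_self
    nlinarith
  calc ∑ d ∈ T, 1 / (Nat.totient d : ℝ) ^ 2
      ≤ ∑ d ∈ Ioc K (2 ^ (T.sup id) * K), 1 / (Nat.totient d : ℝ) ^ 2 :=
        sum_le_sum_of_subset_of_nonneg hsub fun _ _ _ => by positivity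
    _ ≤ 4 * C / K * (1 - 1 / 2 ^ (T.sup id)) := key _
    _ ≤ 4 * C / K * 1 := by
        gcongr
        have : (0 : ℝ) < 1 / 2 ^ (T.sup id) := by positivity
        linarith
    _ = 4 * C / K := by ring

/-! ### the squarefree numbers with prime factors in a given set of primes -/

theorem prod_primeFactors_of_primes (t : Finset ℕ) (ht : ∀ p ∈ t, p.Prime) :
    (∏ p ∈ t, p).primeFactors = t := Nat.primeFactors_prod ht

theorem prime_dvd_prod_iff (t : Finset ℕ) (ht : ∀ p ∈ t, p.Prime) (p : ℕ) (hp : p.Prime) :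
    p ∣ ∏ q ∈ t, q ↔ p ∈ t := by
  have h := prod_primeFactors_of_primes t ht
  constructor
  · intro h1
    rw [← h, Nat.mem_primeFactors]
    exact ⟨hp, h1, (Finset.prod_pos fun q hq => (ht q hq).pos).ne'⟩
  · intro h1
    exact dvd_prod_of_mem _ h1

theorem squarefree_prod_primes (t : Finset ℕ) (ht : ∀ p ∈ t, p.Prime) : Squarefree (∏ p ∈ t, p) := by
  induction t using Finset.induction_on with
  | empty => simp
  | insert p t hp ih =>
    rw [prod_insert hp]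
    have h1 : p.Prime := ht p (mem_insert_self _ _)
    have h2 : ∀ q ∈ t, q.Prime := fun q hq => ht q (mem_insert_of_mem hq)
    rw [Nat.squarefree_mul]
    · exact ⟨h1.squarefree, ih h2⟩
    · rw [Nat.Prime.coprime_iff_not_dvd h1, prime_dvd_prod_iff t h2 p h1]
      exact hp

theorem totient_prod_primes (t : Finset ℕ) (ht : ∀ p ∈ t, p.Prime) :
    (Nat.totient (∏ p ∈ t, p) : ℝ) = ∏ p ∈ t, ((p : ℝ) - 1) := by
  induction t using Finset.induction_on with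
  | empty => simp
  | insert p t hp ih =>
    have h1 : p.Prime := ht p (mem_insert_self _ _)
    have h2 : ∀ q ∈ t, q.Prime := fun q hq => ht q (mem_insert_of_mem hq)
    rw [prod_insert hp, prod_insert hp, Nat.totient_mul, Nat.totient_prime h1]
    · rw [Nat.cast_mul, ih h2, Nat.cast_sub h1.one_le, Nat.cast_one]
    · rw [Nat.Prime.coprime_iff_not_dvd h1, prime_dvd_prod_iff t h2 p h1]
      exact hp

theorem mem_PQ (N Q p : ℕ) : p ∈ PQ N Q ↔ (p ≤ N ∧ p.Prime) ∧ ¬ p ∣ Q := by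
  unfold PQ
  rw [mem_filter, mem_PN]

theorem PQ_prime (N Q : ℕ) (t : Finset ℕ) (ht : t ⊆ PQ N Q) : ∀ p ∈ t, p.Prime := fun p hp =>
  ((mem_PQ N Q p).1 (ht hp)).1.2

theorem local_nonneg (p : ℕ) (hp : p.Prime) : (0 : ℝ) ≤ 1 - 1 / ((p : ℝ) - 1) ^ 2 := by
  have h1 : (2 : ℝ) ≤ p := by exact_mod_cast hp.two_le
  have h2 : (1 : ℝ) ≤ (p : ℝ) - 1 := by linarith
  have h3 : (1 : ℝ) ≤ ((p : ℝ) - 1) ^ 2 := one_le_pow₀ h2
  have h4 : 1 / ((p : ℝ) - 1) ^ 2 ≤ 1 := by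
    rw [div_le_one (by positivity)]
    exact h3
  linarith

theorem local_le_one (p : ℕ) : (1 : ℝ) - 1 / ((p : ℝ) - 1) ^ 2 ≤ 1 := by
  have : (0 : ℝ) ≤ 1 / ((p : ℝ) - 1) ^ 2 := by positivity
  linarith

/-- `gd` is nonnegative -/
theorem gd_nonneg (N Q d : ℕ) : 0 ≤ gd N Q d := by
  unfold gd
  refine mul_nonneg (by positivity) (prod_nonneg fun p hp => ?_)
  exact local_nonneg p (((mem_PQ N Q p).1 (mem_filter.1 hp).1).1.2)

/-- `gd d ≤ d / φ(d)²` -/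
theorem gd_le (N Q d : ℕ) : gd N Q d ≤ (d : ℝ) / (Nat.totient d : ℝ) ^ 2 := by
  unfold gd
  have h : ∏ p ∈ (PQ N Q).filter (fun p => ¬ p ∣ d), (1 - 1 / ((p : ℝ) - 1) ^ 2) ≤ 1 := by
    refine prod_le_one (fun p hp => ?_) fun p _ => local_le_one p
    exact local_nonneg p (((mem_PQ N Q p).1 (mem_filter.1 hp).1).1.2)
  exact mul_le_of_le_one_right (by positivity) h

/-- `gd` at a product of primes -/
theorem gd_prod (N Q : ℕ) (t : Finset ℕ) (ht : t ⊆ PQ N Q) :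
    gd N Q (∏ p ∈ t, p) / ((∏ p ∈ t, p : ℕ) : ℝ) =
      (∏ p ∈ t, 1 / ((p : ℝ) - 1) ^ 2) * ∏ p ∈ PQ N Q \ t, (1 - 1 / ((p : ℝ) - 1) ^ 2) := by
  have hp := PQ_prime N Q t ht
  unfold gd
  have h1 : ((∏ p ∈ t, p : ℕ) : ℝ) ≠ 0 := by
    have : 0 < ∏ p ∈ t, p := Finset.prod_pos fun q hq => (hp q hq).pos
    exact_mod_cast this.ne'
  have h2 : (PQ N Q).filter (fun p => ¬ p ∣ ∏ q ∈ t, q) = PQ N Q \ t := by
    ext p
    rw [mem_filter, mem_sdiff]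
    constructor
    · rintro ⟨h3, h4⟩
      exact ⟨h3, fun h5 => h4 (dvd_prod_of_mem _ h5)⟩
    · rintro ⟨h3, h4⟩
      refine ⟨h3, fun h5 => h4 ?_⟩
      exact (prime_dvd_prod_iff t hp p ((mem_PQ N Q p).1 h3).1.2).1 h5
  rw [h2, totient_prod_primes t hp]
  have h3 : ∏ p ∈ t, 1 / ((p : ℝ) - 1) ^ 2 = 1 / (∏ p ∈ t, ((p : ℝ) - 1)) ^ 2 := by
    rw [← Finset.prod_pow, one_div, ← Finset.prod_inv_distrib]
    refine prod_congr rfl fun p _ => by rw [one_div]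
  rw [h3]
  field_simp

/-- the total mass is one -/
theorem total_mass (N Q : ℕ) :
    ∑ t ∈ (PQ N Q).powerset, gd N Q (∏ p ∈ t, p) / ((∏ p ∈ t, p : ℕ) : ℝ) = 1 := by
  rw [sum_congr rfl fun t ht => gd_prod N Q t (mem_powerset.1 ht)]
  rw [← prod_add]
  refine prod_eq_one fun p _ => by ring

/-- the squarefree numbers with prime factors in `PQ N Q` -/
def DD (N Q : ℕ) : Finset ℕ := (PQ N Q).powerset.image fun t => ∏ p ∈ t, p

theorem DD_sum (N Q : ℕ) (f : ℕ → ℝ) : ∑ d ∈ DD N Q, f d = ∑ t ∈ (PQ N Q).powerset, f (∏ p ∈ t, p) := by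
  unfold DD
  rw [sum_image]
  intro s hs t ht hst
  rw [mem_coe, mem_powerset] at hs ht
  have h1 := prod_primeFactors_of_primes s (PQ_prime N Q s hs)
  have h2 := prod_primeFactors_of_primes t (PQ_prime N Q t ht)
  have h3 : ∏ p ∈ s, p = ∏ p ∈ t, p := hst
  rw [← h1, h3, h2]

theorem mem_DD (N Q d : ℕ) : d ∈ DD N Q ↔ Squarefree d ∧ ∀ p, p.Prime → p ∣ d → p ≤ N ∧ ¬ p ∣ Q := by
  unfold DD
  rw [mem_image]
  constructor
  · rintro ⟨t, ht, rfl⟩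
    rw [mem_powerset] at ht
    have hp := PQ_prime N Q t ht
    refine ⟨squarefree_prod_primes t hp, fun p hpp hd => ?_⟩
    have h1 := (mem_PQ N Q p).1 (ht ((prime_dvd_prod_iff t hp p hpp).1 hd))
    exact ⟨h1.1.1, h1.2⟩
  · rintro ⟨h1, h2⟩
    refine ⟨d.primeFactors, ?_, Nat.prod_primeFactors_of_squarefree h1⟩
    rw [mem_powerset]
    intro p hp
    have h3 := h2 p (Nat.prime_of_mem_primeFactors hp) (Nat.dvd_of_mem_primeFactors hp)
    rw [mem_PQ]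
    exact ⟨⟨h3.1, Nat.prime_of_mem_primeFactors hp⟩, h3.2⟩

theorem mem_SF (Q K d : ℕ) : d ∈ SF Q K ↔ (1 ≤ d ∧ d ≤ K) ∧ Squarefree d ∧ Nat.Coprime d Q := by
  unfold SF
  rw [mem_filter, mem_Icc]

theorem SF_sub_DD (N Q K : ℕ) (hK : K ≤ N) : SF Q K ⊆ DD N Q := by
  intro d hd
  rw [mem_SF] at hd
  obtain ⟨⟨h1, h2⟩, h3, h4⟩ := hd
  rw [mem_DD]
  refine ⟨h3, fun p hp hpd => ⟨(Nat.le_of_dvd (by omega) hpd).trans (h2.trans hK), fun hpQ => ?_⟩⟩
  exact Nat.Prime.not_dvd_one hp (h4 ▸ Nat.dvd_gcd hpd hpQ)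

theorem DD_sdiff (N Q K d : ℕ) (hd : d ∈ DD N Q \ SF Q K) : K < d := by
  rw [mem_sdiff, mem_DD, mem_SF] at hd
  obtain ⟨⟨h1, h2⟩, h3⟩ := hd
  by_contra h4
  push Not at h4
  apply h3
  refine ⟨⟨Nat.pos_of_ne_zero h1.ne_zero, h4⟩, h1, ?_⟩
  exact Nat.coprime_of_dvd fun p hp hpd => (h2 p hp hpd).2

theorem T_D2 : P_D2 := by
  obtain ⟨C, hC0, hC⟩ := T_tail
  refine ⟨C, hC0, fun N Q K _ hK hKN => ?_⟩
  have h1 : (1 : ℝ) = ∑ d ∈ DD N Q, gd N Q d / d := by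
    rw [DD_sum N Q (fun d => gd N Q d / d)]
    exact (total_mass N Q).symm
  have h2 : 1 - ∑ d ∈ SF Q K, gd N Q d / d = ∑ d ∈ DD N Q \ SF Q K, gd N Q d / d := by
    rw [h1, ← sum_sdiff (SF_sub_DD N Q K hKN)]
    ring
  rw [h2]
  refine ⟨sum_nonneg fun d _ => div_nonneg (gd_nonneg N Q d) (Nat.cast_nonneg d), ?_⟩
  refine le_trans (sum_le_sum fun d hd => ?_) (hC (DD N Q \ SF Q K) K hK fun d hd => DD_sdiff N Q K d hd)
  have hd0 : 0 < d := lt_of_le_of_lt (Nat.zero_le K) (DD_sdiff N Q K d hd)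
  have hd1 : (0 : ℝ) < d := by exact_mod_cast hd0
  rw [div_le_iff₀ hd1]
  refine (gd_le N Q d).trans (le_of_eq ?_)
  ring

end Pool.Agent.T2H31.HV
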